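import Mathlib

/-!
# Definitions for the proof of S04023 (MP_1fef1a_an), joint work of helper42, helper44, helper31

Coordinates: `z = x + i θ`, `w = e^z`.  `L z = log ‖f (exp z)‖`.  The rescaled trajectory is
`traj ρ L T z = e^{-ρ T} L (z + T)`.  `calH ρ h z = e^{ρ re z} h (im z)`.
-/

set_option autoImplicit false

open MeasureTheory Filter Topology Set

noncomputable section

namespace Pool.Agent.LS

/-- `ρ`-trigonometric convexity (three point inequality). -/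
def TrigConvex (ρ : ℝ) (h : ℝ → ℝ) : Prop :=
  ∀ θ₁ θ₂ θ₃ : ℝ, θ₁ < θ₂ → θ₂ < θ₃ → θ₃ - θ₁ < Real.pi / ρ →
    h θ₂ * Real.sin (ρ * (θ₃ - θ₁))
      ≤ h θ₁ * Real.sin (ρ * (θ₃ - θ₂)) + h θ₃ * Real.sin (ρ * (θ₂ - θ₁))

/-- The homogeneous function with indicator `h`, in logarithmic coordinates. -/
def calH (ρ : ℝ) (h : ℝ → ℝ) (z : ℂ) : ℝ := Real.exp (ρ * z.re) * h z.im

/-- The class of possible limits `V(z) = v(e^z)`. -/
structure Adm (ρ C : ℝ) (h : ℝ → ℝ) (V : ℂ → ℝ) : Prop where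
  per : ∀ z : ℂ, V (z + 2 * Real.pi * Complex.I) = V z
  lip : ∀ z w : ℂ, |V z - V w| ≤ C * Real.exp (ρ * max z.re w.re) * ‖z - w‖
  bound : ∀ z : ℂ, |V z| ≤ C * Real.exp (ρ * z.re)
  le : ∀ z : ℂ, V z ≤ calH ρ h z
  sub : ∀ (z : ℂ) (r : ℝ), 0 < r → V z ≤ Real.circleAverage V z r
  harm : ∀ z : ℂ, V z < calH ρ h z → InnerProductSpace.HarmonicAt V z

/-- The rescaled trajectory. -/
def traj (ρ : ℝ) (L : ℂ → ℝ) (T : ℝ) (z : ℂ) : ℝ := Real.exp (-(ρ * T)) * L (z + (T : ℂ))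

/-- `V` is the limit of the trajectory of `L` along the ultrafilter `U` (weakly against continuous
compactly supported functions). -/
def IsLim (ρ : ℝ) (L : ℂ → ℝ) (U : Ultrafilter ℝ) (V : ℂ → ℝ) : Prop :=
  ∀ ψ : ℂ → ℝ, Continuous ψ → HasCompactSupport ψ →
    Tendsto (fun T : ℝ => ∫ z : ℂ, traj ρ L T z * ψ z) (U : Filter ℝ) (𝓝 (∫ z : ℂ, V z * ψ z))

/-- Conclusion of the first half (from `f` to the limit class) = hypothesis of the second half. -/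
def GoodTraj (ρ C : ℝ) (h : ℝ → ℝ) (L : ℂ → ℝ) : Prop :=
  ∀ U : Ultrafilter ℝ, (U : Filter ℝ) ≤ atTop → ∃ V : ℂ → ℝ, Adm ρ C h V ∧ IsLim ρ L U V

end Pool.Agent.LS
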