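import Mathlib

/-! # Circle averages of `log ‖g‖` -/

set_option autoImplicit false

open MeasureTheory Filter Topology Set Metric Real

noncomputable section

namespace Pool.Agent.LS

lemma jensen_sum_nonneg {g : ℂ → ℂ} (hg : Differentiable ℂ g) (c : ℂ) {r : ℝ} (hr : 0 < r) :
    0 ≤ ∑ᶠ u, (MeromorphicOn.divisor g (closedBall c |r|) u : ℝ) * Real.log (r * ‖c - u‖⁻¹) := by
  have han : AnalyticOnNhd ℂ g (closedBall c |r|) := fun z _ => hg.analyticAt z
  apply finsum_nonneg
  intro u
  by_cases hu : u ∈ closedBall c |r|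
  · refine mul_nonneg (mod_cast MeromorphicOn.AnalyticOnNhd.divisor_nonneg han u) ?_
    by_cases h : c = u
    · simp [h]
    · have h1 : 0 < ‖c - u‖ := norm_pos_iff.2 (sub_ne_zero.2 h)
      apply Real.log_nonneg
      rw [← div_eq_mul_inv, one_le_div h1, ← dist_eq_norm, dist_comm]
      rw [mem_closedBall, abs_of_pos hr] at hu
      exact hu
  · have : MeromorphicOn.divisor g (closedBall c |r|) u = 0 :=
      Function.locallyFinsuppWithin.apply_eq_zero_of_notMem _ hu
    rw [this]
    simp

/-- subharmonicity at a non-zero -/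
lemma circleAverage_ge_of_ne_zero {g : ℂ → ℂ} (hg : Differentiable ℂ g) {c : ℂ} {r : ℝ}
    (hr : 0 < r) (hc : g c ≠ 0) :
    Real.log ‖g c‖ ≤ circleAverage (fun z => Real.log ‖g z‖) c r := by
  have han : AnalyticOnNhd ℂ g (closedBall c |r|) := fun z _ => hg.analyticAt z
  have h := AnalyticOnNhd.circleAverage_log_norm hr.ne' han hc
  have h2 := jensen_sum_nonneg hg c hr
  have h3 : circleAverage (fun z => Real.log ‖g z‖) c r = circleAverage (Real.log ‖g ·‖) c r := rfl
  rw [h3, h]
  linarith

/-- mean value property off the zeros -/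
lemma circleAverage_eq_of_ne_zero {g : ℂ → ℂ} (hg : Differentiable ℂ g) {c : ℂ} {r : ℝ}
    (hr : 0 < r) (hc : ∀ z ∈ closedBall c r, g z ≠ 0) :
    circleAverage (fun z => Real.log ‖g z‖) c r = Real.log ‖g c‖ := by
  have han : AnalyticOnNhd ℂ g (closedBall c |r|) := fun z _ => hg.analyticAt z
  exact AnalyticOnNhd.circleAverage_log_norm_of_ne_zero han (by rwa [abs_of_pos hr])

/-- lower bound at a simple zero -/
lemma circleAverage_ge_of_simple_zero {g : ℂ → ℂ} (hg : Differentiable ℂ g) {c : ℂ} {r : ℝ}
    (hr : 0 < r) (hc : g c = 0) (hc' : deriv g c ≠ 0) :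
    Real.log ‖deriv g c‖ + Real.log r ≤ circleAverage (fun z => Real.log ‖g z‖) c r := by
  have hmero : MeromorphicOn g (closedBall c |r|) := fun z _ => (hg.analyticAt z).meromorphicAt
  have h := MeromorphicOn.circleAverage_log_norm hr.ne' hmero
  have h2 := jensen_sum_nonneg hg c hr
  -- order and trailing coefficient
  have hd : Differentiable ℂ (dslope g c) := by
    intro z
    exact ((Complex.differentiableOn_dslope (s := univ) (c := c) univ_mem).2
      hg.differentiableOn).differentiableAt univ_mem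
  have hg1 : AnalyticAt ℂ (dslope g c) c := hd.analyticAt c
  have hg1c : dslope g c c ≠ 0 := by rwa [dslope_same]
  have hev : ∀ z, g z = (z - c) ^ (1 : ℤ) • dslope g c z := by
    intro z
    rw [zpow_one]
    have := sub_smul_dslope g c z
    rw [this, hc, sub_zero]
  have htr : meromorphicTrailingCoeffAt g c = deriv g c := by
    rw [← dslope_same g c]
    apply AnalyticAt.meromorphicTrailingCoeffAt_of_ne_zero_of_eq_nhdsNE (n := 1) hg1 hg1c
    exact Filter.Eventually.of_forall hev
  have hord : meromorphicOrderAt g c = (1 : ℤ) := by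
    rw [meromorphicOrderAt_eq_int_iff (hg.analyticAt c).meromorphicAt]
    exact ⟨dslope g c, hg1, hg1c, Filter.Eventually.of_forall hev⟩
  have hdiv : MeromorphicOn.divisor g (closedBall c |r|) c = 1 := by
    rw [MeromorphicOn.divisor_apply hmero (by simp), hord]
    rfl
  have h3 : circleAverage (fun z => Real.log ‖g z‖) c r = circleAverage (Real.log ‖g ·‖) c r := rfl
  rw [h3, h, htr, hdiv]
  push_cast
  linarith

/-- lower bound for circle averages around the origin -/
lemma circleAverage_zero_lower {g : ℂ → ℂ} (hg : Differentiable ℂ g) :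
    ∃ C : ℝ, 0 ≤ C ∧ ∀ r : ℝ, 0 < r →
      -(C * (1 + |Real.log r|)) ≤ circleAverage (fun z => Real.log ‖g z‖) 0 r := by
  by_cases htop : meromorphicOrderAt g 0 = ⊤
  · -- g = 0 identically
    have h0 : ∀ z, g z = 0 := by
      have h1 : ∀ᶠ z in 𝓝 (0 : ℂ), g z = 0 := by
        have h2 : analyticOrderAt g 0 = ⊤ := by
          have := (hg.analyticAt 0).meromorphicOrderAt_eq
          rw [htop] at this
          by_contra hne
          obtain ⟨n, hn⟩ := ENat.ne_top_iff_exists.1 hne
          rw [← hn] at this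
          simp at this
        rwa [analyticOrderAt_eq_top] at h2
      have h3 : AnalyticOnNhd ℂ g univ := fun z _ => hg.analyticAt z
      intro z
      exact h3.eqOn_zero_of_preconnected_of_eventuallyEq_zero isPreconnected_univ (mem_univ 0) h1
        (mem_univ z)
    refine ⟨0, le_refl _, fun r _ => ?_⟩
    simp [h0, circleAverage_const]
  · obtain ⟨n, hn⟩ := WithTop.ne_top_iff_exists.1 htop
    refine ⟨|(n : ℝ)| + |Real.log ‖meromorphicTrailingCoeffAt g 0‖|, by positivity, fun r hr => ?_⟩
    have hmero : MeromorphicOn g (closedBall 0 |r|) := fun z _ => (hg.analyticAt z).meromorphicAt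
    have h := MeromorphicOn.circleAverage_log_norm hr.ne' hmero
    have h2 := jensen_sum_nonneg hg 0 hr
    have hdiv : MeromorphicOn.divisor g (closedBall 0 |r|) 0 = n := by
      rw [MeromorphicOn.divisor_apply hmero (by simp), ← hn]
      rfl
    have h3 : circleAverage (fun z => Real.log ‖g z‖) 0 r = circleAverage (Real.log ‖g ·‖) 0 r := rfl
    rw [h3, h, hdiv]
    have h4 : -(|(n : ℝ)| * |Real.log r|) ≤ (n : ℝ) * Real.log r := by
      rw [← abs_mul]; exact neg_abs_le _
    have h5 := neg_abs_le (Real.log ‖meromorphicTrailingCoeffAt g 0‖)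
    have h6 : 0 ≤ |(n : ℝ)| := abs_nonneg _
    have h7 : 0 ≤ |Real.log r| := abs_nonneg _
    have h8 : 0 ≤ |Real.log ‖meromorphicTrailingCoeffAt g 0‖| := abs_nonneg _
    nlinarith [mul_nonneg h8 h7]

end Pool.Agent.LS
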