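import Pool.Agent.Helper44.LS.Extract
import Pool.Agent.Helper42.Fr.Defs
import Pool.Agent.Helper31.LS.TC

/-! # The limit function belongs to the class `InC`; Block F -/

set_option autoImplicit false

open MeasureTheory Filter Topology Set Metric Real

noncomputable section

namespace Pool.Agent.LS

open Pool.Agent.Helper42.Fr (Sm dX dT Lst IsTest cpt_dX cpt_dT InC IndH Traj ConvD shift)

variable {ρ C C0 B K0 : ℝ} {f : ℂ → ℂ}

/-- the trajectory in logarithmic coordinates -/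
def vhat (ρ : ℝ) (f : ℂ → ℂ) (z : ℝ × ℝ) : ℝ :=
  Real.exp (-ρ * z.1) * Real.log ‖f (Complex.exp ((z.1 : ℂ) + (z.2 : ℂ) * Complex.I))‖

/-- the limit in logarithmic coordinates -/
def vv (ρ : ℝ) (f : ℂ → ℂ) (X : ℕ → ℝ) (z : ℝ × ℝ) : ℝ := Real.exp (-ρ * z.1) * VV ρ f X (cx z)

lemma vhat_eq (ρ : ℝ) (f : ℂ → ℂ) (z : ℝ × ℝ) : vhat ρ f z = Real.exp (-ρ * z.1) * LR f z := rfl

lemma shift_vhat (ρ : ℝ) (f : ℂ → ℂ) (T : ℝ) (z : ℝ × ℝ) :
    shift T (vhat ρ f) z = Real.exp (-ρ * z.1) * UU ρ f T (cx z) := by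
  rw [UU_cx, ← mul_assoc, ← Real.exp_add]
  unfold shift
  rw [vhat_eq]
  congr 2
  simp only
  ring

/-! ### the Laplacian -/

lemma Lst_eq {φ : ℝ × ℝ → ℝ} (hφ : Sm φ) (z : ℝ × ℝ) :
    lap (fun z => Real.exp (-ρ * z.1) * φ z) z = Real.exp (-ρ * z.1) * Lst ρ φ z := by
  have hE : ContDiff ℝ (⊤ : ℕ∞) (fun x : ℝ => Real.exp (-ρ * x)) := by fun_prop
  have hEs : Sm (fun z : ℝ × ℝ => Real.exp (-ρ * z.1)) := Pool.Agent.Helper42.Fr.Sm.of_fst hE
  have hd : deriv (fun x : ℝ => Real.exp (-ρ * x)) = fun x => -ρ * Real.exp (-ρ * x) := by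
    funext x
    have h1 : HasDerivAt (fun x : ℝ => -ρ * x) (-ρ) x := by
      simpa using (hasDerivAt_id x).const_mul (-ρ)
    have := h1.exp
    rw [this.deriv]; ring
  have e1 : dX (fun z : ℝ × ℝ => Real.exp (-ρ * z.1)) = fun z => -ρ * Real.exp (-ρ * z.1) := by
    rw [Pool.Agent.Helper42.Fr.dX_of_fst hE, hd]
  have e2 : dT (fun z : ℝ × ℝ => Real.exp (-ρ * z.1)) = fun _ => 0 :=
    Pool.Agent.Helper42.Fr.dT_of_fst hE
  have e3 : dX (fun z => Real.exp (-ρ * z.1) * φ z)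
      = fun z => Real.exp (-ρ * z.1) * (dX φ z - ρ * φ z) := by
    rw [Pool.Agent.Helper42.Fr.dX_mul hEs hφ, e1]
    funext z; ring
  have e4 : dT (fun z => Real.exp (-ρ * z.1) * φ z) = fun z => Real.exp (-ρ * z.1) * dT φ z := by
    rw [Pool.Agent.Helper42.Fr.dT_mul hEs hφ, e2]
    funext z; ring
  have hφ2 : Sm (fun z => dX φ z - ρ * φ z) := hφ.dX.sub (hφ.const_mul ρ)
  have e5 : dX (fun z => Real.exp (-ρ * z.1) * (dX φ z - ρ * φ z))
      = fun z => Real.exp (-ρ * z.1) * (dX (dX φ) z - ρ * dX φ z - ρ * (dX φ z - ρ * φ z)) := by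
    rw [Pool.Agent.Helper42.Fr.dX_mul hEs hφ2, e1,
      Pool.Agent.Helper42.Fr.dX_sub hφ.dX (hφ.const_mul ρ),
      Pool.Agent.Helper42.Fr.dX_const_mul ρ hφ]
    funext z; ring
  have e6 : dT (fun z => Real.exp (-ρ * z.1) * dT φ z)
      = fun z => Real.exp (-ρ * z.1) * dT (dT φ) z := by
    rw [Pool.Agent.Helper42.Fr.dT_mul hEs hφ.dT, e2]
    funext z; ring
  unfold lap Lst
  rw [e3, e4, e5, e6]
  ring

lemma exp_test {φ : ℝ × ℝ → ℝ} (hφ : IsTest φ) :
    IsTest (fun z => Real.exp (-ρ * z.1) * φ z) := by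
  refine ⟨?_, hφ.cpt.mul_left⟩
  have hE : ContDiff ℝ (⊤ : ℕ∞) (fun x : ℝ => Real.exp (-ρ * x)) := by fun_prop
  exact (Pool.Agent.Helper42.Fr.Sm.of_fst hE).mul hφ.smooth

lemma Lst_cont {φ : ℝ × ℝ → ℝ} (hφ : IsTest φ) : Continuous (Lst ρ φ) := by
  have h1 := (test_dX (test_dX hφ)).smooth.continuous
  have h2 := (test_dT (test_dT hφ)).smooth.continuous
  have h3 := (test_dX hφ).smooth.continuous
  have h4 := hφ.smooth.continuous
  unfold Lst
  fun_prop

lemma Lst_cpt {φ : ℝ × ℝ → ℝ} (hφ : IsTest φ) : HasCompactSupport (Lst ρ φ) := by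
  have h1 := (test_dX (test_dX hφ)).cpt
  have h2 := (test_dT (test_dT hφ)).cpt
  have h3 : HasCompactSupport (fun z => 2 * ρ * dX φ z) := (test_dX hφ).cpt.mul_left
  have h4 : HasCompactSupport (fun z => ρ ^ 2 * φ z) := hφ.cpt.mul_left
  unfold Lst
  exact ((h1.add h2).sub h3).add h4

/-! ### translated function -/

lemma GT_diff (hf : Differentiable ℂ f) (T : ℝ) : Differentiable ℂ (fun w => GG f (w + (T : ℂ))) := by
  have := GG_diff hf
  fun_prop

lemma GT_locInt (h : Dat ρ f C C0) (T : ℝ) :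
    LocallyIntegrable (fun z : ℝ × ℝ => Real.log ‖GG f (cx z + (T : ℂ))‖) := by
  intro z
  have hK : IsCompact (closedBall z 1) := isCompact_closedBall z 1
  have h1 := UU_locInt h T (cx '' closedBall z 1) (hK.image cx_continuous)
  rw [cx_mp.integrableOn_image cx_emb] at h1
  refine ⟨closedBall z 1, closedBall_mem_nhds z one_pos, ?_⟩
  have h2 := h1.const_mul (Real.exp (ρ * T))
  apply h2.congr
  filter_upwards with w
  simp only [Function.comp, UU]
  rw [← mul_assoc, ← Real.exp_add, add_neg_cancel, Real.exp_zero, one_mul]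
  rfl

lemma GT_ae (hf : Differentiable ℂ f) (hne : ∃ z, f z ≠ 0) (T : ℝ) :
    ∀ᵐ z : ℝ × ℝ, GG f (cx z + (T : ℂ)) ≠ 0 := by
  have h1 : ∀ᵐ w : ℂ, GG f (w + (T : ℂ)) ≠ 0 :=
    (measurePreserving_add_right volume (T : ℂ)).quasiMeasurePreserving.ae (GG_ae_ne hf hne)
  exact cx_mp.quasiMeasurePreserving.ae h1

lemma traj_sub (h : Dat ρ f C C0) (T : ℝ) {φ : ℝ × ℝ → ℝ} (hφ : IsTest φ) (h0 : ∀ z, 0 ≤ φ z) :
    0 ≤ ∫ z, shift T (vhat ρ f) z * Lst ρ φ z := by
  have h1 := sub_log (GT_diff h.ent T) (GT_locInt h T) (GT_ae h.ent h.ne T)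
    (exp_test (ρ := ρ) hφ) (fun z => mul_nonneg (Real.exp_pos _).le (h0 z))
  have e1 : ∀ z, shift T (vhat ρ f) z * Lst ρ φ z = Real.exp (-(ρ * T)) *
      (Real.log ‖GG f (cx z + (T : ℂ))‖ * lap (fun z => Real.exp (-ρ * z.1) * φ z) z) := by
    intro z
    rw [shift_vhat, Lst_eq hφ.smooth]
    unfold UU LL GG
    ring
  simp_rw [e1]
  rw [integral_const_mul]
  exact mul_nonneg (Real.exp_pos _).le h1

lemma traj_harm (h : Dat ρ f C C0) (T : ℝ) {φ : ℝ × ℝ → ℝ} (hφ : IsTest φ)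
    (h0 : ∀ z ∈ tsupport φ, GG f (cx z + (T : ℂ)) ≠ 0) :
    ∫ z, shift T (vhat ρ f) z * Lst ρ φ z = 0 := by
  have h1 := harm_log (GT_diff h.ent T) (GT_locInt h T) (GT_ae h.ent h.ne T)
    (exp_test (ρ := ρ) hφ) (fun z hz => h0 z (tsupport_mul_subset_right hz))
  have e1 : ∀ z, shift T (vhat ρ f) z * Lst ρ φ z = Real.exp (-(ρ * T)) *
      (Real.log ‖GG f (cx z + (T : ℂ))‖ * lap (fun z => Real.exp (-ρ * z.1) * φ z) z) := by
    intro z
    rw [shift_vhat, Lst_eq hφ.smooth]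
    unfold UU LL GG
    ring
  simp_rw [e1]
  rw [integral_const_mul, h1, mul_zero]

/-- conversion of test functions -/
lemma convD_vv (h : Dat2 ρ f C C0 B K0) {X : ℕ → ℝ} (hX : GoodSeq ρ f X) :
    ConvD (fun j => shift (X j) (vhat ρ f)) (vv ρ f X) := by
  intro ψ hψ hψc
  set ψ' : ℂ → ℝ := fun w => Real.exp (-ρ * w.re) * ψ (w.re, w.im) with hψ'
  have hcont : Continuous (fun w : ℂ => ((w.re, w.im) : ℝ × ℝ)) :=
    Complex.continuous_re.prodMk Complex.continuous_im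
  have h1 : Continuous ψ' := by
    have := hψ.comp hcont
    have h2 : Continuous (fun w : ℂ => Real.exp (-ρ * w.re)) := by fun_prop
    exact h2.mul this
  have h2 : HasCompactSupport ψ' := by
    apply HasCompactSupport.mul_left
    apply HasCompactSupport.intro (hψc.isCompact.image cx_continuous)
    intro w hw
    apply image_eq_zero_of_notMem_tsupport
    intro hcon
    exact hw ⟨(w.re, w.im), hcon, by simp [cx, Complex.re_add_im]⟩
  have h3 := weak_conv h hX h1 h2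
  have hcx : ∀ z : ℝ × ℝ, ψ' (cx z) = Real.exp (-ρ * z.1) * ψ z := by
    intro z
    simp [hψ', cx]
  have e1 : ∀ j, ∫ z, shift (X j) (vhat ρ f) z * ψ z = ∫ w, UU ρ f (X j) w * ψ' w := by
    intro j
    rw [← integral_cx]
    congr 1
    funext z
    rw [hcx, shift_vhat]
    ring
  have e2 : ∫ z, vv ρ f X z * ψ z = ∫ w, VV ρ f X w * ψ' w := by
    rw [← integral_cx]
    congr 1
    funext z
    rw [hcx]
    unfold vv
    ring
  simp_rw [e1]
  rw [e2]
  exact h3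

lemma ZZ_per {X : ℕ → ℝ} {z : ℂ} : z + 2 * π * Complex.I ∈ ZZ f X ↔ z ∈ ZZ f X := by
  have hper : ∀ w, GG f (w + 2 * π * Complex.I) = GG f w := by
    intro w; unfold GG; rw [Complex.exp_add, Complex.exp_two_pi_mul_I, mul_one]
  constructor
  · intro hz r hr
    filter_upwards [hz r hr] with j hj
    obtain ⟨w, hw, h0⟩ := hj
    refine ⟨w - 2 * π * Complex.I, ?_, ?_⟩
    · rw [mem_ball, dist_eq_norm] at *
      rwa [show w - 2 * π * Complex.I - z = w - (z + 2 * π * Complex.I) by ring]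
    · rw [← hper, show w - 2 * π * Complex.I + (X j : ℂ) + 2 * π * Complex.I = w + (X j : ℂ) by ring]
      exact h0
  · intro hz r hr
    filter_upwards [hz r hr] with j hj
    obtain ⟨w, hw, h0⟩ := hj
    refine ⟨w + 2 * π * Complex.I, ?_, ?_⟩
    · rw [mem_ball, dist_eq_norm] at *
      rwa [show w + 2 * π * Complex.I - (z + 2 * π * Complex.I) = w - z by ring]
    · rw [show w + 2 * π * Complex.I + (X j : ℂ) = (w + (X j : ℂ)) + 2 * π * Complex.I by ring, hper]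
      exact h0

lemma VV_per (X : ℕ → ℝ) (z : ℂ) : VV ρ f X (z + 2 * π * Complex.I) = VV ρ f X z := by
  unfold VV
  have h1 : HH ρ f (z + 2 * π * Complex.I) = HH ρ f z := by
    unfold HH EE
    have h2 : (z + 2 * π * Complex.I).re = z.re := by simp
    have h3 : (z + 2 * π * Complex.I).im = z.im + 2 * π := by simp
    rw [h2, h3, ind_periodic ρ f z.im]
  have h4 : ∀ j, UU ρ f (X j) (z + 2 * π * Complex.I) = UU ρ f (X j) z := by
    intro j
    unfold UU
    rw [show z + 2 * π * Complex.I + (X j : ℂ) = (z + (X j : ℂ)) + 2 * π * Complex.I by ring, LL_per]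
  by_cases hz : z ∈ ZZ f X
  · rw [if_pos hz, if_pos (ZZ_per.2 hz), h1]
  · rw [if_neg hz, if_neg (fun hc => hz (ZZ_per.1 hc))]
    simp_rw [h4]

/-- the class constant -/
def C2 (ρ B K0 C1 : ℝ) : ℝ := B + 600 * CB ρ B K0 + 25 * C1
def CC (ρ B K0 C1 : ℝ) : ℝ :=
  LipC ρ B K0 C1 + C2 ρ B K0 C1 * ρ * Real.exp ρ + 800 * C2 ρ B K0 C1

lemma vv_lip (h : Dat2 ρ f C C0 B K0) {C1 : ℝ} (hb : BallB ρ f C1) {X : ℕ → ℝ}
    (hX : GoodSeq ρ f X) (z w : ℝ × ℝ) :
    |vv ρ f X z - vv ρ f X w| ≤ CC ρ B K0 C1 * (|z.1 - w.1| + |z.2 - w.2|) := by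
  have hCB := h.CB_nonneg
  have hB := h.B_nonneg
  have hC1 := hb.nonneg
  have hKH := h.KH_nonneg
  have hρ := h.rho
  have hC2 : 0 ≤ C2 ρ B K0 C1 := by unfold C2; positivity
  have hL : 0 ≤ LipC ρ B K0 C1 := by unfold LipC; positivity
  have hbd : ∀ z, |vv ρ f X z| ≤ C2 ρ B K0 C1 := by
    intro z
    have h1 := VV_bound h hb hX (cx z)
    unfold vv
    rw [abs_mul, abs_of_pos (Real.exp_pos _)]
    have h2 : EE ρ (cx z) = Real.exp (ρ * z.1) := by unfold EE cx; simp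
    rw [h2] at h1
    calc Real.exp (-ρ * z.1) * |VV ρ f X (cx z)|
        ≤ Real.exp (-ρ * z.1) * ((B + 600 * CB ρ B K0 + 25 * C1) * Real.exp (ρ * z.1)) := by gcongr
      _ = (B + 600 * CB ρ B K0 + 25 * C1) * (Real.exp (-ρ * z.1) * Real.exp (ρ * z.1)) := by ring
      _ = C2 ρ B K0 C1 := by rw [← Real.exp_add]; simp [C2]
  set D := |z.1 - w.1| + |z.2 - w.2| with hD
  have hD0 : 0 ≤ D := by positivity
  have hn : ‖cx z - cx w‖ ≤ D := by
    have := Complex.norm_le_abs_re_add_abs_im (cx z - cx w)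
    simpa [cx, hD] using this
  by_cases hcase : D ≤ 1 / 400
  · have h1 := VV_lip h hb hX (z := cx z) (z' := cx w) (hn.trans hcase)
    have e1 : vv ρ f X z - vv ρ f X w = Real.exp (-ρ * z.1) * (VV ρ f X (cx z) - VV ρ f X (cx w))
        + (Real.exp (-ρ * (z.1 - w.1)) - 1) * vv ρ f X w := by
      unfold vv
      have : Real.exp (-ρ * z.1) = Real.exp (-ρ * (z.1 - w.1)) * Real.exp (-ρ * w.1) := by
        rw [← Real.exp_add]; ring_nf
      rw [this]; ring
    have h2 : |Real.exp (-ρ * z.1) * (VV ρ f X (cx z) - VV ρ f X (cx w))| ≤ LipC ρ B K0 C1 * D := by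
      rw [abs_mul, abs_of_pos (Real.exp_pos _), abs_sub_comm]
      have h3 : EE ρ (cx z) = Real.exp (ρ * z.1) := by unfold EE cx; simp
      rw [h3] at h1
      calc Real.exp (-ρ * z.1) * |VV ρ f X (cx w) - VV ρ f X (cx z)|
          ≤ Real.exp (-ρ * z.1) * (LipC ρ B K0 C1 * Real.exp (ρ * z.1) * D) := by
            gcongr
            refine h1.trans ?_
            gcongr
        _ = LipC ρ B K0 C1 * D * (Real.exp (-ρ * z.1) * Real.exp (ρ * z.1)) := by ring
        _ = _ := by rw [← Real.exp_add]; simp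
    have h4 : |Real.exp (-ρ * (z.1 - w.1)) - 1| ≤ ρ * Real.exp ρ * D := by
      have h5 := abs_exp_sub_one_le' (-ρ * (z.1 - w.1))
      have h6 : |-ρ * (z.1 - w.1)| = ρ * |z.1 - w.1| := by
        rw [abs_mul, abs_neg, abs_of_pos hρ]
      rw [h6] at h5
      have h7 : |z.1 - w.1| ≤ D := by rw [hD]; linarith [abs_nonneg (z.2 - w.2)]
      have h8 : Real.exp (ρ * |z.1 - w.1|) ≤ Real.exp ρ := by
        apply Real.exp_le_exp.2
        nlinarith
      calc |Real.exp (-ρ * (z.1 - w.1)) - 1| ≤ ρ * |z.1 - w.1| * Real.exp (ρ * |z.1 - w.1|) := h5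
        _ ≤ ρ * D * Real.exp ρ := by gcongr
        _ = _ := by ring
    rw [e1]
    calc |Real.exp (-ρ * z.1) * (VV ρ f X (cx z) - VV ρ f X (cx w))
        + (Real.exp (-ρ * (z.1 - w.1)) - 1) * vv ρ f X w|
        ≤ LipC ρ B K0 C1 * D + ρ * Real.exp ρ * D * C2 ρ B K0 C1 := by
          refine (abs_add_le _ _).trans ?_
          gcongr
          rw [abs_mul]
          gcongr
          exact hbd w
      _ ≤ CC ρ B K0 C1 * D := by
          unfold CC
          have : 0 ≤ 800 * C2 ρ B K0 C1 * D := by positivity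
          nlinarith
  · push Not at hcase
    calc |vv ρ f X z - vv ρ f X w| ≤ |vv ρ f X z| + |vv ρ f X w| := abs_sub _ _
      _ ≤ C2 ρ B K0 C1 + C2 ρ B K0 C1 := by gcongr; exacts [hbd z, hbd w]
      _ ≤ 800 * C2 ρ B K0 C1 * D := by nlinarith
      _ ≤ CC ρ B K0 C1 * D := by
          unfold CC
          have : 0 ≤ (LipC ρ B K0 C1 + C2 ρ B K0 C1 * ρ * Real.exp ρ) * D := by positivity
          nlinarith

lemma vv_bdd (h : Dat2 ρ f C C0 B K0) {C1 : ℝ} (hb : BallB ρ f C1) {X : ℕ → ℝ}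
    (hX : GoodSeq ρ f X) (z : ℝ × ℝ) : |vv ρ f X z| ≤ C2 ρ B K0 C1 := by
  have h1 := VV_bound h hb hX (cx z)
  unfold vv
  rw [abs_mul, abs_of_pos (Real.exp_pos _)]
  have h2 : EE ρ (cx z) = Real.exp (ρ * z.1) := by unfold EE cx; simp
  rw [h2] at h1
  calc Real.exp (-ρ * z.1) * |VV ρ f X (cx z)|
      ≤ Real.exp (-ρ * z.1) * ((B + 600 * CB ρ B K0 + 25 * C1) * Real.exp (ρ * z.1)) := by gcongr
    _ = (B + 600 * CB ρ B K0 + 25 * C1) * (Real.exp (-ρ * z.1) * Real.exp (ρ * z.1)) := by ring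
    _ = C2 ρ B K0 C1 := by rw [← Real.exp_add]; simp [C2]

lemma vv_InC (h : Dat2 ρ f C C0 B K0) {C1 : ℝ} (hb : BallB ρ f C1) {X : ℕ → ℝ}
    (hX : GoodSeq ρ f X) {Cc : ℝ} (hCc1 : C2 ρ B K0 C1 ≤ Cc) (hCc2 : CC ρ B K0 C1 ≤ Cc) :
    InC ρ Cc (ind ρ f) (vv ρ f X) := by
  have hconv := convD_vv h hX
  have hle : ∀ x t, vv ρ f X (x, t) ≤ ind ρ f t := by
    intro x t
    have h1 := VV_le h hX (cx (x, t))
    unfold vv
    have h2 : HH ρ f (cx (x, t)) = Real.exp (ρ * x) * ind ρ f t := by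
      unfold HH EE cx; simp
    rw [h2] at h1
    calc Real.exp (-ρ * (x, t).1) * VV ρ f X (cx (x, t))
        ≤ Real.exp (-ρ * x) * (Real.exp (ρ * x) * ind ρ f t) := by gcongr
      _ = ind ρ f t := by rw [← mul_assoc, ← Real.exp_add]; simp
  refine ⟨fun z => (vv_bdd h hb hX z).trans hCc1, fun z w => ?_, ?_, hle, ?_, ?_⟩
  · refine (vv_lip h hb hX z w).trans ?_
    gcongr
  · intro x t
    unfold vv
    have : cx (x, t + 2 * π) = cx (x, t) + 2 * π * Complex.I := by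
      unfold cx; push_cast; ring
    rw [this, VV_per]
  · intro φ hφ h0
    apply ge_of_tendsto (hconv (Lst ρ φ) (Lst_cont hφ) (Lst_cpt hφ))
    filter_upwards with j
    exact traj_sub h.toDat (X j) hφ h0
  · intro φ hφ h0 hsupp
    have h1 := hconv (Lst ρ φ) (Lst_cont hφ) (Lst_cpt hφ)
    refine tendsto_nhds_unique h1 ?_
    apply tendsto_const_nhds.congr'
    have hK : IsCompact (cx '' tsupport φ) := hφ.cpt.isCompact.image cx_continuous
    have hoff := off_compact hX hK (by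
      rintro w ⟨z, hz, rfl⟩ hcon
      have h2 := hsupp hz
      rw [mem_ofPred_eq] at h2
      unfold vv at h2
      rw [VV_on hcon] at h2
      have h3 : HH ρ f (cx z) = Real.exp (ρ * z.1) * ind ρ f z.2 := by
        unfold HH EE cx; simp
      rw [h3, ← mul_assoc, ← Real.exp_add] at h2
      simp at h2)
    filter_upwards [hoff] with j hj
    rw [traj_harm h.toDat (X j) hφ (fun z hz => hj (cx z) ⟨z, hz, rfl⟩)]

/-- BLOCK F -/
theorem blockF (ρ : ℝ) (f : ℂ → ℂ) (hf : HypF ρ f) :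
    ∃ C : ℝ, IndH ρ C (ind ρ f) ∧ Traj ρ C (ind ρ f) (vhat ρ f) := by
  obtain ⟨C, C0, hd⟩ := exists_dat hf
  have htc : TrigConvex ρ (ind ρ f) := ind_trigConvex hf.rho hf.ent hd.gr hf.low
  obtain ⟨K, hK1, hK⟩ := Pool.Agent.Helper31.LS.exists_IndH hf.rho htc (ind_periodic ρ f)
  have hIK := hK K (le_refl _)
  have h : Dat2 ρ f C C0 K K := ⟨hd, hIK.bdd, fun s t => hIK.lip s t⟩
  obtain ⟨C1, hb⟩ := exists_ballB hd
  set Cc := max K (max (C2 ρ K K C1) (CC ρ K K C1)) with hCc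
  refine ⟨Cc, hK Cc (le_max_left _ _), ?_⟩
  refine ⟨?_, ?_, ?_, ?_⟩
  · -- local integrability
    intro z
    have h1 := LR_locInt hd
    have h2 : IntegrableOn (LR f) (closedBall z 1) :=
      h1.integrableOn_isCompact (isCompact_closedBall z 1)
    refine ⟨closedBall z 1, closedBall_mem_nhds z one_pos, ?_⟩
    exact IntegrableOn.continuousOn_mul (by fun_prop) h2 (isCompact_closedBall z 1)
  · intro x t
    rw [vhat_eq, vhat_eq]
    have := LR_per f x t
    simp only at this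
    rw [this]
  · intro R
    obtain ⟨M, X₀, hM0, hM⟩ := l1_bound hd (max R 0) (le_max_right _ _)
    refine ⟨M, X₀, fun T hT => ?_⟩
    have h1 := hM T hT
    have hint : IntegrableOn (fun z : ℝ × ℝ => |shift T (vhat ρ f) z|)
        (Icc (-(max R 0)) (max R 0) ×ˢ Icc (-(max R 0)) (max R 0)) := by
      have hcomp : IsCompact (Icc (-(max R 0)) (max R 0) ×ˢ Icc (-(max R 0)) (max R 0) :
        Set (ℝ × ℝ)) := isCompact_Icc.prod isCompact_Icc
      have h2 := UU_locInt hd T (cx '' _) (hcomp.image cx_continuous)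
      rw [cx_mp.integrableOn_image cx_emb] at h2
      have h3 : IntegrableOn (fun z : ℝ × ℝ => Real.exp (-ρ * z.1) * UU ρ f T (cx z))
        (Icc (-(max R 0)) (max R 0) ×ˢ Icc (-(max R 0)) (max R 0)) :=
        IntegrableOn.continuousOn_mul (by fun_prop) h2 hcomp
      have h4 : (fun z : ℝ × ℝ => |shift T (vhat ρ f) z|)
          = fun z : ℝ × ℝ => |Real.exp (-ρ * z.1) * UU ρ f T (cx z)| := by
        funext z; rw [shift_vhat]
      rw [h4]
      exact h3.abs
    calc ∫ z in Icc (-R) R ×ˢ Icc (-R) R, |shift T (vhat ρ f) z|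
        ≤ ∫ z in Icc (-(max R 0)) (max R 0) ×ˢ Icc (-(max R 0)) (max R 0),
            |shift T (vhat ρ f) z| := by
          apply setIntegral_mono_set hint
          · filter_upwards with p; exact abs_nonneg _
          · have hsub1 : Icc (-R) R ⊆ Icc (-(max R 0)) (max R 0) :=
              Icc_subset_Icc (neg_le_neg (le_max_left _ _)) (le_max_left _ _)
            have hsub : (Icc (-R) R ×ˢ Icc (-R) R : Set (ℝ × ℝ)) ⊆
                Icc (-(max R 0)) (max R 0) ×ˢ Icc (-(max R 0)) (max R 0) := prod_mono hsub1 hsub1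
            exact hsub.eventuallyLE
      _ = ∫ z in Icc (-(max R 0)) (max R 0) ×ˢ Icc (-(max R 0)) (max R 0),
            Real.exp (-(ρ * (z.1 + T))) * |LR f (z.1 + T, z.2)| := by
          congr 1
          funext z
          unfold shift
          rw [vhat_eq, abs_mul, abs_of_pos (Real.exp_pos _)]
          congr 2
          ring
      _ ≤ M := h1
  · intro X hX
    obtain ⟨φ, hφ, hgood⟩ := exists_good h hX
    exact ⟨φ, hφ, vv ρ f (fun j => X (φ j)),
      vv_InC h hb hgood ((le_max_left _ _).trans (le_max_right _ _))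
        ((le_max_right _ _).trans (le_max_right _ _)), convD_vv h hgood⟩

end Pool.Agent.LS
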