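import Pool.Agent.Helper44.LS.Lip

/-! # Weak convergence to the limit function -/

set_option autoImplicit false

open MeasureTheory Filter Topology Set Metric Real

noncomputable section

namespace Pool.Agent.LS

variable {ρ C C0 B K0 : ℝ} {f : ℂ → ℂ}

/-- `L¹` bound on squares -/
lemma l1_bound (h : Dat ρ f C C0) (R : ℝ) (hR : 0 ≤ R) : ∃ M X₀ : ℝ, 0 ≤ M ∧ ∀ T : ℝ, X₀ ≤ T →
    ∫ z in (Icc (-R) R) ×ˢ (Icc (-R) R), Real.exp (-(ρ * (z.1 + T))) * |LR f (z.1 + T, z.2)| ≤ M := by
  obtain ⟨C1, hC1, hcol⟩ := colB_le (C := C) h.rho h.c0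
  obtain ⟨N, hN⟩ := exists_nat_ge (2 * R / (2 * π))
  have hN' : 2 * R ≤ N * (2 * π) := by rwa [div_le_iff₀ (by positivity)] at hN
  refine ⟨2 * R * (N * C1), R, by positivity, fun T hT => ?_⟩
  set F : ℝ × ℝ → ℝ := fun z => Real.exp (-(ρ * z.1)) * |LR f z| with hF
  set S : Set (ℝ × ℝ) := Icc (T - R) (T + R) ×ˢ Icc (-R) (-R + N * (2 * π)) with hS
  set S1 : Set (ℝ × ℝ) := Icc (T - R) (T + R) ×ˢ Icc (-R) R with hS1
  have hmp : MeasurePreserving (fun z : ℝ × ℝ => z + (T, 0)) := measurePreserving_add_right volume (T, 0)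
  have hemb : MeasurableEmbedding (fun z : ℝ × ℝ => z + (T, 0)) := measurableEmbedding_addRight _
  have e1 := hmp.setIntegral_preimage_emb hemb F S1
  have e2 : (fun z : ℝ × ℝ => z + (T, 0)) ⁻¹' S1 = (Icc (-R) R) ×ˢ (Icc (-R) R) := by
    ext ⟨x, t⟩
    simp only [hS1, mem_preimage, mem_prod, Prod.mk_add_mk, mem_Icc, add_zero]
    constructor
    · rintro ⟨⟨h1, h2⟩, h3⟩
      exact ⟨⟨by linarith, by linarith⟩, h3⟩
    · rintro ⟨⟨h1, h2⟩, h3⟩
      exact ⟨⟨by linarith, by linarith⟩, h3⟩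
  rw [e2] at e1
  have e3 : ∫ z in (Icc (-R) R) ×ˢ (Icc (-R) R), Real.exp (-(ρ * (z.1 + T))) * |LR f (z.1 + T, z.2)|
      = ∫ z in S1, F z := by
    rw [← e1]
    apply setIntegral_congr_fun (measurableSet_Icc.prod measurableSet_Icc)
    rintro ⟨x, t⟩ _
    simp [hF]
  rw [e3]
  have hint : IntegrableOn F S := by
    have h1 := strip_integrable h.ent h.gr h.j0 (T - R) (T + R) (-R) N
    apply IntegrableOn.continuousOn_mul (K := S) (g := fun p : ℝ × ℝ => Real.exp (-(ρ * p.1)))
      (by fun_prop) h1.abs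
    exact isCompact_Icc.prod isCompact_Icc
  have hsub : S1 ⊆ S := by
    rintro ⟨x, t⟩ ⟨h1, h2⟩
    exact ⟨h1, ⟨h2.1, by simp only at *; linarith [h2.2]⟩⟩
  have e4 : ∫ z in S1, F z ≤ ∫ z in S, F z := by
    apply setIntegral_mono_set hint
    · filter_upwards with p
      simp only [hF, Pi.zero_apply]; positivity
    · exact hsub.eventuallyLE
  refine e4.trans ?_
  have e5 := strip_bound h.ent h.gr h.j0 (T - R) (T + R) (-R) N
    (w := fun x => Real.exp (-(ρ * x))) (by fun_prop) (fun x => (Real.exp_pos _).le)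
  refine e5.trans ?_
  have e6 : ∫ x in Icc (T - R) (T + R), Real.exp (-(ρ * x)) * (N * colB C C0 ρ x) ≤
      ∫ x in Icc (T - R) (T + R), N * C1 := by
    have hcont : Continuous (fun x => Real.exp (-(ρ * x)) * ((N : ℝ) * colB C C0 ρ x)) := by
      unfold colB; fun_prop
    apply setIntegral_mono_on hcont.integrableOn_Icc
      (continuous_const.integrableOn_Icc) measurableSet_Icc
    intro x hx
    have h1 := hcol x (by linarith [hx.1])
    calc Real.exp (-(ρ * x)) * (N * colB C C0 ρ x)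
        ≤ Real.exp (-(ρ * x)) * (N * (C1 * Real.exp (ρ * x))) := by gcongr
      _ = Real.exp (-(ρ * x)) * (Real.exp (ρ * x) * (N * C1)) := by ring
      _ = N * C1 := exp_neg_mul_exp _ _ _
  refine e6.trans ?_
  rw [setIntegral_const, Real.volume_real_Icc_of_le (by linarith), smul_eq_mul]
  apply le_of_eq; ring

lemma UU_cx (T : ℝ) (z : ℝ × ℝ) : UU ρ f T (cx z) = Real.exp (-(ρ * T)) * LR f (z.1 + T, z.2) := by
  unfold UU LR
  congr 2
  unfold cx
  push_cast
  ring

lemma UU_locInt (h : Dat ρ f C C0) (T : ℝ) (K : Set ℂ) (hK : IsCompact K) :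
    IntegrableOn (UU ρ f T) K := by
  have h1 : IntegrableOn (LL f) ((fun z : ℂ => z + (T : ℂ)) '' K) :=
    (LL_locInt h).integrableOn_isCompact (hK.image (by fun_prop))
  have hmp : MeasurePreserving (fun z : ℂ => z + (T : ℂ)) := measurePreserving_add_right volume _
  have hemb : MeasurableEmbedding (fun z : ℂ => z + (T : ℂ)) := measurableEmbedding_addRight _
  rw [hmp.integrableOn_image hemb] at h1
  exact h1.const_mul _

/-- `L¹` bound on discs around the origin -/
lemma l1_disc (h : Dat ρ f C C0) (R : ℝ) (hR : 0 ≤ R) : ∃ M X₀ : ℝ, 0 ≤ M ∧ ∀ T : ℝ, X₀ ≤ T →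
    ∫ z in closedBall (0 : ℂ) R, |UU ρ f T z| ≤ M := by
  obtain ⟨M, X₀, hM, hb⟩ := l1_bound h R hR
  refine ⟨Real.exp (ρ * R) * M, X₀, by positivity, fun T hT => ?_⟩
  have h1 := hb T hT
  have e1 : ∫ w in closedBall (0 : ℂ) R, |UU ρ f T w|
      = ∫ p in cx ⁻¹' (closedBall (0 : ℂ) R), |UU ρ f T (cx p)| := by
    rw [← cx_mp.setIntegral_preimage_emb cx_emb]
  rw [e1]
  have hsub : cx ⁻¹' (closedBall (0 : ℂ) R) ⊆ (Icc (-R) R) ×ˢ (Icc (-R) R) := by
    rintro ⟨x, t⟩ hxt
    rw [mem_preimage, mem_closedBall, dist_zero_right] at hxt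
    have h1 : |x| ≤ R := by
      have := (Complex.abs_re_le_norm (cx (x, t))).trans hxt
      simpa [cx] using this
    have h2 : |t| ≤ R := by
      have := (Complex.abs_im_le_norm (cx (x, t))).trans hxt
      simpa [cx] using this
    exact ⟨abs_le.1 h1, abs_le.1 h2⟩
  have hcomp : IsCompact (Icc (-R) R ×ˢ Icc (-R) R : Set (ℝ × ℝ)) :=
    isCompact_Icc.prod isCompact_Icc
  have hint : IntegrableOn (fun p : ℝ × ℝ => UU ρ f T (cx p)) (Icc (-R) R ×ˢ Icc (-R) R) := by
    have := UU_locInt h T (cx '' (Icc (-R) R ×ˢ Icc (-R) R)) (hcomp.image cx_continuous)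
    rwa [cx_mp.integrableOn_image cx_emb] at this
  have hint2 : IntegrableOn (fun z : ℝ × ℝ => Real.exp (-(ρ * (z.1 + T))) * |LR f (z.1 + T, z.2)|)
      (Icc (-R) R ×ˢ Icc (-R) R) := by
    have h3 : IntegrableOn (fun z : ℝ × ℝ => Real.exp (-(ρ * z.1)) * |UU ρ f T (cx z)|)
        (Icc (-R) R ×ˢ Icc (-R) R) :=
      IntegrableOn.continuousOn_mul (by fun_prop) hint.abs hcomp
    apply h3.congr_fun _ (measurableSet_Icc.prod measurableSet_Icc)
    intro z _
    simp only
    rw [UU_cx, abs_mul, abs_of_pos (Real.exp_pos _), ← mul_assoc, ← Real.exp_add]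
    congr 2
    ring
  calc ∫ p in cx ⁻¹' (closedBall (0 : ℂ) R), |UU ρ f T (cx p)|
      ≤ ∫ p in Icc (-R) R ×ˢ Icc (-R) R, |UU ρ f T (cx p)| := by
        apply setIntegral_mono_set hint.abs
        · filter_upwards with p; exact abs_nonneg _
        · exact hsub.eventuallyLE
    _ ≤ ∫ p in Icc (-R) R ×ˢ Icc (-R) R,
        Real.exp (ρ * R) * (Real.exp (-(ρ * (p.1 + T))) * |LR f (p.1 + T, p.2)|) := by
        apply setIntegral_mono_on hint.abs (hint2.const_mul _)
          (measurableSet_Icc.prod measurableSet_Icc)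
        rintro ⟨x, t⟩ ⟨hx, -⟩
        rw [UU_cx, abs_mul, abs_of_pos (Real.exp_pos _), ← mul_assoc, ← Real.exp_add]
        have hx2 : x ≤ R := hx.2
        have := h.rho
        gcongr
        simp only
        nlinarith
    _ ≤ _ := by
        rw [integral_const_mul]
        gcongr

lemma AA_eq_int (s T : ℝ) (z : ℂ) :
    AA ρ f s T z = (mass s)⁻¹ * ∫ w, cone s (w - z) * UU ρ f T w := by
  unfold AA coneM UU
  rw [← integral_add_right_eq_self _ (T : ℂ)]
  have : ∀ w : ℂ, cone s (w - z) * (Real.exp (-(ρ * T)) * LL f (w + (T : ℂ)))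
      = Real.exp (-(ρ * T)) * (cone s (w + (T : ℂ) - (z + (T : ℂ))) * LL f (w + (T : ℂ))) := by
    intro w
    rw [add_sub_add_right_eq_sub]; ring
  simp_rw [this]
  rw [integral_const_mul]
  ring

/-- smoothed test function -/
def psS (s : ℝ) (ψ : ℂ → ℝ) (w : ℂ) : ℝ := (mass s)⁻¹ * ∫ z, cone s (w - z) * ψ z

lemma psS_zero {s R : ℝ} {ψ : ℂ → ℝ} (hR : ∀ z, R < ‖z‖ → ψ z = 0) {w : ℂ} (hw : R + s < ‖w‖) :
    psS s ψ w = 0 := by
  unfold psS
  have : ∀ z, cone s (w - z) * ψ z = 0 := by
    intro z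
    by_cases hz : R < ‖z‖
    · rw [hR z hz, mul_zero]
    · push Not at hz
      have h1 : ‖w‖ ≤ ‖w - z‖ + ‖z‖ := by
        calc ‖w‖ = ‖(w - z) + z‖ := by congr 1; ring
          _ ≤ _ := norm_add_le _ _
      rw [cone_eq_zero (by linarith), zero_mul]
  simp [this]

lemma psS_close {s : ℝ} (hs : 0 < s) {ψ : ℂ → ℝ} (hψ : Continuous ψ) {ε : ℝ}
    (hε : ∀ z w, ‖z - w‖ ≤ s → |ψ z - ψ w| ≤ ε) (w : ℂ) : |psS s ψ w - ψ w| ≤ ε := by
  have hm := mass_pos hs
  have hi1 : Integrable (fun z => cone s (w - z) * ψ z) := by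
    have := cone_integrable (G := ψ) (z := w) (δ := s)
      (hψ.continuousOn.integrableOn_compact (isCompact_closedBall w s))
    simpa only [cone_sub_comm s w] using this
  have hi2 : Integrable (fun z => cone s (w - z) * ψ w) := by
    have := cone_integrable (G := fun _ => ψ w) (z := w) (δ := s)
      (integrableOn_const (measure_closedBall_lt_top.ne))
    simpa only [cone_sub_comm s w] using this
  have hi3 : Integrable (fun z => cone s (w - z) * ε) := by
    have := cone_integrable (G := fun _ => ε) (z := w) (δ := s)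
      (integrableOn_const (measure_closedBall_lt_top.ne))
    simpa only [cone_sub_comm s w] using this
  have hmass : ∫ z, cone s (w - z) = mass s := by
    have := integral_cone hs w
    simpa only [cone_sub_comm s w] using this
  have e1 : psS s ψ w - ψ w = (mass s)⁻¹ * ∫ z, cone s (w - z) * (ψ z - ψ w) := by
    simp_rw [mul_sub]
    rw [integral_sub hi1 hi2, integral_mul_const, hmass]
    unfold psS
    field_simp
  rw [e1, abs_mul, abs_of_pos (inv_pos.2 hm)]
  have e2 : |∫ z, cone s (w - z) * (ψ z - ψ w)| ≤ ∫ z, cone s (w - z) * ε := by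
    rw [← Real.norm_eq_abs]
    apply norm_integral_le_of_norm_le hi3
    filter_upwards with z
    rw [norm_mul, Real.norm_eq_abs, Real.norm_eq_abs, abs_of_nonneg (cone_nonneg _ _)]
    by_cases hz : ‖z - w‖ ≤ s
    · have := hε z w hz
      have := cone_nonneg s (w - z)
      gcongr
    · push Not at hz
      rw [norm_sub_rev] at hz
      rw [cone_eq_zero hz.le]; simp
  rw [integral_mul_const, hmass] at e2
  calc (mass s)⁻¹ * |∫ z, cone s (w - z) * (ψ z - ψ w)| ≤ (mass s)⁻¹ * (mass s * ε) := by gcongr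
    _ = ε := by field_simp

/-- Fubini -/
lemma AA_fubini (h : Dat ρ f C C0) {s : ℝ} (hs : 0 < s) (T : ℝ) {ψ : ℂ → ℝ}
    (hψ : Continuous ψ) {R : ℝ} (hR : ∀ z, R < ‖z‖ → ψ z = 0) :
    Integrable (fun z => AA ρ f s T z * ψ z) ∧
    ∫ z, AA ρ f s T z * ψ z = ∫ w, UU ρ f T w * psS s ψ w := by
  set Kb := closedBall (0 : ℂ) (R + s) with hKb
  have hψi : Integrable ψ := by
    apply hψ.integrable_of_hasCompactSupport
    apply HasCompactSupport.intro (isCompact_closedBall (0 : ℂ) R)
    intro z hz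
    apply hR
    rw [mem_closedBall, dist_zero_right, not_le] at hz
    exact hz
  have hUi : Integrable (Kb.indicator (UU ρ f T)) := by
    rw [integrable_indicator_iff measurableSet_closedBall]
    exact UU_locInt h T Kb (isCompact_closedBall _ _)
  have hprod : Integrable (fun p : ℂ × ℂ => ψ p.1 * Kb.indicator (UU ρ f T) p.2)
      ((volume : Measure ℂ).prod volume) := hψi.mul_prod hUi
  have hker : Continuous (fun p : ℂ × ℂ => cone s (p.2 - p.1)) := by fun_prop
  have hprod2 : Integrable (fun p : ℂ × ℂ => cone s (p.2 - p.1) *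
      (ψ p.1 * Kb.indicator (UU ρ f T) p.2)) ((volume : Measure ℂ).prod volume) := by
    apply Integrable.bdd_mul (c := s) hprod hker.aestronglyMeasurable
    filter_upwards with p
    rw [Real.norm_eq_abs, abs_of_nonneg (cone_nonneg _ _)]
    exact cone_le hs.le _
  have heq : ∀ z w : ℂ, cone s (w - z) * (ψ z * Kb.indicator (UU ρ f T) w)
      = cone s (w - z) * UU ρ f T w * ψ z := by
    intro z w
    by_cases hz : R < ‖z‖
    · rw [hR z hz]; simp
    · push Not at hz
      by_cases hw : w ∈ Kb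
      · rw [indicator_of_mem hw]; ring
      · rw [indicator_of_notMem hw]
        rw [hKb, mem_closedBall, dist_zero_right, not_le] at hw
        have h1 : ‖w‖ ≤ ‖w - z‖ + ‖z‖ := by
          calc ‖w‖ = ‖(w - z) + z‖ := by congr 1; ring
            _ ≤ _ := norm_add_le _ _
        rw [cone_eq_zero (by linarith)]; simp
  have e1 : ∀ z, AA ρ f s T z * ψ z = (mass s)⁻¹ * ∫ w, cone s (w - z) *
      (ψ z * Kb.indicator (UU ρ f T) w) := by
    intro z
    simp_rw [heq z]
    rw [integral_mul_const, AA_eq_int]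
    ring
  have e2 : ∀ w, UU ρ f T w * psS s ψ w = (mass s)⁻¹ * ∫ z, cone s (w - z) *
      (ψ z * Kb.indicator (UU ρ f T) w) := by
    intro w
    simp_rw [heq _ w]
    unfold psS
    have : ∀ z, cone s (w - z) * UU ρ f T w * ψ z = UU ρ f T w * (cone s (w - z) * ψ z) := by
      intro z; ring
    simp_rw [this]
    rw [integral_const_mul]
    ring
  constructor
  · simp_rw [e1]
    exact (hprod2.integral_prod_left).const_mul _
  · simp_rw [e1, e2]
    rw [integral_const_mul, integral_const_mul]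
    congr 1
    exact integral_integral_swap hprod2

lemma VV_continuous (h : Dat2 ρ f C C0 B K0) {X : ℕ → ℝ} (hX : GoodSeq ρ f X) :
    Continuous (VV ρ f X) := by
  obtain ⟨C1, hb⟩ := exists_ballB h.toDat
  rw [continuous_iff_continuousAt]
  intro z
  have hL : 0 ≤ LipC ρ B K0 C1 := by
    have h1 := h.CB_nonneg
    have h2 := h.KH_nonneg
    have h3 := hb.nonneg
    unfold LipC; positivity
  rw [Metric.continuousAt_iff]
  intro ε hε
  have hE := EE_pos ρ z
  refine ⟨min (1 / 400) (ε / (LipC ρ B K0 C1 * EE ρ z + 1)), by positivity, fun {z'} hz' => ?_⟩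
  rw [dist_comm, dist_eq_norm] at hz'
  have h1 : ‖z - z'‖ ≤ 1 / 400 := hz'.le.trans (min_le_left _ _)
  have h2 : ‖z - z'‖ < ε / (LipC ρ B K0 C1 * EE ρ z + 1) := lt_of_lt_of_le hz' (min_le_right _ _)
  rw [Real.dist_eq]
  have h3 := VV_lip h hb hX h1
  rw [lt_div_iff₀ (by positivity)] at h2
  have := norm_nonneg (z - z')
  nlinarith

/-- weak convergence -/
theorem weak_conv (h : Dat2 ρ f C C0 B K0) {X : ℕ → ℝ} (hX : GoodSeq ρ f X) {ψ : ℂ → ℝ}
    (hψ : Continuous ψ) (hψc : HasCompactSupport ψ) :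
    Tendsto (fun j => ∫ z, UU ρ f (X j) z * ψ z) atTop (𝓝 (∫ z, VV ρ f X z * ψ z)) := by
  obtain ⟨C1, hb⟩ := exists_ballB h.toDat
  have hCB := h.CB_nonneg
  -- radius of the support
  obtain ⟨R, hR0, hR⟩ : ∃ R : ℝ, 0 ≤ R ∧ ∀ z, R < ‖z‖ → ψ z = 0 := by
    obtain ⟨R, hR⟩ := hψc.isCompact.isBounded.subset_closedBall (0 : ℂ)
    refine ⟨max R 0, le_max_right _ _, fun z hz => ?_⟩
    apply image_eq_zero_of_notMem_tsupport
    intro hzs
    have := hR hzs
    rw [mem_closedBall, dist_zero_right] at this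
    exact absurd (lt_of_le_of_lt (le_max_left R 0) hz) (not_lt.2 this)
  obtain ⟨M, X₀, hM0, hM⟩ := l1_disc h.toDat (R + 1) (by linarith)
  set I0 := ∫ z, EE ρ z * |ψ z| with hI0
  have hEcont : Continuous (EE ρ) := by unfold EE; fun_prop
  have hEψ : Integrable (fun z => EE ρ z * |ψ z|) :=
    (hEcont.mul hψ.abs).integrable_of_hasCompactSupport hψc.abs.mul_left
  have hI0n : 0 ≤ I0 := integral_nonneg (fun z => by have := EE_pos ρ z; positivity)
  rw [Metric.tendsto_atTop]
  intro ε hε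
  -- uniform continuity
  have huc := hψc.uniformContinuous_of_continuous hψ
  rw [Metric.uniformContinuous_iff] at huc
  obtain ⟨δ, hδ, hδ2⟩ := huc (ε / (4 * (M + 1))) (by positivity)
  obtain ⟨n0, hn0⟩ := exists_nat_one_div_lt (show 0 < min δ (ε / (4 * (6000 * CB ρ B K0 * I0 + 1)))
    by positivity)
  set n := max n0 10 with hn
  set s := 1 / ((n : ℝ) + 1) with hs
  have hs0 : 0 < s := by positivity
  have hs1 : s ≤ 1 := by
    rw [hs, div_le_one (by positivity)]
    have : (0 : ℝ) ≤ n := by positivity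
    linarith
  have hsn : s ≤ 1 / ((n0 : ℝ) + 1) := by
    rw [hs]
    apply one_div_le_one_div_of_le (by positivity)
    have : (n0 : ℝ) ≤ n := by exact_mod_cast le_max_left n0 10
    linarith
  have hsδ : s < δ := lt_of_le_of_lt hsn (lt_of_lt_of_le hn0 (min_le_left _ _))
  have hsε : s < ε / (4 * (6000 * CB ρ B K0 * I0 + 1)) :=
    lt_of_le_of_lt hsn (lt_of_lt_of_le hn0 (min_le_right _ _))
  have hclose : ∀ z w : ℂ, ‖z - w‖ ≤ s → |ψ z - ψ w| ≤ ε / (4 * (M + 1)) := by
    intro z w hzw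
    rw [← dist_eq_norm] at hzw
    have := hδ2 (lt_of_le_of_lt hzw hsδ)
    rw [Real.dist_eq] at this
    exact this.le
  -- limits of the averages
  have hAA := fun z => AA_tendsto h hX n (le_max_right _ _) z
  choose m hm1 hm2 using hAA
  have hdom : ∀ᶠ j in atTop, ∀ᵐ z, ‖AA ρ f s (X j) z * ψ z‖ ≤ C1 / s ^ 2 * (EE ρ z * |ψ z|) := by
    filter_upwards [hX.tX.eventually_ge_atTop (1 + R)] with j hj
    filter_upwards with z
    rw [norm_mul, Real.norm_eq_abs, Real.norm_eq_abs]
    by_cases hz : R < ‖z‖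
    · rw [hR z hz]; simp
    · push Not at hz
      have h1 : -R ≤ z.re := by
        have := (abs_le.1 ((Complex.abs_re_le_norm z).trans hz)).1
        exact this
      have h2 := AA_bound h hb hs0 hs1 (z := z) (T := X j) (by linarith)
      calc |AA ρ f s (X j) z| * |ψ z| ≤ C1 / s ^ 2 * EE ρ z * |ψ z| := by gcongr
        _ = _ := by ring
  have hconvA : Tendsto (fun j => ∫ z, AA ρ f s (X j) z * ψ z) atTop (𝓝 (∫ z, m z * ψ z)) := by
    apply tendsto_integral_filter_of_dominated_convergence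
      (fun z => C1 / s ^ 2 * (EE ρ z * |ψ z|))
    · filter_upwards with j
      exact (AA_fubini h.toDat hs0 (X j) hψ hR).1.aestronglyMeasurable
    · exact hdom
    · exact hEψ.const_mul _
    · filter_upwards with z
      exact (hm1 z).mul_const _
  have hmi : Integrable (fun z => m z * ψ z) := by
    refine Integrable.mono' (hEψ.const_mul (6000 * CB ρ B K0 * s + (B + 600 * CB ρ B K0 + 25 * C1))) ?_ ?_
    · apply aestronglyMeasurable_of_tendsto_ae atTop
        (f := fun j z => AA ρ f s (X j) z * ψ z)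
      · intro j; exact (AA_fubini h.toDat hs0 (X j) hψ hR).1.aestronglyMeasurable
      · filter_upwards with z
        exact (hm1 z).mul_const _
    · filter_upwards with z
      rw [norm_mul, Real.norm_eq_abs, Real.norm_eq_abs]
      have h1 := hm2 z
      have h2 := VV_bound h hb hX z
      have h3 : |m z| ≤ |m z - VV ρ f X z| + |VV ρ f X z| := by
        calc |m z| = |(m z - VV ρ f X z) + VV ρ f X z| := by ring_nf
          _ ≤ _ := abs_add_le _ _
      calc |m z| * |ψ z| ≤ (6000 * CB ρ B K0 * s * EE ρ z +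
          (B + 600 * CB ρ B K0 + 25 * C1) * EE ρ z) * |ψ z| := by
            gcongr
            exact h3.trans (add_le_add h1 h2)
        _ = _ := by ring
  have hVi : Integrable (fun z => VV ρ f X z * ψ z) :=
    ((VV_continuous h hX).mul hψ).integrable_of_hasCompactSupport hψc.mul_left
  have hmV : |(∫ z, m z * ψ z) - ∫ z, VV ρ f X z * ψ z| ≤ 6000 * CB ρ B K0 * s * I0 := by
    rw [← integral_sub hmi hVi, hI0, ← integral_const_mul, ← Real.norm_eq_abs]
    apply norm_integral_le_of_norm_le (hEψ.const_mul _)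
    filter_upwards with z
    rw [← sub_mul, norm_mul, Real.norm_eq_abs, Real.norm_eq_abs]
    calc |m z - VV ρ f X z| * |ψ z| ≤ 6000 * CB ρ B K0 * s * EE ρ z * |ψ z| := by
          gcongr
          exact hm2 z
      _ = _ := by ring
  obtain ⟨j0, hj0⟩ := Metric.tendsto_atTop.1 hconvA (ε / 4) (by positivity)
  obtain ⟨j1, hj1⟩ := Filter.eventually_atTop.1 (hX.tX.eventually_ge_atTop X₀)
  refine ⟨max j0 j1, fun j hj => ?_⟩
  have h1 := hj0 j ((le_max_left _ _).trans hj)
  rw [Real.dist_eq] at h1 ⊢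
  have hT := hM (X j) (hj1 j ((le_max_right _ _).trans hj))
  -- comparison of U and A
  have hUA : |(∫ z, UU ρ f (X j) z * ψ z) - ∫ z, AA ρ f s (X j) z * ψ z| ≤ ε / (4 * (M + 1)) * M := by
    rw [(AA_fubini h.toDat hs0 (X j) hψ hR).2]
    set Kb := closedBall (0 : ℂ) (R + 1) with hKb
    have hz1 : ∀ z, z ∉ Kb → ψ z = 0 := by
      intro z hz
      rw [hKb, mem_closedBall, dist_zero_right, not_le] at hz
      exact hR z (by linarith)
    have hz2 : ∀ z, z ∉ Kb → psS s ψ z = 0 := by
      intro z hz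
      rw [hKb, mem_closedBall, dist_zero_right, not_le] at hz
      exact psS_zero hR (by linarith)
    have e1 : ∫ z, UU ρ f (X j) z * ψ z = ∫ z in Kb, UU ρ f (X j) z * ψ z := by
      symm
      apply setIntegral_eq_integral_of_forall_compl_eq_zero
      intro z hz; rw [hz1 z hz, mul_zero]
    have e2 : ∫ z, UU ρ f (X j) z * psS s ψ z = ∫ z in Kb, UU ρ f (X j) z * psS s ψ z := by
      symm
      apply setIntegral_eq_integral_of_forall_compl_eq_zero
      intro z hz; rw [hz2 z hz, mul_zero]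
    have hUi := UU_locInt h.toDat (X j) Kb (isCompact_closedBall _ _)
    have i1 : IntegrableOn (fun z => UU ρ f (X j) z * ψ z) Kb := by
      have := IntegrableOn.continuousOn_mul hψ.continuousOn hUi (isCompact_closedBall _ _)
      simpa only [mul_comm] using this
    have hpsc : Continuous (psS s ψ) := by
      unfold psS
      apply Continuous.mul continuous_const
      have : (fun w => ∫ z, cone s (w - z) * ψ z) = fun w => ∫ z, ψ z * cone s (w - z) := by
        funext w; congr 1; funext z; ring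
      rw [this]
      have hψi : Integrable ψ := hψ.integrable_of_hasCompactSupport hψc
      apply continuous_of_dominated (bound := fun z => |ψ z| * s)
      · intro w
        exact (hψ.mul (by fun_prop : Continuous fun z => cone s (w - z))).aestronglyMeasurable
      · intro w
        filter_upwards with z
        rw [norm_mul, Real.norm_eq_abs, Real.norm_eq_abs, abs_of_nonneg (cone_nonneg _ _)]
        gcongr
        exact cone_le hs0.le _
      · exact hψi.abs.mul_const _
      · filter_upwards with z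
        fun_prop
    have i2 : IntegrableOn (fun z => UU ρ f (X j) z * psS s ψ z) Kb := by
      have := IntegrableOn.continuousOn_mul hpsc.continuousOn hUi (isCompact_closedBall _ _)
      simpa only [mul_comm] using this
    rw [e1, e2, ← integral_sub i1 i2, ← Real.norm_eq_abs]
    calc ‖∫ z in Kb, (UU ρ f (X j) z * ψ z - UU ρ f (X j) z * psS s ψ z)‖
        ≤ ∫ z in Kb, ε / (4 * (M + 1)) * |UU ρ f (X j) z| := by
          apply norm_integral_le_of_norm_le (hUi.abs.const_mul _)
          filter_upwards with z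
          rw [← mul_sub, norm_mul, Real.norm_eq_abs, Real.norm_eq_abs, mul_comm, abs_sub_comm]
          gcongr
          exact psS_close hs0 hψ hclose z
      _ = ε / (4 * (M + 1)) * ∫ z in Kb, |UU ρ f (X j) z| := integral_const_mul _ _
      _ ≤ _ := by gcongr
  have hUA2 : ε / (4 * (M + 1)) * M ≤ ε / 4 := by
    rw [div_mul_eq_mul_div, div_le_div_iff₀ (by positivity) (by norm_num)]
    nlinarith
  have hs2 : 6000 * CB ρ B K0 * s * I0 ≤ ε / 4 := by
    rw [lt_div_iff₀ (by positivity)] at hsε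
    have : 0 ≤ 6000 * CB ρ B K0 * I0 := by positivity
    nlinarith
  have hfin : |(∫ z, UU ρ f (X j) z * ψ z) - ∫ z, VV ρ f X z * ψ z| ≤
      |(∫ z, UU ρ f (X j) z * ψ z) - ∫ z, AA ρ f s (X j) z * ψ z|
      + |(∫ z, AA ρ f s (X j) z * ψ z) - ∫ z, m z * ψ z|
      + |(∫ z, m z * ψ z) - ∫ z, VV ρ f X z * ψ z| := by
    have e := abs_add_three ((∫ z, UU ρ f (X j) z * ψ z) - ∫ z, AA ρ f s (X j) z * ψ z)
      ((∫ z, AA ρ f s (X j) z * ψ z) - ∫ z, m z * ψ z)
      ((∫ z, m z * ψ z) - ∫ z, VV ρ f X z * ψ z)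
    refine le_trans (le_of_eq ?_) e
    congr 1
    ring
  linarith

end Pool.Agent.LS
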