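import Pool.Agent.Helper44.LS.FBasics

/-! # Estimates for `L = log ‖f ∘ exp‖` near zeros, far to the right -/

set_option autoImplicit false

open MeasureTheory Filter Topology Set Metric Real

noncomputable section

namespace Pool.Agent.LS

/-- weight -/
def EE (ρ : ℝ) (z : ℂ) : ℝ := Real.exp (ρ * z.re)

lemma EE_pos (ρ : ℝ) (z : ℂ) : 0 < EE ρ z := Real.exp_pos _

/-- homogeneous majorant -/
def HH (ρ : ℝ) (f : ℂ → ℂ) (z : ℂ) : ℝ := EE ρ z * ind ρ f z.im

structure Dat2 (ρ : ℝ) (f : ℂ → ℂ) (C C0 B K0 : ℝ) : Prop extends Dat ρ f C C0 where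
  hb : ∀ t, |ind ρ f t| ≤ B
  hl : ∀ s t, |ind ρ f s - ind ρ f t| ≤ K0 * |s - t|

variable {ρ C C0 B K0 : ℝ} {f : ℂ → ℂ}

lemma Dat2.B_nonneg (h : Dat2 ρ f C C0 B K0) : 0 ≤ B := (abs_nonneg _).trans (h.hb 0)

lemma Dat2.K0_nonneg (h : Dat2 ρ f C C0 B K0) : 0 ≤ K0 := by
  have := h.hl 1 0
  simp at this
  exact (abs_nonneg _).trans this

lemma Dat2.cont (h : Dat2 ρ f C C0 B K0) : Continuous (ind ρ f) := by
  have : LipschitzWith (Real.toNNReal K0) (ind ρ f) := by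
    apply LipschitzWith.of_dist_le_mul
    intro x y
    rw [Real.dist_eq, Real.dist_eq, Real.coe_toNNReal _ h.K0_nonneg]
    exact h.hl x y
  exact this.continuous

lemma abs_exp_sub_one_le' (u : ℝ) : |Real.exp u - 1| ≤ |u| * Real.exp |u| := by
  have h1 : u + 1 ≤ Real.exp u := Real.add_one_le_exp u
  have h2 : Real.exp u - 1 ≤ u * Real.exp u := by
    have h3 : -u + 1 ≤ Real.exp (-u) := Real.add_one_le_exp (-u)
    have h4 : Real.exp (-u) * Real.exp u = 1 := by rw [← Real.exp_add]; simp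
    nlinarith [Real.exp_pos u]
  have h5 : 1 ≤ Real.exp |u| := Real.one_le_exp (abs_nonneg u)
  have h6 : Real.exp u ≤ Real.exp |u| := Real.exp_le_exp.2 (le_abs_self u)
  have h7 : u ≤ |u| := le_abs_self u
  have h8 : -u ≤ |u| := neg_le_abs u
  have h9 : 0 ≤ |u| := abs_nonneg u
  rw [abs_le]
  constructor
  · nlinarith
  · calc Real.exp u - 1 ≤ u * Real.exp u := h2
      _ ≤ |u| * Real.exp u := by have := Real.exp_pos u; gcongr
      _ ≤ |u| * Real.exp |u| := by gcongr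

/-- comparison of weights -/
lemma EE_le (hρ : 0 < ρ) {z w : ℂ} (h : ‖z - w‖ ≤ 2) : EE ρ z ≤ Real.exp (2 * ρ) * EE ρ w := by
  unfold EE
  rw [← Real.exp_add]
  apply Real.exp_le_exp.2
  have h1 := (abs_le.1 ((Complex.abs_re_le_norm (z - w)).trans h)).2
  rw [Complex.sub_re] at h1
  nlinarith

lemma EE_sub (hρ : 0 < ρ) {z w : ℂ} (h : ‖z - w‖ ≤ 2) :
    |EE ρ z - EE ρ w| ≤ ρ * Real.exp (2 * ρ) * EE ρ z * ‖z - w‖ := by
  have h1 := Complex.abs_re_le_norm (z - w)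
  rw [Complex.sub_re] at h1
  have e1 : EE ρ w = EE ρ z * Real.exp (ρ * (w.re - z.re)) := by
    unfold EE; rw [← Real.exp_add]; ring_nf
  have e2 : |EE ρ z - EE ρ w| = EE ρ z * |Real.exp (ρ * (w.re - z.re)) - 1| := by
    rw [e1, show EE ρ z - EE ρ z * Real.exp (ρ * (w.re - z.re))
      = -(EE ρ z * (Real.exp (ρ * (w.re - z.re)) - 1)) by ring, abs_neg, abs_mul,
      abs_of_pos (EE_pos ρ z)]
  rw [e2]
  have h2 := abs_exp_sub_one_le' (ρ * (w.re - z.re))
  have h3 : |ρ * (w.re - z.re)| ≤ ρ * ‖z - w‖ := by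
    rw [abs_mul, abs_of_pos hρ, abs_sub_comm]; gcongr
  have h4 : Real.exp |ρ * (w.re - z.re)| ≤ Real.exp (2 * ρ) := by
    apply Real.exp_le_exp.2
    calc |ρ * (w.re - z.re)| ≤ ρ * ‖z - w‖ := h3
      _ ≤ ρ * 2 := by gcongr
      _ = 2 * ρ := by ring
  calc EE ρ z * |Real.exp (ρ * (w.re - z.re)) - 1|
      ≤ EE ρ z * (|ρ * (w.re - z.re)| * Real.exp |ρ * (w.re - z.re)|) := by
        have := EE_pos ρ z; gcongr
    _ ≤ EE ρ z * ((ρ * ‖z - w‖) * Real.exp (2 * ρ)) := by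
        have := EE_pos ρ z; gcongr
    _ = _ := by ring

/-- Lipschitz constant of `HH` -/
def KH (ρ B K0 : ℝ) : ℝ := ρ * Real.exp (2 * ρ) * B + K0

lemma Dat2.KH_nonneg (h : Dat2 ρ f C C0 B K0) : 0 ≤ KH ρ B K0 := by
  have h1 := h.B_nonneg
  have h2 := h.K0_nonneg
  have h3 := h.rho
  unfold KH; positivity

lemma HH_lip (h : Dat2 ρ f C C0 B K0) {z w : ℂ} (hzw : ‖z - w‖ ≤ 2) :
    |HH ρ f z - HH ρ f w| ≤ KH ρ B K0 * EE ρ z * ‖z - w‖ := by
  have e1 : HH ρ f z - HH ρ f w = (EE ρ z - EE ρ w) * ind ρ f w.im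
      + EE ρ z * (ind ρ f z.im - ind ρ f w.im) := by unfold HH; ring
  rw [e1]
  have h1 := EE_sub h.rho hzw
  have h2 := h.hb w.im
  have h3 := h.hl z.im w.im
  have h4 := Complex.abs_im_le_norm (z - w)
  rw [Complex.sub_im] at h4
  have hE := EE_pos ρ z
  have hK := h.K0_nonneg
  have hB := h.B_nonneg
  calc |(EE ρ z - EE ρ w) * ind ρ f w.im + EE ρ z * (ind ρ f z.im - ind ρ f w.im)|
      ≤ |EE ρ z - EE ρ w| * |ind ρ f w.im| + EE ρ z * |ind ρ f z.im - ind ρ f w.im| := by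
        refine (abs_add_le _ _).trans ?_
        rw [abs_mul, abs_mul, abs_of_pos hE]
    _ ≤ (ρ * Real.exp (2 * ρ) * EE ρ z * ‖z - w‖) * B + EE ρ z * (K0 * ‖z - w‖) := by
        have : |ind ρ f z.im - ind ρ f w.im| ≤ K0 * ‖z - w‖ := h3.trans (by gcongr)
        have hr := h.rho
        have : 0 ≤ ρ * Real.exp (2 * ρ) * EE ρ z * ‖z - w‖ := by positivity
        gcongr
    _ = _ := by unfold KH; ring

lemma HH_abs (h : Dat2 ρ f C C0 B K0) (z : ℂ) : |HH ρ f z| ≤ B * EE ρ z := by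
  unfold HH
  rw [abs_mul, abs_of_pos (EE_pos ρ z)]
  have := h.hb z.im
  have := EE_pos ρ z
  nlinarith

/-- upper bound -/
lemma upper (h : Dat2 ρ f C C0 B K0) {η : ℝ} (hη : 0 < η) :
    ∃ R : ℝ, ∀ z : ℂ, R ≤ z.re → GG f z ≠ 0 → LL f z ≤ HH ρ f z + η * EE ρ z := by
  obtain ⟨T₀, hT⟩ := uniform_upper h.rho h.ent h.gr h.cont hη
  refine ⟨T₀, fun z hz h0 => ?_⟩
  have h1 := hT z hz
  unfold LL
  have h0' : 0 < ‖f (Complex.exp z)‖ := norm_pos_iff.2 h0
  rw [Real.log_le_iff_le_exp h0']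
  refine h1.trans (le_of_eq ?_)
  congr 1
  unfold HH EE
  ring

/-- local integrability on balls -/
lemma LL_int (h : Dat2 ρ f C C0 B K0) (z : ℂ) (r : ℝ) : IntegrableOn (LL f) (closedBall z r) :=
  (LL_locInt h.toDat).integrableOn_isCompact (isCompact_closedBall z r)

/-- derivative of GG -/
lemma deriv_GG (hf : Differentiable ℂ f) (z : ℂ) :
    deriv (GG f) z = deriv f (Complex.exp z) * Complex.exp z := by
  have := (hf (Complex.exp z)).hasDerivAt.comp z (Complex.hasDerivAt_exp z)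
  exact this.deriv

lemma ind_congr {s t : ℝ} (hst : Complex.exp ((s : ℂ) * Complex.I) = Complex.exp ((t : ℂ) * Complex.I)) :
    ind ρ f s = ind ρ f t := by
  unfold ind indSet
  rw [hst]

/-- lower bound of the derivative at the zeros -/
lemma zero_lower (h : Dat2 ρ f C C0 B K0) {η : ℝ} (hη : 0 < η) :
    ∃ R : ℝ, ∀ z : ℂ, R ≤ z.re → GG f z = 0 →
      HH ρ f z - η * EE ρ z ≤ Real.log ‖deriv (GG f) z‖ := by
  obtain ⟨R, hR⟩ := h.cond2 η hη
  refine ⟨max 0 (Real.log (max R 1)), fun z hz h0 => ?_⟩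
  have hz0 : 0 ≤ z.re := (le_max_left _ _).trans hz
  have hzR : R ≤ ‖Complex.exp z‖ := by
    rw [Complex.norm_exp]
    have h1 := (le_max_right 0 (Real.log (max R 1))).trans hz
    rw [Real.log_le_iff_le_exp (lt_of_lt_of_le one_pos (le_max_right _ _))] at h1
    exact (le_max_left _ _).trans h1
  have h2 := hR (Complex.exp z) h0 hzR
  have h3 : ‖Complex.exp z‖ ^ ρ = EE ρ z := by
    rw [Complex.norm_exp, exp_mul_rpow]; rfl
  have h4 : sInf {a : ℝ | ∀ᶠ r : ℝ in Filter.atTop,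
            ‖f ((r : ℂ) * Complex.exp ((Complex.arg (Complex.exp z) : ℂ) * Complex.I))‖
              ≤ Real.exp (a * r ^ ρ)} = ind ρ f z.im := by
    have h5 : Complex.exp ((Complex.arg (Complex.exp z) : ℂ) * Complex.I)
        = Complex.exp ((z.im : ℂ) * Complex.I) := by
      have h6 := Complex.norm_mul_exp_arg_mul_I (Complex.exp z)
      rw [Complex.norm_exp] at h6
      conv_rhs at h6 => rw [cexp_eq z]
      have h7 : (Real.exp z.re : ℂ) ≠ 0 := by
        exact_mod_cast (Real.exp_pos z.re).ne'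
      exact mul_left_cancel₀ h7 h6
    exact ind_congr (f := f) (ρ := ρ) h5
  rw [h3, h4] at h2
  have hE := EE_pos ρ z
  have h5 : (ind ρ f z.im - η) * EE ρ z ≤ Real.log ‖deriv f (Complex.exp z)‖ := by
    have h6 : ind ρ f z.im - η ≤ (EE ρ z)⁻¹ * Real.log ‖deriv f (Complex.exp z)‖ := by linarith
    rw [inv_mul_eq_div, le_div_iff₀ hE] at h6
    exact h6
  have h6 : Real.log ‖deriv (GG f) z‖ = Real.log ‖deriv f (Complex.exp z)‖ + z.re := by
    rw [deriv_GG h.ent, norm_mul, Real.log_mul, Complex.norm_exp, Real.log_exp]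
    · exact (norm_pos_iff.2 (h.simple _ h0)).ne'
    · exact (norm_pos_iff.2 (Complex.exp_ne_zero z)).ne'
  rw [h6]
  unfold HH
  nlinarith

/-- cone averages: equality off zeros -/
lemma cone_eq_off (h : Dat2 ρ f C C0 B K0) {z : ℂ} {s : ℝ} (hs : 0 < s)
    (h0 : ∀ w ∈ ball z s, GG f w ≠ 0) : coneM s (LL f) z = mass s * LL f z := by
  apply coneM_eq_of_circleAverage (LL_measurable h.ent) hs (LL_int h z s)
  intro r hr
  have := circleAverage_eq_of_ne_zero (GG_diff h.ent) hr.1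
    (c := z) (fun w hw => h0 w (closedBall_subset_ball hr.2 hw))
  exact this

/-- cone averages at zeros -/
lemma cone_zero (h : Dat2 ρ f C C0 B K0) {δ : ℝ} (hδ : 0 < δ) {η : ℝ} (hη : 0 < η) :
    ∃ R : ℝ, ∀ z : ℂ, R ≤ z.re → GG f z = 0 →
      mass δ * (HH ρ f z - η * EE ρ z) ≤ coneM δ (LL f) z := by
  obtain ⟨R1, hR1⟩ := zero_lower h (half_pos hη)
  have hm := mass_pos hδ
  -- exp (ρ x) eventually large
  have ht : Tendsto (fun x : ℝ => mass δ * (η / 2) * Real.exp (ρ * x)) atTop atTop := by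
    apply Tendsto.const_mul_atTop (by positivity)
    exact Real.tendsto_exp_atTop.comp (tendsto_id.const_mul_atTop h.rho)
  obtain ⟨R2, hR2⟩ := Filter.eventually_atTop.1 (ht.eventually_ge_atTop (-logmass δ))
  refine ⟨max R1 R2, fun z hz h0 => ?_⟩
  have h1 := hR1 z ((le_max_left _ _).trans hz) h0
  have h2 := hR2 z.re ((le_max_right _ _).trans hz)
  have hd : deriv (GG f) z ≠ 0 := by
    rw [deriv_GG h.ent]
    exact mul_ne_zero (h.simple _ h0) (Complex.exp_ne_zero _)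
  have h3 : mass δ * Real.log ‖deriv (GG f) z‖ + logmass δ ≤ coneM δ (LL f) z := by
    apply coneM_ge_of_circleAverage_log (LL_measurable h.ent) hδ (LL_int h z δ)
    intro r hr
    exact circleAverage_ge_of_simple_zero (GG_diff h.ent) hr.1 h0 hd
  have h4 : mass δ * (η / 2) * EE ρ z ≥ -logmass δ := h2
  nlinarith

end Pool.Agent.LS
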