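import Pool.Agent.Helper44.LS.Est

/-! # Estimates for `L = log ‖f ∘ exp‖` near zeros, part 2 -/

set_option autoImplicit false

open MeasureTheory Filter Topology Set Metric Real

noncomputable section

namespace Pool.Agent.LS

variable {ρ C C0 B K0 : ℝ} {f : ℂ → ℂ}

lemma volume_real_closedBall (z : ℂ) {s : ℝ} (hs : 0 ≤ s) :
    (volume : Measure ℂ).real (closedBall z s) = π * s ^ 2 := by
  rw [Measure.real, Complex.volume_closedBall, ENNReal.toReal_mul, ENNReal.toReal_pow,
    ENNReal.toReal_ofReal hs]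
  simp
  ring

/-- `∫ K_δ(w-λ) (M - L) = mass * M - coneM` -/
lemma cone_const_sub (h : Dat2 ρ f C C0 B K0) {δ : ℝ} (hδ : 0 < δ) (z : ℂ) (M : ℝ) :
    Integrable (fun w => cone δ (w - z) * (M - LL f w)) ∧
    ∫ w, cone δ (w - z) * (M - LL f w) = mass δ * M - coneM δ (LL f) z := by
  have i1 : Integrable (fun w => cone δ (w - z) * M) :=
    cone_integrable (G := fun _ => M) (integrableOn_const (measure_closedBall_lt_top.ne))
  have i2 : Integrable (fun w => cone δ (w - z) * LL f w) := cone_integrable (LL_int h z δ)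
  simp_rw [mul_sub]
  refine ⟨i1.sub i2, ?_⟩
  rw [integral_sub i1 i2, integral_mul_const, integral_cone hδ]
  rfl

/-- constant of `near_zero` -/
def CB (ρ B K0 : ℝ) : ℝ := π * (2 * KH ρ B K0 + 2) * Real.exp (2 * ρ)

lemma Dat2.CB_nonneg (h : Dat2 ρ f C C0 B K0) : 0 ≤ CB ρ B K0 := by
  have := h.KH_nonneg
  unfold CB; positivity

lemma near_zero (h : Dat2 ρ f C C0 B K0) {δ : ℝ} (hδ : 0 < δ) (hδ1 : δ ≤ 1) {η : ℝ} (hη : 0 < η) :
    ∃ R : ℝ, ∀ z : ℂ, R ≤ z.re → ∀ l : ℂ, GG f l = 0 → ∀ s : ℝ, 0 < s → ‖z - l‖ + s ≤ δ / 2 →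
      ∫ w in closedBall z s, |LL f w - HH ρ f z| ≤ CB ρ B K0 * δ ^ 2 * (δ + η) * EE ρ z := by
  have hρ := h.rho
  have hKH := h.KH_nonneg
  obtain ⟨R1, hR1⟩ := upper h (η := η / Real.exp (2 * ρ)) (by positivity)
  obtain ⟨R2, hR2⟩ := cone_zero h hδ hη
  refine ⟨max R1 R2 + 2, fun z hz l hl s hs hsl => ?_⟩
  have hEl := EE_pos ρ l
  have hEz := EE_pos ρ z
  have hzl : ‖z - l‖ ≤ δ / 2 := by linarith
  have hlre : z.re - 1 ≤ l.re := by
    have := (abs_le.1 ((Complex.abs_re_le_norm (z - l)).trans hzl)).2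
    rw [Complex.sub_re] at this
    linarith
  have hR1' : R1 ≤ z.re - 2 := by linarith [le_max_left R1 R2]
  have hR2' : R2 ≤ z.re - 2 := by linarith [le_max_right R1 R2]
  set M := HH ρ f l + (KH ρ B K0 * δ + η) * EE ρ l with hM
  -- upper bound on the ball around l
  have hup : ∀ w, ‖w - l‖ ≤ δ → GG f w ≠ 0 → LL f w ≤ M := by
    intro w hw h0
    have hwre : l.re - 1 ≤ w.re := by
      have := (abs_le.1 ((Complex.abs_re_le_norm (w - l)).trans hw)).1
      rw [Complex.sub_re] at this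
      linarith
    have h1 := hR1 w (by linarith) h0
    have h2 := HH_lip h (z := l) (w := w) (by rw [norm_sub_rev]; linarith)
    have h3 := EE_le hρ (z := w) (w := l) (by linarith)
    have h4 : HH ρ f w ≤ HH ρ f l + KH ρ B K0 * δ * EE ρ l := by
      have h5 := (abs_le.1 h2).1
      have h6 : KH ρ B K0 * EE ρ l * ‖l - w‖ ≤ KH ρ B K0 * δ * EE ρ l := by
        rw [norm_sub_rev]
        calc KH ρ B K0 * EE ρ l * ‖w - l‖ ≤ KH ρ B K0 * EE ρ l * δ := by gcongr
          _ = _ := by ring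
      linarith
    have h7 : η / Real.exp (2 * ρ) * EE ρ w ≤ η * EE ρ l := by
      calc η / Real.exp (2 * ρ) * EE ρ w ≤ η / Real.exp (2 * ρ) * (Real.exp (2 * ρ) * EE ρ l) := by
            gcongr
        _ = η * EE ρ l := by field_simp
    rw [hM]; nlinarith
  have hae := GG_ae_ne h.ent h.ne
  -- the weighted integral
  obtain ⟨hint, hval⟩ := cone_const_sub h hδ l M
  have hcz := hR2 l (by linarith) hl
  have hw1 : ∫ w, cone δ (w - l) * (M - LL f w) ≤ mass δ * ((KH ρ B K0 * δ + 2 * η) * EE ρ l) := by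
    rw [hval, hM]
    have := mass_pos hδ
    nlinarith
  -- restriction to the small ball
  have hint2 : IntegrableOn (fun w => M - LL f w) (closedBall z s) :=
    (integrableOn_const (measure_closedBall_lt_top.ne)).sub (LL_int h z s)
  have hw2 : δ / 2 * ∫ w in closedBall z s, (M - LL f w) ≤
      ∫ w, cone δ (w - l) * (M - LL f w) := by
    rw [← integral_const_mul]
    calc ∫ w in closedBall z s, δ / 2 * (M - LL f w)
        ≤ ∫ w in closedBall z s, cone δ (w - l) * (M - LL f w) := by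
          apply integral_mono_ae (hint2.const_mul _) hint.integrableOn
          filter_upwards [ae_restrict_mem measurableSet_closedBall, ae_restrict_of_ae hae] with w hw hw0
          rw [mem_closedBall, dist_eq_norm] at hw
          have h1 : ‖w - l‖ ≤ s + ‖z - l‖ := by
            calc ‖w - l‖ = ‖(w - z) + (z - l)‖ := by congr 1; ring
              _ ≤ ‖w - z‖ + ‖z - l‖ := norm_add_le _ _
              _ ≤ _ := by gcongr
          have h2 : δ / 2 ≤ cone δ (w - l) := by
            refine le_trans ?_ (le_cone δ (w - l)); linarith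
          have h3 : 0 ≤ M - LL f w := by
            have := hup w (by linarith) hw0; linarith
          gcongr
      _ ≤ ∫ w, cone δ (w - l) * (M - LL f w) := by
          apply setIntegral_le_integral hint
          filter_upwards [hae] with w hw0
          by_cases hwδ : ‖w - l‖ ≤ δ
          · have := hup w hwδ hw0
            exact mul_nonneg (cone_nonneg _ _) (by linarith)
          · push Not at hwδ
            rw [cone_eq_zero hwδ.le, zero_mul]
            simp
  have hw3 : ∫ w in closedBall z s, (M - LL f w) ≤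
      2 / 3 * π * δ ^ 2 * ((KH ρ B K0 * δ + 2 * η) * EE ρ l) := by
    have h1 : δ / 2 * ∫ w in closedBall z s, (M - LL f w) ≤
        mass δ * ((KH ρ B K0 * δ + 2 * η) * EE ρ l) := hw2.trans hw1
    have h2 : mass δ * ((KH ρ B K0 * δ + 2 * η) * EE ρ l)
        = δ / 2 * (2 / 3 * π * δ ^ 2 * ((KH ρ B K0 * δ + 2 * η) * EE ρ l)) := by
      unfold mass; ring
    rw [h2] at h1
    exact le_of_mul_le_mul_left h1 (by positivity)
  -- distance from M to H(z)
  have hMz : |M - HH ρ f z| ≤ (2 * KH ρ B K0 * δ + η) * EE ρ l := by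
    have h2 := HH_lip h (z := l) (w := z) (by rw [norm_sub_rev]; linarith)
    rw [norm_sub_rev] at h2
    have h3 : KH ρ B K0 * EE ρ l * ‖z - l‖ ≤ KH ρ B K0 * EE ρ l * δ := by
      have : ‖z - l‖ ≤ δ := by linarith
      gcongr
    rw [hM]
    rw [abs_le] at h2 ⊢
    have h4 : 0 ≤ KH ρ B K0 * δ * EE ρ l := by positivity
    have h5 : 0 ≤ η * EE ρ l := by positivity
    constructor <;> nlinarith
  have hfin : ∫ w in closedBall z s, |LL f w - HH ρ f z| ≤
      ∫ w in closedBall z s, ((M - LL f w) + |M - HH ρ f z|) := by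
    apply integral_mono_ae
    · exact ((LL_int h z s).sub (integrableOn_const (measure_closedBall_lt_top.ne))).abs
    · exact hint2.add (integrableOn_const (measure_closedBall_lt_top.ne))
    filter_upwards [ae_restrict_mem measurableSet_closedBall, ae_restrict_of_ae hae] with w hw hw0
    rw [mem_closedBall, dist_eq_norm] at hw
    have h1 : ‖w - l‖ ≤ s + ‖z - l‖ := by
      calc ‖w - l‖ = ‖(w - z) + (z - l)‖ := by congr 1; ring
        _ ≤ ‖w - z‖ + ‖z - l‖ := norm_add_le _ _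
        _ ≤ _ := by gcongr
    have h3 : 0 ≤ M - LL f w := by
      have := hup w (by linarith) hw0; linarith
    calc |LL f w - HH ρ f z| = |(M - HH ρ f z) - (M - LL f w)| := by ring_nf
      _ ≤ |M - HH ρ f z| + |M - LL f w| := abs_sub _ _
      _ = (M - LL f w) + |M - HH ρ f z| := by rw [abs_of_nonneg h3]; ring
  rw [integral_add hint2 (integrableOn_const (measure_closedBall_lt_top.ne)), setIntegral_const,
    volume_real_closedBall z hs.le, smul_eq_mul] at hfin
  have hsd : s ≤ δ / 2 := by linarith [norm_nonneg (z - l)]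
  have hs2 : π * s ^ 2 * |M - HH ρ f z| ≤ π * (δ / 2) ^ 2 * ((2 * KH ρ B K0 * δ + η) * EE ρ l) := by
    gcongr
  have hEle : EE ρ l ≤ Real.exp (2 * ρ) * EE ρ z := EE_le hρ (by rw [norm_sub_rev]; linarith)
  have htot : ∫ w in closedBall z s, |LL f w - HH ρ f z| ≤
      π * (2 * KH ρ B K0 + 2) * δ ^ 2 * (δ + η) * EE ρ l := by
    refine (hfin.trans (add_le_add hw3 hs2)).trans ?_
    have h5 : 0 ≤ π * δ ^ 2 * EE ρ l := by positivity
    have h6 : 2 / 3 * (KH ρ B K0 * δ + 2 * η) + 1 / 4 * (2 * KH ρ B K0 * δ + η)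
        ≤ (2 * KH ρ B K0 + 2) * (δ + η) := by
      have h7 : 0 ≤ KH ρ B K0 * δ := by positivity
      have h8 : 0 ≤ KH ρ B K0 * η := by positivity
      nlinarith
    calc 2 / 3 * π * δ ^ 2 * ((KH ρ B K0 * δ + 2 * η) * EE ρ l)
        + π * (δ / 2) ^ 2 * ((2 * KH ρ B K0 * δ + η) * EE ρ l)
        = π * δ ^ 2 * EE ρ l * (2 / 3 * (KH ρ B K0 * δ + 2 * η)
            + 1 / 4 * (2 * KH ρ B K0 * δ + η)) := by ring
      _ ≤ π * δ ^ 2 * EE ρ l * ((2 * KH ρ B K0 + 2) * (δ + η)) := by gcongr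
      _ = _ := by ring
  refine htot.trans ?_
  unfold CB
  calc π * (2 * KH ρ B K0 + 2) * δ ^ 2 * (δ + η) * EE ρ l
      ≤ π * (2 * KH ρ B K0 + 2) * δ ^ 2 * (δ + η) * (Real.exp (2 * ρ) * EE ρ z) := by gcongr
    _ = _ := by ring

/-- general bound `|coneM s L z - mass s * c| ≤ s ∫ |L - c|` -/
lemma cone_sub_const_le (h : Dat2 ρ f C C0 B K0) {s : ℝ} (hs : 0 < s) (z : ℂ) (c : ℝ) :
    |coneM s (LL f) z - mass s * c| ≤ s * ∫ w in closedBall z s, |LL f w - c| := by
  obtain ⟨h1, h2⟩ := cone_const_sub h hs z c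
  rw [abs_sub_comm, ← h2, ← integral_const_mul, ← Real.norm_eq_abs]
  have e1 : ∫ w, cone s (w - z) * (c - LL f w)
      = ∫ w in closedBall z s, cone s (w - z) * (c - LL f w) := by
    symm
    apply setIntegral_eq_integral_of_forall_compl_eq_zero
    intro w hw
    rw [mem_closedBall, dist_eq_norm, not_le] at hw
    rw [cone_eq_zero hw.le, zero_mul]
  rw [e1]
  apply norm_integral_le_of_norm_le
  · exact (((LL_int h z s).sub (integrableOn_const (measure_closedBall_lt_top.ne))).abs).const_mul s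
  · filter_upwards with w
    rw [norm_mul, Real.norm_eq_abs, Real.norm_eq_abs, abs_of_nonneg (cone_nonneg _ _), abs_sub_comm c]
    gcongr
    exact cone_le hs.le _

/-- general difference bound -/
lemma cone_diff (h : Dat2 ρ f C C0 B K0) {s : ℝ} (hs : 0 < s) {z z' : ℂ} (hzz : ‖z - z'‖ ≤ s)
    (c : ℝ) :
    |coneM s (LL f) z' - coneM s (LL f) z| ≤
      ‖z - z'‖ * ∫ w in closedBall z (2 * s), |LL f w - c| := by
  obtain ⟨h1, h2⟩ := cone_const_sub h hs z c
  obtain ⟨h1', h2'⟩ := cone_const_sub h hs z' c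
  have e0 : coneM s (LL f) z' - coneM s (LL f) z
      = ∫ w, (cone s (w - z) - cone s (w - z')) * (c - LL f w) := by
    simp_rw [sub_mul]
    rw [integral_sub h1 h1', h2, h2']
    ring
  rw [e0, ← integral_const_mul, ← Real.norm_eq_abs]
  have e1 : ∫ w, (cone s (w - z) - cone s (w - z')) * (c - LL f w)
      = ∫ w in closedBall z (2 * s), (cone s (w - z) - cone s (w - z')) * (c - LL f w) := by
    symm
    apply setIntegral_eq_integral_of_forall_compl_eq_zero
    intro w hw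
    rw [mem_closedBall, dist_eq_norm, not_le] at hw
    have h3 : ‖w - z‖ ≤ ‖w - z'‖ + ‖z - z'‖ := by
      calc ‖w - z‖ = ‖(w - z') - (z - z')‖ := by congr 1; ring
        _ ≤ _ := norm_sub_le _ _
    rw [cone_eq_zero (by linarith), cone_eq_zero (by linarith)]
    simp
  rw [e1]
  apply norm_integral_le_of_norm_le
  · exact (((LL_int h z _).sub (integrableOn_const (measure_closedBall_lt_top.ne))).abs).const_mul _
  · filter_upwards with w
    rw [norm_mul, Real.norm_eq_abs, Real.norm_eq_abs, abs_sub_comm c]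
    gcongr
    refine (cone_lip s _ _).trans (le_of_eq ?_)
    rw [norm_sub_rev z z']
    congr 1
    ring

/-- averages near zeros -/
lemma avg_near (h : Dat2 ρ f C C0 B K0) {s : ℝ} (hs : 0 < s) (hs1 : s ≤ 1 / 10) {η : ℝ}
    (hη : 0 < η) :
    ∃ R : ℝ, ∀ z : ℂ, R ≤ z.re → ∀ l : ℂ, GG f l = 0 → ‖z - l‖ ≤ 4 * s →
      |coneM s (LL f) z / mass s - HH ρ f z| ≤ 3000 * CB ρ B K0 * (s + η) * EE ρ z := by
  obtain ⟨R, hR⟩ := near_zero h (δ := 10 * s) (by positivity) (by linarith) hη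
  refine ⟨R, fun z hz l hl hzl => ?_⟩
  have h1 := hR z hz l hl s hs (by linarith)
  have h2 := cone_sub_const_le h hs z (HH ρ f z)
  have hm := mass_pos hs
  have hCB := h.CB_nonneg
  have hE := EE_pos ρ z
  have e1 : |coneM s (LL f) z / mass s - HH ρ f z|
      = |coneM s (LL f) z - mass s * HH ρ f z| / mass s := by
    rw [← abs_of_pos hm, ← abs_div, abs_of_pos hm]
    congr 1
    field_simp
  rw [e1, div_le_iff₀ hm]
  refine h2.trans ?_
  calc s * ∫ w in closedBall z s, |LL f w - HH ρ f z|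
      ≤ s * (CB ρ B K0 * (10 * s) ^ 2 * (10 * s + η) * EE ρ z) := by gcongr
    _ ≤ s * (CB ρ B K0 * (10 * s) ^ 2 * (10 * (s + η)) * EE ρ z) := by gcongr; linarith
    _ = 1000 * CB ρ B K0 * (s + η) * EE ρ z * s ^ 3 * 1 := by ring
    _ ≤ 1000 * CB ρ B K0 * (s + η) * EE ρ z * s ^ 3 * π := by
        gcongr; linarith [pi_gt_three]
    _ = 3000 * CB ρ B K0 * (s + η) * EE ρ z * mass s := by unfold mass; ring

/-- differences near zeros -/
lemma grad_near (h : Dat2 ρ f C C0 B K0) {s : ℝ} (hs : 0 < s) (hs1 : s ≤ 1 / 20) {η : ℝ}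
    (hη : 0 < η) :
    ∃ R : ℝ, ∀ z : ℂ, R ≤ z.re → ∀ l : ℂ, GG f l = 0 → ‖z - l‖ ≤ 8 * s → ∀ z' : ℂ, ‖z - z'‖ ≤ s →
      |coneM s (LL f) z' / mass s - coneM s (LL f) z / mass s| ≤
        24000 * CB ρ B K0 * (1 + η / s) * EE ρ z * ‖z - z'‖ := by
  obtain ⟨R, hR⟩ := near_zero h (δ := 20 * s) (by positivity) (by linarith) hη
  refine ⟨R, fun z hz l hl hzl z' hz' => ?_⟩
  have h1 := hR z hz l hl (2 * s) (by positivity) (by linarith)
  have h2 := cone_diff h hs hz' (HH ρ f z)
  have hm := mass_pos hs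
  have hCB := h.CB_nonneg
  have hE := EE_pos ρ z
  rw [← sub_div, abs_div, abs_of_pos hm, div_le_iff₀ hm]
  refine h2.trans ?_
  calc ‖z - z'‖ * ∫ w in closedBall z (2 * s), |LL f w - HH ρ f z|
      ≤ ‖z - z'‖ * (CB ρ B K0 * (20 * s) ^ 2 * (20 * s + η) * EE ρ z) := by gcongr
    _ ≤ ‖z - z'‖ * (CB ρ B K0 * (20 * s) ^ 2 * (20 * (s + η)) * EE ρ z) := by gcongr; linarith
    _ = 8000 * CB ρ B K0 * (1 + η / s) * EE ρ z * s ^ 3 * 1 * ‖z - z'‖ := by field_simp; ring
    _ ≤ 8000 * CB ρ B K0 * (1 + η / s) * EE ρ z * s ^ 3 * π * ‖z - z'‖ := by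
        gcongr; linarith [pi_gt_three]
    _ = 24000 * CB ρ B K0 * (1 + η / s) * EE ρ z * ‖z - z'‖ * mass s := by unfold mass; ring

end Pool.Agent.LS
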