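import Pool.Agent.Helper44.LS.Conv

/-! # Extraction of good subsequences -/

set_option autoImplicit false

open MeasureTheory Filter Topology Set Metric Real

noncomputable section

namespace Pool.Agent.LS

variable {ρ C C0 B K0 : ℝ} {f : ℂ → ℂ}

/-- rational point -/
def rp (p q : ℚ) : ℂ := (p : ℂ) + (q : ℂ) * Complex.I

lemma rp_dense (z : ℂ) {r : ℝ} (hr : 0 < r) : ∃ p q : ℚ, ‖z - rp p q‖ < r := by
  obtain ⟨p, hp1, hp2⟩ := exists_rat_btwn (show z.re - r / 2 < z.re by linarith)
  obtain ⟨q, hq1, hq2⟩ := exists_rat_btwn (show z.im - r / 2 < z.im by linarith)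
  refine ⟨p, q, ?_⟩
  have h1 := Complex.norm_le_abs_re_add_abs_im (z - rp p q)
  have h2 : (z - rp p q).re = z.re - p := by simp [rp]
  have h3 : (z - rp p q).im = z.im - q := by simp [rp]
  rw [h2, h3, abs_of_pos (by linarith), abs_of_pos (by linarith)] at h1
  linarith

/-- a convergent sequence of 0/1 values is eventually constant -/
lemma zero_one_eventually {b : ℕ → Prop} [∀ j, Decidable (b j)] {c : ℝ}
    (h : Tendsto (fun j => if b j then (1 : ℝ) else 0) atTop (𝓝 c)) :
    (∀ᶠ j in atTop, b j) ∨ (∀ᶠ j in atTop, ¬ b j) := by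
  obtain ⟨N, hN⟩ := Metric.tendsto_atTop.1 h (1 / 2) (by norm_num)
  by_cases hb : b N
  · left
    filter_upwards [eventually_ge_atTop N] with j hj
    by_contra hcon
    have h1 := hN j hj
    have h2 := hN N (le_refl _)
    simp only [hb, hcon, if_true, if_false, Real.dist_eq] at h1 h2
    rw [abs_lt] at h1 h2
    linarith
  · right
    filter_upwards [eventually_ge_atTop N] with j hj hcon
    have h1 := hN j hj
    have h2 := hN N (le_refl _)
    simp only [hb, hcon, if_true, if_false, Real.dist_eq] at h1 h2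
    rw [abs_lt] at h1 h2
    linarith

/-- scale -/
def sc (n : ℕ) : ℝ := 1 / ((n : ℝ) + 1)

lemma sc_pos (n : ℕ) : 0 < sc n := by unfold sc; positivity

lemma sc_le {n : ℕ} (hn : 1 ≤ n) : sc n ≤ 1 / 2 := by
  unfold sc
  apply one_div_le_one_div_of_le (by norm_num)
  have : (1 : ℝ) ≤ n := by exact_mod_cast hn
  linarith

open Classical in
theorem exists_good (h : Dat2 ρ f C C0 B K0) {X : ℕ → ℝ} (hX : Tendsto X atTop atTop) :
    ∃ φ : ℕ → ℕ, StrictMono φ ∧ GoodSeq ρ f (fun j => X (φ j)) := by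
  obtain ⟨C1, hb⟩ := exists_ballB h.toDat
  have hC1 := hb.nonneg
  -- the data
  set I := ℕ × ℚ × ℚ with hI
  let Mi : I → ℝ := fun i => C1 / (sc (i.1 + 1)) ^ 2 * EE ρ (rp i.2.1 i.2.2)
  let a : ℕ → I → ℝ := fun j i => AA ρ f (sc (i.1 + 1)) (X j) (rp i.2.1 i.2.2)
  let b : ℕ → I → Prop := fun j i => ∃ w ∈ ball (rp i.2.1 i.2.2) (sc i.1), GG f (w + (X j : ℂ)) = 0
  let y : ℕ → I → ℝ × ℝ := fun j i => (max (min (a j i) (Mi i)) (-(Mi i)), if b j i then 1 else 0)
  have hMi : ∀ i, 0 ≤ Mi i := fun i => by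
    have := EE_pos ρ (rp i.2.1 i.2.2)
    have := sc_pos (i.1 + 1)
    positivity
  let S : Set (I → ℝ × ℝ) := Set.pi univ (fun i => Icc (-(Mi i)) (Mi i) ×ˢ Icc (0 : ℝ) 1)
  have hS : IsCompact S := isCompact_univ_pi (fun i => isCompact_Icc.prod isCompact_Icc)
  have hy : ∀ j, y j ∈ S := by
    intro j i _
    refine ⟨⟨le_max_right _ _, max_le (min_le_right _ _) (by linarith [hMi i])⟩, ?_⟩
    simp only [y]
    split_ifs <;> simp
  obtain ⟨lim, -, φ, hφ, hlim⟩ := hS.tendsto_subseq hy
  have hlim' : ∀ i, Tendsto (fun j => y (φ j) i) atTop (𝓝 (lim i)) := by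
    intro i
    exact (tendsto_pi_nhds.1 hlim) i
  have hXφ : Tendsto (fun j => X (φ j)) atTop atTop := hX.comp hφ.tendsto_atTop
  -- convergence at rational points
  have hconvR : ∀ n p q, ∃ m, Tendsto (fun j => AA ρ f (sc (n + 1)) (X (φ j)) (rp p q)) atTop (𝓝 m) := by
    intro n p q
    refine ⟨(lim (n, p, q)).1, ?_⟩
    have h1 := (continuous_fst.tendsto _).comp (hlim' (n, p, q))
    apply h1.congr'
    filter_upwards [hXφ.eventually_ge_atTop (1 - (rp p q).re)] with j hj
    have h2 := AA_bound h hb (sc_pos (n + 1)) ((sc_le (by omega)).trans (by norm_num))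
      (z := rp p q) (T := X (φ j)) (by linarith)
    rw [abs_le] at h2
    simp only [Function.comp, y, a, Mi]
    rw [min_eq_left h2.2, max_eq_left h2.1]
  have hdich : ∀ n p q, (∀ᶠ j in atTop, b (φ j) (n, p, q)) ∨ (∀ᶠ j in atTop, ¬ b (φ j) (n, p, q)) := by
    intro n p q
    exact zero_one_eventually ((continuous_snd.tendsto _).comp (hlim' (n, p, q)))
  refine ⟨φ, hφ, hXφ, ?_, ?_⟩
  · -- dichotomy
    intro z
    by_cases hcase : ∃ n p q, z ∈ ball (rp p q) (sc n) ∧ ∀ᶠ j in atTop, ¬ b (φ j) (n, p, q)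
    · left
      obtain ⟨n, p, q, hz, hev⟩ := hcase
      rw [mem_ball] at hz
      refine ⟨sc n - dist z (rp p q), by linarith, ?_⟩
      filter_upwards [hev] with j hj w hw h0
      apply hj
      refine ⟨w, ?_, h0⟩
      rw [mem_ball] at *
      have := dist_triangle w z (rp p q)
      simp only
      linarith
    · right
      push Not at hcase
      intro r hr
      obtain ⟨n, hn⟩ := exists_nat_one_div_lt (half_pos hr)
      obtain ⟨p, q, hpq⟩ := rp_dense z (sc_pos n)
      have hz : z ∈ ball (rp p q) (sc n) := by rw [mem_ball, dist_eq_norm]; exact hpq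
      rcases hdich n p q with h1 | h1
      · filter_upwards [h1] with j hj
        obtain ⟨w, hw, h0⟩ := hj
        refine ⟨w, ?_, h0⟩
        rw [mem_ball] at *
        simp only at hw
        have h2 := dist_triangle w (rp p q) z
        rw [dist_comm (rp p q) z] at h2
        have h3 : sc n < r / 2 := hn
        linarith
      · exact absurd h1 (hcase n p q hz)
  · -- convergence everywhere
    intro n hn z
    obtain ⟨n', rfl⟩ : ∃ n', n = n' + 1 := ⟨n - 1, by omega⟩
    have hs : (1 / (((n' + 1 : ℕ) : ℝ) + 1)) = sc (n' + 1) := rfl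
    rw [hs]
    set s := sc (n' + 1) with hsdef
    have hs0 : 0 < s := sc_pos _
    have hs1 : s ≤ 1 / 2 := sc_le (by omega)
    have hm := mass_pos hs0
    have hE := EE_pos ρ z
    have hcauchy : CauchySeq (fun j => AA ρ f s (X (φ j)) z) := by
      rw [Metric.cauchySeq_iff]
      intro ε hε
      obtain ⟨p, q, hpq⟩ := rp_dense z (r := min s (ε / (3 * (C1 / s ^ 3 * EE ρ z + 1))))
        (by positivity)
      have hpq1 : ‖z - rp p q‖ ≤ s := hpq.le.trans (min_le_left _ _)
      have hpq2 : ‖z - rp p q‖ < ε / (3 * (C1 / s ^ 3 * EE ρ z + 1)) :=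
        lt_of_lt_of_le hpq (min_le_right _ _)
      have hpq3 : C1 / s ^ 3 * EE ρ z * ‖z - rp p q‖ < ε / 3 := by
        have hpos : 0 < C1 / s ^ 3 * EE ρ z + 1 := by positivity
        rw [lt_div_iff₀ (by positivity)] at hpq2
        have := norm_nonneg (z - rp p q)
        nlinarith
      obtain ⟨m, hmlim⟩ := hconvR n' p q
      obtain ⟨N1, hN1⟩ := Metric.cauchySeq_iff.1 hmlim.cauchySeq (ε / 3) (by positivity)
      obtain ⟨N2, hN2⟩ := Filter.eventually_atTop.1 (hXφ.eventually_ge_atTop (1 - z.re))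
      refine ⟨max N1 N2, fun i hi j hj => ?_⟩
      have e1 := AA_diff h hb hs0 (by linarith) hpq1 (T := X (φ i))
        (by linarith [hN2 i ((le_max_right _ _).trans hi)])
      have e2 := AA_diff h hb hs0 (by linarith) hpq1 (T := X (φ j))
        (by linarith [hN2 j ((le_max_right _ _).trans hj)])
      have e3 := hN1 i ((le_max_left _ _).trans hi) j ((le_max_left _ _).trans hj)
      rw [Real.dist_eq] at e3 ⊢
      rw [abs_le] at e1 e2
      rw [abs_lt] at e3 ⊢
      constructor <;> linarith [e1.1, e1.2, e2.1, e2.2, e3.1, e3.2]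
    obtain ⟨m, hmlim⟩ := cauchySeq_tendsto_of_complete hcauchy
    refine ⟨mass s * m, ?_⟩
    apply (hmlim.const_mul (mass s)).congr
    intro j
    unfold AA
    field_simp

end Pool.Agent.LS
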