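import Pool.Agent.Helper44.LS.PL

/-! # Indicator: finiteness, trigonometric convexity, uniform upper bound -/

set_option autoImplicit false

open MeasureTheory Filter Topology Set Asymptotics

noncomputable section

namespace Pool.Agent.LS

lemma indSet_up {ρ : ℝ} {f : ℂ → ℂ} {θ a b : ℝ} (ha : a ∈ indSet ρ f θ) (hab : a ≤ b) :
    b ∈ indSet ρ f θ := by
  have ha' : ∀ᶠ r : ℝ in Filter.atTop,
    ‖f ((r : ℂ) * Complex.exp ((θ : ℂ) * Complex.I))‖ ≤ Real.exp (a * r ^ ρ) := ha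
  show ∀ᶠ r : ℝ in Filter.atTop,
    ‖f ((r : ℂ) * Complex.exp ((θ : ℂ) * Complex.I))‖ ≤ Real.exp (b * r ^ ρ)
  filter_upwards [ha', eventually_ge_atTop 0] with r hr h0
  refine hr.trans (Real.exp_le_exp.2 ?_)
  have : 0 ≤ r ^ ρ := Real.rpow_nonneg h0 _
  gcongr

lemma indSet_nonempty {ρ : ℝ} (hρ : 0 < ρ) {f : ℂ → ℂ} {C : ℝ} (hC : Growth ρ f C) (θ : ℝ) :
    2 * max C 0 ∈ indSet ρ f θ := by
  show ∀ᶠ r : ℝ in Filter.atTop,
    ‖f ((r : ℂ) * Complex.exp ((θ : ℂ) * Complex.I))‖ ≤ Real.exp (2 * max C 0 * r ^ ρ)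
  filter_upwards [eventually_ge_atTop 1] with r hr
  have h0 : (0 : ℝ) ≤ r := by linarith
  have h1 := growth_nonneg hC ((r : ℂ) * Complex.exp ((θ : ℂ) * Complex.I))
  have h2 : ‖(r : ℂ) * Complex.exp ((θ : ℂ) * Complex.I)‖ = r := by
    rw [norm_mul, Complex.norm_exp_ofReal_mul_I, mul_one, Complex.norm_real, Real.norm_eq_abs,
      abs_of_nonneg h0]
  rw [h2] at h1
  refine h1.trans (Real.exp_le_exp.2 ?_)
  have h3 : 1 ≤ r ^ ρ := Real.one_le_rpow hr hρ.le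
  have h4 : 0 ≤ max C 0 := le_max_right _ _
  nlinarith

/-- interpolating sinusoid -/
lemma exists_sn {ρ α β : ℝ} (hs : Real.sin (ρ * (β - α)) ≠ 0) (a b : ℝ) :
    ∃ A B : ℝ, ∀ φ, sn ρ A B φ =
      (a * Real.sin (ρ * (β - φ)) + b * Real.sin (ρ * (φ - α))) / Real.sin (ρ * (β - α)) := by
  refine ⟨(a * Real.sin (ρ * β) - b * Real.sin (ρ * α)) / Real.sin (ρ * (β - α)),
    (-(a * Real.cos (ρ * β)) + b * Real.cos (ρ * α)) / Real.sin (ρ * (β - α)), fun φ => ?_⟩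
  unfold sn
  rw [mul_sub ρ β φ, mul_sub ρ φ α, Real.sin_sub, Real.sin_sub]
  field_simp
  ring

lemma sin_pos_of {ρ α β : ℝ} (hρ : 0 < ρ) (hαβ : α < β) (hβ : β - α < Real.pi / ρ) :
    0 < Real.sin (ρ * (β - α)) := by
  apply Real.sin_pos_of_pos_of_lt_pi
  · have : 0 < β - α := by linarith
    positivity
  · rw [lt_div_iff₀ hρ] at hβ; linarith

/-- the bound at an interior direction -/
lemma indSet_between {ρ : ℝ} (hρ : 0 < ρ) {f : ℂ → ℂ} (hf : Differentiable ℂ f) {C : ℝ}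
    (hC : Growth ρ f C) {α β θ : ℝ} (h1 : α < θ) (h2 : θ < β) (hβ : β - α < Real.pi / ρ) {a b : ℝ}
    (ha : a ∈ indSet ρ f α) (hb : b ∈ indSet ρ f β) {ε : ℝ} (hε : 0 < ε) :
    (a * Real.sin (ρ * (β - θ)) + b * Real.sin (ρ * (θ - α))) / Real.sin (ρ * (β - α)) + ε
      ∈ indSet ρ f θ := by
  have hs := sin_pos_of hρ (h1.trans h2) hβ
  obtain ⟨A, B, hAB⟩ := exists_sn hs.ne' a b
  have hA : sn ρ A B α = a := by
    rw [hAB]; simp [hs.ne']
  have hB : sn ρ A B β = b := by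
    rw [hAB]; simp [hs.ne']
  obtain ⟨K, hK0, hK⟩ := pl_strip hρ hf hC (h1.trans h2) hβ A B (by rwa [hA]) (by rwa [hB])
  rw [← hAB]
  show ∀ᶠ r : ℝ in Filter.atTop,
    ‖f ((r : ℂ) * Complex.exp ((θ : ℂ) * Complex.I))‖ ≤ Real.exp ((sn ρ A B θ + ε) * r ^ ρ)
  have ht : Tendsto (fun r : ℝ => Real.exp (ε * r ^ ρ)) atTop atTop := by
    apply Real.tendsto_exp_atTop.comp
    exact (tendsto_rpow_atTop hρ).const_mul_atTop hε
  filter_upwards [ht.eventually_ge_atTop K, eventually_gt_atTop 0] with r hr hr0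
  have h3 := hK (Real.log r + θ * Complex.I) (by simp; linarith) (by simp; linarith)
  have h4 : Complex.exp ((Real.log r : ℂ) + θ * Complex.I)
      = (r : ℂ) * Complex.exp ((θ : ℂ) * Complex.I) := by
    rw [Complex.exp_add, ← Complex.ofReal_exp, Real.exp_log hr0]
  rw [h4] at h3
  have h5 : ((Real.log r : ℂ) + θ * Complex.I).re = Real.log r := by simp
  have h6 : ((Real.log r : ℂ) + θ * Complex.I).im = θ := by simp
  rw [h5, h6, ← exp_mul_rpow ρ (Real.log r), Real.exp_log hr0] at h3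
  refine h3.trans ?_
  calc K * Real.exp (r ^ ρ * sn ρ A B θ) ≤ Real.exp (ε * r ^ ρ) * Real.exp (r ^ ρ * sn ρ A B θ) := by
        gcongr
    _ = _ := by rw [← Real.exp_add]; ring_nf

lemma indSet_univ_step {ρ : ℝ} (hρ : 0 < ρ) {f : ℂ → ℂ} (hf : Differentiable ℂ f) {C : ℝ}
    (hC : Growth ρ f C) {α : ℝ} (hα : ∀ a, a ∈ indSet ρ f α) {θ : ℝ}
    (hθ : |θ - α| < Real.pi / (2 * ρ)) : ∀ a, a ∈ indSet ρ f θ := by
  intro c
  rcases lt_trichotomy α θ with h | h | h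
  · -- α < θ
    set β := α + Real.pi / (2 * ρ) with hβdef
    have h2 : θ < β := by rw [abs_lt] at hθ; linarith
    have hβ : β - α < Real.pi / ρ := by
      rw [hβdef]
      have : Real.pi / (2 * ρ) < Real.pi / ρ := by
        apply div_lt_div_of_pos_left Real.pi_pos hρ; linarith
      linarith
    have hb := indSet_nonempty hρ hC β
    have hs := sin_pos_of hρ (h.trans h2) hβ
    have hs2 := sin_pos_of hρ h2 (by linarith)
    set b := 2 * max C 0
    set a := ((c - 1) * Real.sin (ρ * (β - α)) - b * Real.sin (ρ * (θ - α))) /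
      Real.sin (ρ * (β - θ)) with ha
    have := indSet_between hρ hf hC h h2 hβ (hα a) hb one_pos
    convert this using 1
    rw [ha]
    field_simp
    ring
  · rw [← h]; exact hα c
  · set β := α - Real.pi / (2 * ρ) with hβdef
    have h2 : β < θ := by rw [abs_lt] at hθ; linarith
    have hβ : α - β < Real.pi / ρ := by
      rw [hβdef]
      have : Real.pi / (2 * ρ) < Real.pi / ρ := by
        apply div_lt_div_of_pos_left Real.pi_pos hρ; linarith
      linarith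
    have hb := indSet_nonempty hρ hC β
    have hs := sin_pos_of hρ (h2.trans h) hβ
    have hs2 := sin_pos_of hρ h2 (by linarith)
    set b := 2 * max C 0
    set a := ((c - 1) * Real.sin (ρ * (α - β)) - b * Real.sin (ρ * (α - θ))) /
      Real.sin (ρ * (θ - β)) with ha
    have := indSet_between hρ hf hC h2 h hβ hb (hα a) one_pos
    convert this using 1
    rw [ha]
    field_simp
    ring

lemma indSet_univ_all {ρ : ℝ} (hρ : 0 < ρ) {f : ℂ → ℂ} (hf : Differentiable ℂ f) {C : ℝ}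
    (hC : Growth ρ f C) {α : ℝ} (hα : ∀ a, a ∈ indSet ρ f α) :
    ∀ θ a, a ∈ indSet ρ f θ := by
  have hopen : IsOpen {θ | ∀ a, a ∈ indSet ρ f θ} := by
    rw [Metric.isOpen_iff]
    intro θ hθ
    refine ⟨Real.pi / (2 * ρ), by positivity, fun y hy => ?_⟩
    exact indSet_univ_step hρ hf hC hθ (by rwa [Metric.mem_ball, Real.dist_eq] at hy)
  have hclosed : IsClosed {θ | ∀ a, a ∈ indSet ρ f θ} := by
    rw [← isOpen_compl_iff, Metric.isOpen_iff]
    intro θ hθ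
    refine ⟨Real.pi / (2 * ρ), by positivity, fun y hy hy2 => ?_⟩
    apply hθ
    exact indSet_univ_step hρ hf hC hy2 (by
      rw [Metric.mem_ball, Real.dist_eq, abs_sub_comm] at hy; exact hy)
  have := IsClopen.eq_univ ⟨hclosed, hopen⟩ ⟨α, hα⟩
  intro θ
  have h : θ ∈ {θ | ∀ a, a ∈ indSet ρ f θ} := by rw [this]; trivial
  exact h

/-- a function all of whose `indSet`s are everything is bounded -/
lemma bounded_of_univ {ρ : ℝ} (hρ : 0 < ρ) {f : ℂ → ℂ} (hf : Differentiable ℂ f) {C : ℝ}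
    (hC : Growth ρ f C) (hall : ∀ θ a, a ∈ indSet ρ f θ) : ∃ K, ∀ w, ‖f w‖ ≤ K := by
  set δ := Real.pi / (2 * ρ) with hδ
  have hδ0 : 0 < δ := by positivity
  have hδ1 : δ < Real.pi / ρ := by
    apply div_lt_div_of_pos_left Real.pi_pos hρ; linarith
  have hsec : ∀ α : ℝ, ∃ K, ∀ z : ℂ, α ≤ z.im → z.im ≤ α + δ → ‖f (Complex.exp z)‖ ≤ K := by
    intro α
    obtain ⟨K, -, hK⟩ := pl_strip hρ hf hC (α := α) (β := α + δ) (by linarith) (by linarith) 0 0
      (hall _ _) (hall _ _)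
    refine ⟨K, fun z h1 h2 => ?_⟩
    simpa [sn] using hK z h1 h2
  have hind : ∀ n : ℕ, ∃ K, ∀ z : ℂ, -Real.pi ≤ z.im → z.im ≤ -Real.pi + n * δ →
      ‖f (Complex.exp z)‖ ≤ K := by
    intro n
    induction n with
    | zero =>
      obtain ⟨K, hK⟩ := hsec (-Real.pi)
      refine ⟨K, fun z h1 h2 => hK z h1 ?_⟩
      simp at h2; linarith
    | succ n ih =>
      obtain ⟨K1, hK1⟩ := ih
      obtain ⟨K2, hK2⟩ := hsec (-Real.pi + n * δ)
      refine ⟨max K1 K2, fun z h1 h2 => ?_⟩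
      by_cases h : z.im ≤ -Real.pi + n * δ
      · exact (hK1 z h1 h).trans (le_max_left _ _)
      · push Not at h
        refine (hK2 z h.le ?_).trans (le_max_right _ _)
        push_cast at h2
        linarith
  obtain ⟨n, hn⟩ := exists_nat_ge (2 * Real.pi / δ)
  have hn' : 2 * Real.pi ≤ n * δ := by rwa [div_le_iff₀ hδ0] at hn
  obtain ⟨K, hK⟩ := hind n
  refine ⟨max K ‖f 0‖, fun w => ?_⟩
  by_cases hw : w = 0
  · rw [hw]; exact le_max_right _ _
  · rw [← Complex.exp_log hw]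
    refine (hK _ ?_ ?_).trans (le_max_left _ _)
    · rw [Complex.log_im]; exact (Complex.neg_pi_lt_arg w).le
    · rw [Complex.log_im]; have := Complex.arg_le_pi w; linarith

/-- non minimal type -/
def NonMin (ρ : ℝ) (f : ℂ → ℂ) : Prop :=
  ∃ ε : ℝ, 0 < ε ∧ ∀ R : ℝ, ∃ z : ℂ, R ≤ ‖z‖ ∧ Real.exp (ε * ‖z‖ ^ ρ) ≤ ‖f z‖

lemma NonMin.not_bounded {ρ : ℝ} (hρ : 0 < ρ) {f : ℂ → ℂ} (h : NonMin ρ f) :
    ¬ ∃ K, ∀ w, ‖f w‖ ≤ K := by
  rintro ⟨K, hK⟩
  obtain ⟨ε, hε, h⟩ := h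
  have ht : Tendsto (fun r : ℝ => Real.exp (ε * r ^ ρ)) atTop atTop := by
    apply Real.tendsto_exp_atTop.comp
    exact (tendsto_rpow_atTop hρ).const_mul_atTop hε
  obtain ⟨R, hR⟩ := Filter.eventually_atTop.1 (ht.eventually_gt_atTop K)
  obtain ⟨z, hz1, hz2⟩ := h R
  have := hR ‖z‖ hz1
  linarith [hK z]

lemma indSet_bddBelow {ρ : ℝ} (hρ : 0 < ρ) {f : ℂ → ℂ} (hf : Differentiable ℂ f) {C : ℝ}
    (hC : Growth ρ f C) (hnm : NonMin ρ f) (θ : ℝ) : BddBelow (indSet ρ f θ) := by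
  by_contra hb
  have hα : ∀ a, a ∈ indSet ρ f θ := by
    intro a
    rw [not_bddBelow_iff] at hb
    obtain ⟨b, hb1, hb2⟩ := hb a
    exact indSet_up hb1 hb2.le
  exact hnm.not_bounded hρ (bounded_of_univ hρ hf hC (indSet_univ_all hρ hf hC hα))

lemma mem_indSet_of_ind_lt {ρ : ℝ} (hρ : 0 < ρ) {f : ℂ → ℂ} {C : ℝ}
    (hC : Growth ρ f C) {θ a : ℝ} (h : ind ρ f θ < a) :
    a ∈ indSet ρ f θ := by
  obtain ⟨b, hb1, hb2⟩ := exists_lt_of_csInf_lt ⟨_, indSet_nonempty hρ hC θ⟩ h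
  exact indSet_up hb1 hb2.le

lemma ind_le {ρ : ℝ} (hρ : 0 < ρ) {f : ℂ → ℂ} (hf : Differentiable ℂ f) {C : ℝ}
    (hC : Growth ρ f C) (hnm : NonMin ρ f) {θ a : ℝ} (h : a ∈ indSet ρ f θ) : ind ρ f θ ≤ a :=
  csInf_le (indSet_bddBelow hρ hf hC hnm θ) h

lemma ind_periodic (ρ : ℝ) (f : ℂ → ℂ) : Function.Periodic (ind ρ f) (2 * Real.pi) := by
  intro θ
  unfold ind
  have : indSet ρ f (θ + 2 * Real.pi) = indSet ρ f θ := by
    unfold indSet
    have h1 : Complex.exp (((θ + 2 * Real.pi : ℝ) : ℂ) * Complex.I)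
        = Complex.exp ((θ : ℂ) * Complex.I) := by
      push_cast
      rw [add_mul, Complex.exp_add, Complex.exp_two_pi_mul_I, mul_one]
    rw [h1]
  rw [this]

theorem ind_trigConvex {ρ : ℝ} (hρ : 0 < ρ) {f : ℂ → ℂ} (hf : Differentiable ℂ f) {C : ℝ}
    (hC : Growth ρ f C) (hnm : NonMin ρ f) : TrigConvex ρ (ind ρ f) := by
  intro α θ β h1 h2 hβ
  have hs := sin_pos_of hρ (h1.trans h2) hβ
  have hs1 := sin_pos_of hρ h1 (by linarith)
  have hs2 := sin_pos_of hρ h2 (by linarith)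
  apply le_of_forall_pos_le_add
  intro ε hε
  set S := Real.sin (ρ * (β - θ)) + Real.sin (ρ * (θ - α)) + Real.sin (ρ * (β - α)) with hS
  have hS0 : 0 < S := by positivity
  set η := ε / S with hη
  have hη0 : 0 < η := by positivity
  have key := ind_le hρ hf hC hnm (indSet_between hρ hf hC h1 h2 hβ
    (mem_indSet_of_ind_lt hρ hC (lt_add_of_pos_right (ind ρ f α) hη0))
    (mem_indSet_of_ind_lt hρ hC (lt_add_of_pos_right (ind ρ f β) hη0)) hη0)
  have h3 := mul_le_mul_of_nonneg_right key hs.le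
  refine h3.trans (le_of_eq ?_)
  have h4 : ε = η * S := by rw [hη]; field_simp
  rw [h4, hS]
  field_simp
  ring

/-- uniform upper bound by the indicator -/
theorem uniform_upper {ρ : ℝ} (hρ : 0 < ρ) {f : ℂ → ℂ} (hf : Differentiable ℂ f) {C : ℝ}
    (hC : Growth ρ f C) (hcont : Continuous (ind ρ f)) {ε : ℝ} (hε : 0 < ε) :
    ∃ T₀ : ℝ, ∀ z : ℂ, T₀ ≤ z.re →
      ‖f (Complex.exp z)‖ ≤ Real.exp ((ind ρ f z.im + ε) * Real.exp (ρ * z.re)) := by
  -- local version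
  have hloc : ∀ φ₀ : ℝ, ∃ δ > 0, ∃ T₀ : ℝ, ∀ z : ℂ, |z.im - φ₀| < δ → T₀ ≤ z.re →
      ‖f (Complex.exp z)‖ ≤ Real.exp ((ind ρ f z.im + ε) * Real.exp (ρ * z.re)) := by
    intro φ₀
    set M := ind ρ f φ₀ + ε / 3 with hM
    set A := M * Real.cos (ρ * φ₀) with hA
    set B := M * Real.sin (ρ * φ₀) with hB
    have hsn : ∀ φ, sn ρ A B φ = M * Real.cos (ρ * φ - ρ * φ₀) := by
      intro φ
      rw [Real.cos_sub]; unfold sn; rw [hA, hB]; ring
    have hc : Continuous (fun φ => M * Real.cos (ρ * φ - ρ * φ₀) - ind ρ f φ) := by fun_prop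
    have h0 : M * Real.cos (ρ * φ₀ - ρ * φ₀) - ind ρ f φ₀ = ε / 3 := by
      rw [sub_self, Real.cos_zero]; rw [hM]; ring
    have hev : ∀ᶠ φ in 𝓝 φ₀, M * Real.cos (ρ * φ - ρ * φ₀) - ind ρ f φ ∈ Ioo 0 (ε / 2) := by
      apply hc.continuousAt.eventually_mem
      rw [h0]
      exact Ioo_mem_nhds (by positivity) (by linarith)
    obtain ⟨δ', hδ', hδ2⟩ := Metric.eventually_nhds_iff.1 hev
    set δ := min (δ' / 2) (Real.pi / (4 * ρ)) with hδ
    have hδ0 : 0 < δ := by positivity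
    have hmem : ∀ φ, |φ - φ₀| ≤ δ → sn ρ A B φ - ind ρ f φ ∈ Ioo 0 (ε / 2) := by
      intro φ hφ
      rw [hsn]
      apply hδ2
      rw [Real.dist_eq]
      calc |φ - φ₀| ≤ δ := hφ
        _ ≤ δ' / 2 := min_le_left _ _
        _ < δ' := by linarith
    have h1 := hmem (φ₀ - δ) (by rw [show φ₀ - δ - φ₀ = -δ by ring, abs_neg, abs_of_pos hδ0])
    have h2 := hmem (φ₀ + δ) (by rw [show φ₀ + δ - φ₀ = δ by ring, abs_of_pos hδ0])
    obtain ⟨K, hK0, hK⟩ := pl_strip hρ hf hC (α := φ₀ - δ) (β := φ₀ + δ) (by linarith)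
      (by
        have : δ ≤ Real.pi / (4 * ρ) := min_le_right _ _
        have h5 : Real.pi / (4 * ρ) = Real.pi / ρ / 4 := by field_simp
        have h6 : 0 < Real.pi / ρ := by positivity
        linarith) A B
      (mem_indSet_of_ind_lt hρ hC (by linarith [h1.1]))
      (mem_indSet_of_ind_lt hρ hC (by linarith [h2.1]))
    refine ⟨δ, hδ0, ?_⟩
    have ht : Tendsto (fun r : ℝ => Real.exp (ε / 2 * Real.exp (ρ * r))) atTop atTop := by
      apply Real.tendsto_exp_atTop.comp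
      apply Tendsto.const_mul_atTop (by positivity)
      apply Real.tendsto_exp_atTop.comp
      exact tendsto_id.const_mul_atTop hρ
    obtain ⟨T₀, hT₀⟩ := Filter.eventually_atTop.1 (ht.eventually_ge_atTop K)
    refine ⟨T₀, fun z hz hzT => ?_⟩
    have h3 := hmem z.im hz.le
    have hz' := abs_lt.1 hz
    refine (hK z (by linarith) (by linarith)).trans ?_
    calc K * Real.exp (Real.exp (ρ * z.re) * sn ρ A B z.im)
        ≤ Real.exp (ε / 2 * Real.exp (ρ * z.re)) *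
            Real.exp (Real.exp (ρ * z.re) * (ind ρ f z.im + ε / 2)) := by
          gcongr
          · exact hT₀ _ hzT
          · linarith [h3.2]
      _ = _ := by rw [← Real.exp_add]; ring_nf
  -- compactness
  have hcomp : ∃ T₀ : ℝ, ∀ z : ℂ, z.im ∈ Icc (-Real.pi) Real.pi → T₀ ≤ z.re →
      ‖f (Complex.exp z)‖ ≤ Real.exp ((ind ρ f z.im + ε) * Real.exp (ρ * z.re)) := by
    apply (isCompact_Icc (a := -Real.pi) (b := Real.pi)).induction_on
      (p := fun S => ∃ T₀ : ℝ, ∀ z : ℂ, z.im ∈ S → T₀ ≤ z.re →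
      ‖f (Complex.exp z)‖ ≤ Real.exp ((ind ρ f z.im + ε) * Real.exp (ρ * z.re)))
    · exact ⟨0, fun z hz => absurd hz (notMem_empty _)⟩
    · rintro S T hST ⟨T₀, hT₀⟩
      exact ⟨T₀, fun z hz => hT₀ z (hST hz)⟩
    · rintro S T ⟨T₁, hT₁⟩ ⟨T₂, hT₂⟩
      refine ⟨max T₁ T₂, fun z hz hz2 => ?_⟩
      rcases hz with hz | hz
      · exact hT₁ z hz ((le_max_left _ _).trans hz2)
      · exact hT₂ z hz ((le_max_right _ _).trans hz2)
    · intro φ₀ _
      obtain ⟨δ, hδ, T₀, hT₀⟩ := hloc φ₀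
      refine ⟨Metric.ball φ₀ δ, mem_nhdsWithin_of_mem_nhds (Metric.ball_mem_nhds _ hδ), T₀,
        fun z hz => hT₀ z ?_⟩
      rwa [Metric.mem_ball, Real.dist_eq] at hz
  obtain ⟨T₀, hT₀⟩ := hcomp
  refine ⟨T₀, fun z hz => ?_⟩
  -- reduce the imaginary part
  obtain ⟨y, ⟨hy1, hy2⟩, hy3⟩ : ∃ y ∈ Ico (-Real.pi) (-Real.pi + 2 * Real.pi),
      ∃ n : ℤ, y = z.im + n • (2 * Real.pi) := by
    obtain ⟨n, hn, -⟩ := existsUnique_add_zsmul_mem_Ico (a := 2 * Real.pi)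
      (by positivity) z.im (-Real.pi)
    exact ⟨_, hn, n, rfl⟩
  obtain ⟨n, hn⟩ := hy3
  have h1 := hT₀ ((z.re : ℂ) + (y : ℂ) * Complex.I) (by simp; constructor <;> linarith) (by simpa using hz)
  have h2 : Complex.exp ((z.re : ℂ) + (y : ℂ) * Complex.I) = Complex.exp z := by
    rw [hn]
    conv_rhs => rw [← Complex.re_add_im z]
    push_cast
    rw [Complex.exp_eq_exp_iff_exists_int]
    refine ⟨n, ?_⟩
    simp
    linear_combination Complex.re_add_im z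
  have h3 : ind ρ f y = ind ρ f z.im := by
    rw [hn]
    exact (ind_periodic ρ f).zsmul n z.im
  rw [h2] at h1
  simpa [h3] using h1

end Pool.Agent.LS
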