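import Pool.Agent.Helper44.LS.Subharm2
import Pool.Agent.Helper44.LS.Indicator

/-! # Basic facts on `L = log ‖f ∘ exp‖` -/

set_option autoImplicit false

open MeasureTheory Filter Topology Set Metric Real

noncomputable section

namespace Pool.Agent.LS

open Pool.Agent.Helper42.Fr (Sm dX dT Lst IsTest cpt_dX cpt_dT)

/-- hypotheses of the frozen statement on f. -/
structure HypF (ρ : ℝ) (f : ℂ → ℂ) : Prop where
  rho : 0 < ρ
  ent : Differentiable ℂ f
  up : ∃ C : ℝ, ∀ z : ℂ, ‖f z‖ ≤ Real.exp (C * (1 + ‖z‖ ^ ρ))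
  low : ∃ ε : ℝ, 0 < ε ∧ ∀ R : ℝ, ∃ z : ℂ, R ≤ ‖z‖ ∧ Real.exp (ε * ‖z‖ ^ ρ) ≤ ‖f z‖
  simple : ∀ z : ℂ, f z = 0 → deriv f z ≠ 0
  cond2 : ∀ ε : ℝ, 0 < ε → ∃ R : ℝ, ∀ z : ℂ, f z = 0 → R ≤ ‖z‖ →
      -ε ≤ (‖z‖ ^ ρ)⁻¹ * Real.log ‖deriv f z‖
        - sInf {a : ℝ | ∀ᶠ r : ℝ in Filter.atTop,
            ‖f ((r : ℂ) * Complex.exp ((Complex.arg z : ℂ) * Complex.I))‖
              ≤ Real.exp (a * r ^ ρ)}

/-- `G = f ∘ exp` -/
def GG (f : ℂ → ℂ) (z : ℂ) : ℂ := f (Complex.exp z)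

lemma GG_diff {f : ℂ → ℂ} (hf : Differentiable ℂ f) : Differentiable ℂ (GG f) :=
  hf.comp Complex.differentiable_exp

lemma LL_eq (f : ℂ → ℂ) : LL f = fun z => Real.log ‖GG f z‖ := rfl

lemma LR_eq (f : ℂ → ℂ) : LR f = fun z => Real.log ‖GG f (cx z)‖ := rfl

lemma GG_ae_ne {f : ℂ → ℂ} (hf : Differentiable ℂ f) (hne : ∃ z, f z ≠ 0) :
    ∀ᵐ w : ℂ, GG f w ≠ 0 := by
  have hG : AnalyticOnNhd ℂ (GG f) univ := fun z _ => (GG_diff hf).analyticAt z
  rcases hG.eqOn_zero_or_eventually_ne_zero_of_preconnected isPreconnected_univ with h | h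
  · exfalso
    -- f = 0 on the punctured plane, hence everywhere
    obtain ⟨z, hz⟩ := hne
    have h0 : ∀ w, w ≠ 0 → f w = 0 := by
      intro w hw
      have := h (mem_univ (Complex.log w))
      simpa [GG, Complex.exp_log hw] using this
    have hz0 : z = 0 := by
      by_contra hcon
      exact hz (h0 z hcon)
    apply hz
    rw [hz0]
    have hc : ContinuousAt f 0 := hf.continuous.continuousAt
    have ht : Tendsto f (𝓝[≠] 0) (𝓝 (f 0)) := hc.tendsto.mono_left nhdsWithin_le_nhds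
    have ht2 : Tendsto f (𝓝[≠] 0) (𝓝 0) := by
      apply tendsto_const_nhds.congr'
      filter_upwards [self_mem_nhdsWithin] with w hw
      exact (h0 w hw).symm
    exact tendsto_nhds_unique ht ht2
  · have h2 := ae_restrict_le_codiscreteWithin (μ := (volume : Measure ℂ)) MeasurableSet.univ h
    rw [Measure.restrict_univ] at h2
    exact h2

lemma cx_eq_symm (z : ℝ × ℝ) : Complex.measurableEquivRealProd.symm z = cx z := by
  apply Complex.ext
  · simp [cx, Complex.measurableEquivRealProd_symm_apply]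
  · simp [cx, Complex.measurableEquivRealProd_symm_apply]

lemma cx_mp : MeasurePreserving cx := by
  have h := Complex.volume_preserving_equiv_real_prod.symm
  have h2 : (fun z => Complex.measurableEquivRealProd.symm z) = cx := funext cx_eq_symm
  rw [← h2]
  exact h

lemma cx_emb : MeasurableEmbedding cx := by
  have h2 : (fun z => Complex.measurableEquivRealProd.symm z) = cx := funext cx_eq_symm
  rw [← h2]
  exact Complex.measurableEquivRealProd.symm.measurableEmbedding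

lemma integral_cx (F : ℂ → ℝ) : ∫ z : ℝ × ℝ, F (cx z) = ∫ w : ℂ, F w :=
  cx_mp.integral_comp cx_emb F

lemma GG_ae_ne' {f : ℂ → ℂ} (hf : Differentiable ℂ f) (hne : ∃ z, f z ≠ 0) :
    ∀ᵐ z : ℝ × ℝ, GG f (cx z) ≠ 0 :=
  cx_mp.quasiMeasurePreserving.ae (GG_ae_ne hf hne)

/-- a structure with all the constants -/
structure Dat (ρ : ℝ) (f : ℂ → ℂ) (C C0 : ℝ) : Prop extends HypF ρ f where
  gr : Growth ρ f C
  j0 : ∀ r : ℝ, 0 < r → -(C0 * (1 + |Real.log r|)) ≤ circleAverage (fun z => Real.log ‖f z‖) 0 r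
  c0 : 0 ≤ C0

lemma exists_dat {ρ : ℝ} {f : ℂ → ℂ} (h : HypF ρ f) : ∃ C C0, Dat ρ f C C0 := by
  obtain ⟨C, hC⟩ := h.up
  obtain ⟨C0, h1, h2⟩ := circleAverage_zero_lower h.ent
  exact ⟨C, C0, ⟨h, hC, h2, h1⟩⟩

lemma HypF.ne {ρ : ℝ} {f : ℂ → ℂ} (h : HypF ρ f) : ∃ z, f z ≠ 0 := by
  obtain ⟨ε, _, h1⟩ := h.low
  obtain ⟨z, -, hz⟩ := h1 0
  refine ⟨z, fun h0 => ?_⟩
  rw [h0, norm_zero] at hz
  exact absurd hz (not_le.2 (Real.exp_pos _))

lemma LR_locInt {ρ C C0 : ℝ} {f : ℂ → ℂ} (h : Dat ρ f C C0) : LocallyIntegrable (LR f) := by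
  intro z
  refine ⟨Icc (z.1 - 1) (z.1 + 1) ×ˢ Icc (z.2 - π) (z.2 - π + (1 : ℕ) * (2 * π)), ?_,
    strip_integrable h.ent h.gr h.j0 _ _ _ _⟩
  have hpi := pi_pos
  apply prod_mem_nhds
  · apply Icc_mem_nhds <;> linarith
  · apply Icc_mem_nhds
    · linarith
    · push_cast; linarith

lemma LL_locInt {ρ C C0 : ℝ} {f : ℂ → ℂ} (h : Dat ρ f C C0) : LocallyIntegrable (LL f) := by
  intro w
  obtain ⟨s, hs, hi⟩ := LR_locInt h (w.re, w.im)
  refine ⟨cx '' s, ?_, ?_⟩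
  · have h1 : cx '' s = (fun w : ℂ => ((w.re, w.im) : ℝ × ℝ)) ⁻¹' s := by
      ext u
      constructor
      · rintro ⟨z, hz, rfl⟩
        simpa [cx] using hz
      · intro hu
        exact ⟨(u.re, u.im), hu, by simp [cx, Complex.re_add_im]⟩
    rw [h1]
    have hc : ContinuousAt (fun w : ℂ => ((w.re, w.im) : ℝ × ℝ)) w :=
      (Complex.continuous_re.prodMk Complex.continuous_im).continuousAt
    exact hc hs
  · exact (cx_mp.integrableOn_image cx_emb).2 hi

/-- bound of the column weight -/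
lemma colB_le {C C0 ρ : ℝ} (hρ : 0 < ρ) (hC0 : 0 ≤ C0) : ∃ C1 : ℝ, 0 ≤ C1 ∧
    ∀ x : ℝ, 0 ≤ x → colB C C0 ρ x ≤ C1 * Real.exp (ρ * x) := by
  refine ⟨4 * π * (max C 0 * 2) + 2 * π * (C0 * (1 + 1 / ρ)), by positivity, fun x hx => ?_⟩
  unfold colB
  have h1 : 1 ≤ Real.exp (ρ * x) := Real.one_le_exp (by positivity)
  have h2 : x ≤ 1 / ρ * Real.exp (ρ * x) := by
    have h3 : ρ * x ≤ Real.exp (ρ * x) := by
      have := Real.add_one_le_exp (ρ * x); linarith
    calc x = 1 / ρ * (ρ * x) := by field_simp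
      _ ≤ _ := by gcongr
  have h4 : 1 + |x| ≤ (1 + 1 / ρ) * Real.exp (ρ * x) := by
    rw [abs_of_nonneg hx]
    nlinarith
  have h5 : 1 + Real.exp (ρ * x) ≤ 2 * Real.exp (ρ * x) := by linarith
  have h6 : (0 : ℝ) ≤ max C 0 := le_max_right _ _
  calc 4 * π * (max C 0 * (1 + Real.exp (ρ * x))) + 2 * π * (C0 * (1 + |x|))
      ≤ 4 * π * (max C 0 * (2 * Real.exp (ρ * x))) + 2 * π * (C0 * ((1 + 1 / ρ) * Real.exp (ρ * x))) := by
        gcongr
    _ = _ := by ring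

/-- `L¹` bound on unit discs -/
lemma ball_bound {ρ C C0 : ℝ} {f : ℂ → ℂ} (h : Dat ρ f C C0) : ∃ C1 : ℝ, 0 ≤ C1 ∧
    ∀ z : ℂ, 1 ≤ z.re → ∫ w in closedBall z 1, |LL f w| ≤ C1 * Real.exp (ρ * z.re) := by
  obtain ⟨C1, hC1, hcol⟩ := colB_le (C := C) h.rho h.c0
  refine ⟨2 * C1 * Real.exp ρ, by positivity, fun z hz => ?_⟩
  set S : Set (ℝ × ℝ) := Icc (z.re - 1) (z.re + 1) ×ˢ Icc (z.im - π) (z.im - π + (1 : ℕ) * (2 * π)) with hS
  have hint : IntegrableOn (LR f) S := strip_integrable h.ent h.gr h.j0 _ _ _ _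
  have hsub : cx ⁻¹' (closedBall z 1) ⊆ S := by
    rintro ⟨x, t⟩ hxt
    rw [mem_preimage, mem_closedBall, dist_eq_norm] at hxt
    have h1 : |x - z.re| ≤ 1 := by
      have := (Complex.abs_re_le_norm (cx (x, t) - z)).trans hxt
      simpa [cx] using this
    have h2 : |t - z.im| ≤ 1 := by
      have := (Complex.abs_im_le_norm (cx (x, t) - z)).trans hxt
      simpa [cx] using this
    rw [abs_le] at h1 h2
    have hpi := pi_gt_three
    refine ⟨⟨by simp only; linarith, by simp only; linarith⟩, ⟨by simp only; linarith, ?_⟩⟩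
    push_cast
    linarith
  have e1 : ∫ w in closedBall z 1, |LL f w| = ∫ p in cx ⁻¹' (closedBall z 1), |LR f p| := by
    rw [← cx_mp.setIntegral_preimage_emb cx_emb]
    rfl
  rw [e1]
  have e2 : ∫ p in cx ⁻¹' (closedBall z 1), |LR f p| ≤ ∫ p in S, |LR f p| := by
    apply setIntegral_mono_set hint.abs
    · filter_upwards with p; exact abs_nonneg _
    · exact hsub.eventuallyLE
  refine e2.trans ?_
  have e3 := strip_bound h.ent h.gr h.j0 (z.re - 1) (z.re + 1) (z.im - π) 1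
    (w := fun _ => 1) continuous_const (fun _ => zero_le_one)
  simp only [one_mul, Nat.cast_one] at e3
  have e4 : ∫ x in Icc (z.re - 1) (z.re + 1), colB C C0 ρ x ≤
      ∫ x in Icc (z.re - 1) (z.re + 1), C1 * Real.exp (ρ * (z.re + 1)) := by
    have hcont : Continuous (colB C C0 ρ) := by unfold colB; fun_prop
    apply setIntegral_mono_on hcont.integrableOn_Icc
      (continuous_const.integrableOn_Icc) measurableSet_Icc
    intro x hx
    refine (hcol x (by linarith [hx.1])).trans ?_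
    have := h.rho
    gcongr
    exact hx.2
  rw [hS]
  simp only [Nat.cast_one, one_mul] at e3 ⊢
  refine e3.trans (e4.trans ?_)
  rw [setIntegral_const]
  simp only [smul_eq_mul]
  rw [Real.volume_real_Icc_of_le (by linarith)]
  rw [show ρ * (z.re + 1) = ρ * z.re + ρ by ring, Real.exp_add]
  apply le_of_eq
  ring

end Pool.Agent.LS
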