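import Pool.Agent.Helper44.LS.Est2

/-! # The limit function along a good sequence -/

set_option autoImplicit false

open MeasureTheory Filter Topology Set Metric Real

noncomputable section

namespace Pool.Agent.LS

variable {ρ C C0 B K0 : ℝ} {f : ℂ → ℂ}

/-- limit set of zeros -/
def ZZ (f : ℂ → ℂ) (X : ℕ → ℝ) : Set ℂ :=
  {z | ∀ r > 0, ∀ᶠ j in atTop, ∃ w ∈ ball z r, GG f (w + (X j : ℂ)) = 0}

/-- good sequences -/
structure GoodSeq (ρ : ℝ) (f : ℂ → ℂ) (X : ℕ → ℝ) : Prop where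
  tX : Tendsto X atTop atTop
  dich : ∀ z, (∃ r > 0, ∀ᶠ j in atTop, ∀ w ∈ ball z r, GG f (w + (X j : ℂ)) ≠ 0) ∨ z ∈ ZZ f X
  conv : ∀ n : ℕ, 1 ≤ n → ∀ z, ∃ m : ℝ, Tendsto (fun j => Real.exp (-(ρ * X j)) *
    coneM (1 / ((n : ℝ) + 1)) (LL f) (z + (X j : ℂ))) atTop (𝓝 m)

/-- rescaled function -/
def UU (ρ : ℝ) (f : ℂ → ℂ) (T : ℝ) (z : ℂ) : ℝ := Real.exp (-(ρ * T)) * LL f (z + (T : ℂ))

open Classical in
/-- the limit function -/
def VV (ρ : ℝ) (f : ℂ → ℂ) (X : ℕ → ℝ) (z : ℂ) : ℝ :=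
  if z ∈ ZZ f X then HH ρ f z else limUnder atTop (fun j => UU ρ f (X j) z)

lemma EE_add (ρ : ℝ) (z : ℂ) (T : ℝ) : EE ρ (z + (T : ℂ)) = Real.exp (ρ * T) * EE ρ z := by
  unfold EE
  rw [← Real.exp_add]
  congr 1
  simp
  ring

lemma HH_add (ρ : ℝ) (f : ℂ → ℂ) (z : ℂ) (T : ℝ) :
    HH ρ f (z + (T : ℂ)) = Real.exp (ρ * T) * HH ρ f z := by
  unfold HH
  rw [EE_add]
  simp
  ring

lemma exp_neg_mul_exp (ρ T a : ℝ) : Real.exp (-(ρ * T)) * (Real.exp (ρ * T) * a) = a := by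
  rw [← mul_assoc, ← Real.exp_add]; simp

lemma ZZ_closed (X : ℕ → ℝ) : IsClosed (ZZ f X) := by
  rw [← isOpen_compl_iff, Metric.isOpen_iff]
  intro z hz
  simp only [ZZ, mem_compl_iff, mem_ofPred_eq, not_forall] at hz
  obtain ⟨r, hr, hz⟩ := hz
  refine ⟨r / 2, by positivity, fun z' hz' hcon => hz ?_⟩
  filter_upwards [hcon (r / 2) (by positivity)] with j hj
  obtain ⟨w, hw, hw0⟩ := hj
  refine ⟨w, ?_, hw0⟩
  rw [mem_ball] at *
  calc dist w z ≤ dist w z' + dist z' z := dist_triangle _ _ _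
    _ < r := by linarith

lemma off_compact {X : ℕ → ℝ} (hX : GoodSeq ρ f X) {K : Set ℂ} (hK : IsCompact K)
    (hd : ∀ z ∈ K, z ∉ ZZ f X) : ∀ᶠ j in atTop, ∀ w ∈ K, GG f (w + (X j : ℂ)) ≠ 0 := by
  apply hK.induction_on (p := fun S => ∀ᶠ j in atTop, ∀ w ∈ S, GG f (w + (X j : ℂ)) ≠ 0)
  · simp
  · intro s t hst ht
    filter_upwards [ht] with j hj w hw
    exact hj w (hst hw)
  · intro s t hs ht
    filter_upwards [hs, ht] with j h1 h2 w hw
    rcases hw with hw | hw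
    · exact h1 w hw
    · exact h2 w hw
  · intro z hz
    rcases hX.dich z with ⟨r, hr, h⟩ | h
    · exact ⟨ball z r, mem_nhdsWithin_of_mem_nhds (ball_mem_nhds z hr), h⟩
    · exact absurd h (hd z hz)

/-- averaged function -/
def AA (ρ : ℝ) (f : ℂ → ℂ) (s T : ℝ) (z : ℂ) : ℝ :=
  Real.exp (-(ρ * T)) * (coneM s (LL f) (z + (T : ℂ)) / mass s)

lemma AA_eq_UU (h : Dat2 ρ f C C0 B K0) {s : ℝ} (hs : 0 < s) {z : ℂ} {T : ℝ}
    (h0 : ∀ w ∈ ball z s, GG f (w + (T : ℂ)) ≠ 0) : AA ρ f s T z = UU ρ f T z := by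
  unfold AA UU
  rw [cone_eq_off h hs (z := z + (T : ℂ))]
  · have := mass_pos hs
    field_simp
  · intro w hw
    have h1 := h0 (w - (T : ℂ)) (by
      rw [mem_ball, dist_eq_norm] at *
      rwa [show w - (T : ℂ) - z = w - (z + (T : ℂ)) by ring])
    rwa [sub_add_cancel] at h1

lemma conv_off (h : Dat2 ρ f C C0 B K0) {X : ℕ → ℝ} (hX : GoodSeq ρ f X) {z : ℂ}
    (hz : z ∉ ZZ f X) : Tendsto (fun j => UU ρ f (X j) z) atTop (𝓝 (VV ρ f X z)) := by
  have hex : ∃ m, Tendsto (fun j => UU ρ f (X j) z) atTop (𝓝 m) := by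
    rcases hX.dich z with ⟨r, hr, h1⟩ | h1
    · obtain ⟨n0, hn0⟩ := exists_nat_one_div_lt hr
      obtain ⟨n, hn1, hn⟩ : ∃ n : ℕ, 1 ≤ n ∧ 1 / ((n : ℝ) + 1) < r := by
        refine ⟨n0 + 1, by omega, lt_of_le_of_lt ?_ hn0⟩
        apply one_div_le_one_div_of_le (by positivity)
        push_cast; linarith
      obtain ⟨m, hm⟩ := hX.conv n hn1 z
      refine ⟨m / mass (1 / ((n : ℝ) + 1)), ?_⟩
      apply (hm.div_const _).congr'
      filter_upwards [h1] with j hj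
      rw [← AA_eq_UU h (s := 1 / ((n : ℝ) + 1)) (by positivity)
        (fun w hw => hj w (ball_subset_ball hn.le hw))]
      unfold AA
      ring
    · exact absurd h1 hz
  have : VV ρ f X z = limUnder atTop (fun j => UU ρ f (X j) z) := if_neg hz
  rw [this]
  exact tendsto_nhds_limUnder hex

lemma VV_on {X : ℕ → ℝ} {z : ℂ} (hz : z ∈ ZZ f X) : VV ρ f X z = HH ρ f z := if_pos hz

/-- limit of averages near the zeros -/
lemma AA_near (h : Dat2 ρ f C C0 B K0) {X : ℕ → ℝ} (hX : GoodSeq ρ f X) {s : ℝ} (hs : 0 < s)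
    (hs1 : s ≤ 1 / 10) {z z0 : ℂ} (hz0 : z0 ∈ ZZ f X) (hzz : ‖z - z0‖ ≤ 3 * s) {η : ℝ}
    (hη : 0 < η) :
    ∀ᶠ j in atTop, |AA ρ f s (X j) z - HH ρ f z| ≤ 3000 * CB ρ B K0 * (s + η) * EE ρ z := by
  obtain ⟨R, hR⟩ := avg_near h hs hs1 hη
  filter_upwards [hz0 s hs, hX.tX.eventually_ge_atTop (R - z.re)] with j hj hj2
  obtain ⟨w, hw, hw0⟩ := hj
  have h1 := hR (z + (X j : ℂ)) (by simp; linarith) (w + (X j : ℂ)) hw0 (by
    rw [mem_ball, dist_eq_norm] at hw
    rw [show z + (X j : ℂ) - (w + (X j : ℂ)) = (z - z0) - (w - z0) by ring]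
    calc ‖(z - z0) - (w - z0)‖ ≤ ‖z - z0‖ + ‖w - z0‖ := norm_sub_le _ _
      _ ≤ 4 * s := by linarith)
  rw [HH_add, EE_add] at h1
  have e1 : AA ρ f s (X j) z - HH ρ f z = Real.exp (-(ρ * X j)) *
      (coneM s (LL f) (z + (X j : ℂ)) / mass s - Real.exp (ρ * X j) * HH ρ f z) := by
    rw [mul_sub, exp_neg_mul_exp]; rfl
  rw [e1, abs_mul, abs_of_pos (Real.exp_pos _)]
  calc Real.exp (-(ρ * X j)) * |coneM s (LL f) (z + (X j : ℂ)) / mass s - Real.exp (ρ * X j) * HH ρ f z|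
      ≤ Real.exp (-(ρ * X j)) * (3000 * CB ρ B K0 * (s + η) * (Real.exp (ρ * X j) * EE ρ z)) := by
        gcongr
    _ = Real.exp (-(ρ * X j)) * (Real.exp (ρ * X j) * (3000 * CB ρ B K0 * (s + η) * EE ρ z)) := by ring
    _ = _ := exp_neg_mul_exp _ _ _

lemma le_of_forall_eta {a b c : ℝ} (hc : 0 ≤ c) (h : ∀ η > 0, a ≤ c * (b + η)) : a ≤ c * b := by
  apply le_of_forall_pos_le_add
  intro ε hε
  have h1 := h (ε / (c + 1)) (by positivity)
  have h2 : c * (ε / (c + 1)) ≤ ε := by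
    rw [mul_div_assoc', div_le_iff₀ (by positivity)]
    nlinarith
  nlinarith

/-- key estimate: `V` is close to `H` near `ZZ` -/
lemma VV_near (h : Dat2 ρ f C C0 B K0) {X : ℕ → ℝ} (hX : GoodSeq ρ f X) {z z0 : ℂ}
    (hz0 : z0 ∈ ZZ f X) {d : ℝ} (hzz : ‖z - z0‖ ≤ d) (hd : d ≤ 1 / 5) :
    |VV ρ f X z - HH ρ f z| ≤ 3000 * CB ρ B K0 * d * EE ρ z := by
  have hCB := h.CB_nonneg
  have hE := EE_pos ρ z
  have hd0 : 0 ≤ d := (norm_nonneg _).trans hzz
  by_cases hz : z ∈ ZZ f X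
  · rw [VV_on hz, sub_self, abs_zero]; positivity
  · have hne : (ZZ f X).Nonempty := ⟨z0, hz0⟩
    obtain ⟨z1, hz1, hz1d⟩ := (ZZ_closed (f := f) X).exists_infDist_eq_dist hne z
    set d0 := infDist z (ZZ f X) with hd0def
    have hd0pos : 0 < d0 := ((ZZ_closed (f := f) X).notMem_iff_infDist_pos hne).1 hz
    have hd0le : d0 ≤ d := by
      refine (infDist_le_dist_of_mem hz0).trans ?_
      rw [dist_eq_norm]; exact hzz
    set s := d0 / 2 with hs
    have hs0 : 0 < s := by positivity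
    have hoff : ∀ᶠ j in atTop, ∀ w ∈ closedBall z s, GG f (w + (X j : ℂ)) ≠ 0 := by
      apply off_compact hX (isCompact_closedBall z s)
      intro w hw hwZ
      have h1 := infDist_le_dist_of_mem (x := z) hwZ
      rw [mem_closedBall, dist_comm] at hw
      rw [← hd0def] at h1
      linarith
    have key : ∀ η > 0, |VV ρ f X z - HH ρ f z| ≤ (3000 * CB ρ B K0 * EE ρ z) * (s + η) := by
      intro η hη
      have h1 := AA_near h hX hs0 (by linarith) (z := z) hz1 (by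
        rw [← dist_eq_norm, ← hz1d]; linarith) hη
      have h2 := ((conv_off h hX hz).sub_const (HH ρ f z)).abs
      apply le_of_tendsto h2
      filter_upwards [h1, hoff] with j hj hj2
      rw [AA_eq_UU h hs0 (fun w hw => hj2 w (ball_subset_closedBall hw))] at hj
      refine hj.trans (le_of_eq ?_)
      ring
    have h3 := le_of_forall_eta (by positivity) key
    refine h3.trans ?_
    calc 3000 * CB ρ B K0 * EE ρ z * s ≤ 3000 * CB ρ B K0 * EE ρ z * d := by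
          gcongr; linarith
      _ = _ := by ring

/-- averages converge, and their limits are close to `V` -/
lemma AA_tendsto (h : Dat2 ρ f C C0 B K0) {X : ℕ → ℝ} (hX : GoodSeq ρ f X) (n : ℕ) (hn : 10 ≤ n)
    (z : ℂ) : ∃ m : ℝ, Tendsto (fun j => AA ρ f (1 / ((n : ℝ) + 1)) (X j) z) atTop (𝓝 m) ∧
      |m - VV ρ f X z| ≤ 6000 * CB ρ B K0 * (1 / ((n : ℝ) + 1)) * EE ρ z := by
  set s := 1 / ((n : ℝ) + 1) with hs
  have hs0 : 0 < s := by positivity
  have hs1 : s ≤ 1 / 10 := by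
    rw [hs]
    apply one_div_le_one_div_of_le (by norm_num)
    have : (10 : ℝ) ≤ n := by exact_mod_cast hn
    linarith
  have hCB := h.CB_nonneg
  have hE := EE_pos ρ z
  obtain ⟨m, hm⟩ := hX.conv n (by omega) z
  have hm2 : Tendsto (fun j => AA ρ f s (X j) z) atTop (𝓝 (m / mass s)) := by
    apply (hm.div_const (mass s)).congr
    intro j
    unfold AA
    ring
  refine ⟨m / mass s, hm2, ?_⟩
  by_cases hcase : ∃ z0 ∈ ZZ f X, ‖z - z0‖ ≤ s
  · obtain ⟨z0, hz0, hzz⟩ := hcase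
    have h1 : |m / mass s - HH ρ f z| ≤ (3000 * CB ρ B K0 * EE ρ z) * s := by
      apply le_of_forall_eta (by positivity)
      intro η hη
      have h2 := AA_near h hX hs0 hs1 (z := z) hz0 (by linarith) hη
      apply le_of_tendsto ((hm2.sub_const (HH ρ f z)).abs)
      filter_upwards [h2] with j hj
      refine hj.trans (le_of_eq ?_)
      ring
    have h3 := VV_near h hX hz0 hzz (by linarith)
    calc |m / mass s - VV ρ f X z| = |(m / mass s - HH ρ f z) - (VV ρ f X z - HH ρ f z)| := by ring_nf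
      _ ≤ |m / mass s - HH ρ f z| + |VV ρ f X z - HH ρ f z| := abs_sub _ _
      _ ≤ (3000 * CB ρ B K0 * EE ρ z) * s + 3000 * CB ρ B K0 * s * EE ρ z := by gcongr
      _ = _ := by ring
  · push Not at hcase
    have hoff : ∀ᶠ j in atTop, ∀ w ∈ closedBall z s, GG f (w + (X j : ℂ)) ≠ 0 := by
      apply off_compact hX (isCompact_closedBall z s)
      intro w hw hwZ
      have h1 := hcase w hwZ
      rw [mem_closedBall, dist_comm, dist_eq_norm] at hw
      linarith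
    have hz : z ∉ ZZ f X := by
      intro hz
      have := hcase z hz
      rw [sub_self, norm_zero] at this
      linarith
    have h1 : Tendsto (fun j => AA ρ f s (X j) z) atTop (𝓝 (VV ρ f X z)) := by
      apply (conv_off h hX hz).congr'
      filter_upwards [hoff] with j hj
      rw [AA_eq_UU h hs0 (fun w hw => hj w (ball_subset_closedBall hw))]
    rw [tendsto_nhds_unique hm2 h1, sub_self, abs_zero]
    positivity

/-- upper bound by `H` -/
lemma VV_le (h : Dat2 ρ f C C0 B K0) {X : ℕ → ℝ} (hX : GoodSeq ρ f X) (z : ℂ) :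
    VV ρ f X z ≤ HH ρ f z := by
  by_cases hz : z ∈ ZZ f X
  · rw [VV_on hz]
  · have hE := EE_pos ρ z
    have key : ∀ η > 0, VV ρ f X z - HH ρ f z ≤ EE ρ z * (0 + η) := by
      intro η hη
      obtain ⟨R, hR⟩ := upper h hη
      have hoff := off_compact hX (K := {z}) isCompact_singleton (by
        intro w hw; rw [mem_singleton_iff.1 hw]; exact hz)
      have h2 := (conv_off h hX hz).sub_const (HH ρ f z)
      apply le_of_tendsto h2
      filter_upwards [hoff, hX.tX.eventually_ge_atTop (R - z.re)] with j hj hj2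
      have h3 := hR (z + (X j : ℂ)) (by simp; linarith) (hj z rfl)
      rw [HH_add, EE_add] at h3
      unfold UU
      have h4 : Real.exp (-(ρ * X j)) * LL f (z + (X j : ℂ)) ≤
          Real.exp (-(ρ * X j)) * (Real.exp (ρ * X j) * (HH ρ f z + η * EE ρ z)) := by
        gcongr
        linarith
      rw [exp_neg_mul_exp] at h4
      linarith
    have := le_of_forall_eta hE.le key
    linarith

end Pool.Agent.LS
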