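import Pool.Agent.Helper44.LS.Limit

/-! # Boundedness and Lipschitz continuity of the limit function -/

set_option autoImplicit false

open MeasureTheory Filter Topology Set Metric Real

noncomputable section

namespace Pool.Agent.LS

variable {ρ C C0 B K0 : ℝ} {f : ℂ → ℂ}

/-- `L¹` bound constant on unit discs -/
structure BallB (ρ : ℝ) (f : ℂ → ℂ) (C1 : ℝ) : Prop where
  nonneg : 0 ≤ C1
  bd : ∀ z : ℂ, 1 ≤ z.re → ∫ w in closedBall z 1, |LL f w| ≤ C1 * EE ρ z

lemma exists_ballB (h : Dat ρ f C C0) : ∃ C1, BallB ρ f C1 := by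
  obtain ⟨C1, h1, h2⟩ := ball_bound h
  exact ⟨C1, h1, h2⟩

lemma BallB.sub (h : Dat2 ρ f C C0 B K0) {C1 : ℝ} (hb : BallB ρ f C1) {z : ℂ} (hz : 1 ≤ z.re)
    {s : ℝ} (hs : s ≤ 1) : ∫ w in closedBall z s, |LL f w| ≤ C1 * EE ρ z := by
  refine le_trans ?_ (hb.bd z hz)
  apply setIntegral_mono_set (LL_int h z 1).abs
  · filter_upwards with p; exact abs_nonneg _
  · exact (closedBall_subset_closedBall hs).eventuallyLE

/-- bound of the averages -/
lemma AA_bound (h : Dat2 ρ f C C0 B K0) {C1 : ℝ} (hb : BallB ρ f C1) {s : ℝ} (hs : 0 < s)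
    (hs1 : s ≤ 1) {z : ℂ} {T : ℝ} (hT : 1 ≤ z.re + T) :
    |AA ρ f s T z| ≤ C1 / s ^ 2 * EE ρ z := by
  have h1 := cone_sub_const_le h hs (z + (T : ℂ)) 0
  simp only [mul_zero, sub_zero] at h1
  have h2 := hb.sub h (z := z + (T : ℂ)) (by simpa using hT) hs1
  rw [EE_add] at h2
  have hm := mass_pos hs
  have hE := EE_pos ρ z
  have hC1 := hb.nonneg
  unfold AA
  rw [abs_mul, abs_of_pos (Real.exp_pos _), abs_div, abs_of_pos hm]
  calc Real.exp (-(ρ * T)) * (|coneM s (LL f) (z + (T : ℂ))| / mass s)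
      ≤ Real.exp (-(ρ * T)) * ((s * (C1 * (Real.exp (ρ * T) * EE ρ z))) / mass s) := by
        gcongr
        refine h1.trans ?_
        gcongr
    _ = Real.exp (-(ρ * T)) * (Real.exp (ρ * T) * (s * C1 * EE ρ z / mass s)) := by ring
    _ = s * C1 * EE ρ z / mass s := exp_neg_mul_exp _ _ _
    _ ≤ C1 / s ^ 2 * EE ρ z := by
        rw [div_le_iff₀ hm]
        unfold mass
        have h3 : C1 / s ^ 2 * EE ρ z * (π * s ^ 3 / 3) = s * C1 * EE ρ z * (π / 3) := by
          field_simp
        rw [h3]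
        have h4 : (1 : ℝ) ≤ π / 3 := by linarith [pi_gt_three]
        have h5 : 0 ≤ s * C1 * EE ρ z := by positivity
        nlinarith

/-- difference of averages, crude -/
lemma AA_diff (h : Dat2 ρ f C C0 B K0) {C1 : ℝ} (hb : BallB ρ f C1) {s : ℝ} (hs : 0 < s)
    (hs1 : 2 * s ≤ 1) {z z' : ℂ} (hzz : ‖z - z'‖ ≤ s) {T : ℝ} (hT : 1 ≤ z.re + T) :
    |AA ρ f s T z' - AA ρ f s T z| ≤ C1 / s ^ 3 * EE ρ z * ‖z - z'‖ := by
  have h1 := cone_diff h hs (z := z + (T : ℂ)) (z' := z' + (T : ℂ))
    (by rw [add_sub_add_right_eq_sub]; exact hzz) 0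
  simp only [sub_zero] at h1
  rw [add_sub_add_right_eq_sub] at h1
  have h2 := hb.sub h (z := z + (T : ℂ)) (by simpa using hT) hs1
  rw [EE_add] at h2
  have hm := mass_pos hs
  have hE := EE_pos ρ z
  have hC1 := hb.nonneg
  have e1 : AA ρ f s T z' - AA ρ f s T z = Real.exp (-(ρ * T)) *
      ((coneM s (LL f) (z' + (T : ℂ)) - coneM s (LL f) (z + (T : ℂ))) / mass s) := by
    unfold AA; ring
  rw [e1, abs_mul, abs_of_pos (Real.exp_pos _), abs_div, abs_of_pos hm]
  calc Real.exp (-(ρ * T)) * (|coneM s (LL f) (z' + (T : ℂ)) - coneM s (LL f) (z + (T : ℂ))| / mass s)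
      ≤ Real.exp (-(ρ * T)) * ((‖z - z'‖ * (C1 * (Real.exp (ρ * T) * EE ρ z))) / mass s) := by
        gcongr
        refine h1.trans ?_
        gcongr
    _ = Real.exp (-(ρ * T)) * (Real.exp (ρ * T) * (‖z - z'‖ * C1 * EE ρ z / mass s)) := by ring
    _ = ‖z - z'‖ * C1 * EE ρ z / mass s := exp_neg_mul_exp _ _ _
    _ ≤ C1 / s ^ 3 * EE ρ z * ‖z - z'‖ := by
        rw [div_le_iff₀ hm]
        unfold mass
        have h3 : C1 / s ^ 3 * EE ρ z * ‖z - z'‖ * (π * s ^ 3 / 3)
            = ‖z - z'‖ * C1 * EE ρ z * (π / 3) := by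
          field_simp
        rw [h3]
        have h4 : (1 : ℝ) ≤ π / 3 := by linarith [pi_gt_three]
        have h5 : 0 ≤ ‖z - z'‖ * C1 * EE ρ z := by positivity
        nlinarith

/-- zero-free discs -/
lemma off_ball {X : ℕ → ℝ} (hX : GoodSeq ρ f X) {z : ℂ} {s : ℝ}
    (hd : ∀ z0 ∈ ZZ f X, s < ‖z - z0‖) :
    ∀ᶠ j in atTop, ∀ w ∈ closedBall z s, GG f (w + (X j : ℂ)) ≠ 0 := by
  apply off_compact hX (isCompact_closedBall z s)
  intro w hw hwZ
  have h1 := hd w hwZ
  rw [mem_closedBall, dist_comm, dist_eq_norm] at hw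
  linarith

/-- bound of the limit -/
lemma VV_bound (h : Dat2 ρ f C C0 B K0) {C1 : ℝ} (hb : BallB ρ f C1) {X : ℕ → ℝ}
    (hX : GoodSeq ρ f X) (z : ℂ) :
    |VV ρ f X z| ≤ (B + 600 * CB ρ B K0 + 25 * C1) * EE ρ z := by
  have hCB := h.CB_nonneg
  have hE := EE_pos ρ z
  have hC1 := hb.nonneg
  have hB := h.B_nonneg
  by_cases hcase : ∃ z0 ∈ ZZ f X, ‖z - z0‖ ≤ 1 / 5
  · obtain ⟨z0, hz0, hzz⟩ := hcase
    have h1 := VV_near h hX hz0 hzz (le_refl _)
    have h2 := HH_abs h z
    calc |VV ρ f X z| = |(VV ρ f X z - HH ρ f z) + HH ρ f z| := by ring_nf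
      _ ≤ |VV ρ f X z - HH ρ f z| + |HH ρ f z| := abs_add_le _ _
      _ ≤ 3000 * CB ρ B K0 * (1 / 5) * EE ρ z + B * EE ρ z := by gcongr
      _ ≤ _ := by
        have : 0 ≤ 25 * C1 * EE ρ z := by positivity
        nlinarith
  · push Not at hcase
    have hz : z ∉ ZZ f X := by
      intro hz
      have := hcase z hz
      rw [sub_self, norm_zero] at this
      linarith
    have hoff := off_ball hX (z := z) (s := 1 / 5) hcase
    have h2 := (conv_off h hX hz).abs
    have h3 : |VV ρ f X z| ≤ C1 / (1 / 5) ^ 2 * EE ρ z := by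
      apply le_of_tendsto h2
      filter_upwards [hoff, hX.tX.eventually_ge_atTop (1 - z.re)] with j hj hj2
      rw [← AA_eq_UU h (s := 1 / 5) (by norm_num) (fun w hw => hj w (ball_subset_closedBall hw))]
      exact AA_bound h hb (by norm_num) (by norm_num) (by linarith)
    refine h3.trans ?_
    have h4 : 0 ≤ (B + 600 * CB ρ B K0) * EE ρ z := by positivity
    have h5 : C1 / (1 / 5) ^ 2 * EE ρ z = 25 * C1 * EE ρ z := by ring
    rw [h5]
    nlinarith

/-- the local Lipschitz constant -/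
def LipC (ρ B K0 C1 : ℝ) : ℝ :=
  27000 * CB ρ B K0 * (1 + Real.exp (2 * ρ)) + KH ρ B K0 + 8000 * C1

lemma VV_lip (h : Dat2 ρ f C C0 B K0) {C1 : ℝ} (hb : BallB ρ f C1) {X : ℕ → ℝ}
    (hX : GoodSeq ρ f X) {z z' : ℂ} (hzz : ‖z - z'‖ ≤ 1 / 400) :
    |VV ρ f X z' - VV ρ f X z| ≤ LipC ρ B K0 C1 * EE ρ z * ‖z - z'‖ := by
  have hCB := h.CB_nonneg
  have hE := EE_pos ρ z
  have hE' := EE_pos ρ z'
  have hC1 := hb.nonneg
  have hKH := h.KH_nonneg
  have hex := Real.exp_pos (2 * ρ)
  set ε := ‖z - z'‖ with hε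
  have hε0 : 0 ≤ ε := norm_nonneg _
  by_cases hcase : ∃ z0 ∈ ZZ f X, ‖z - z0‖ ≤ 8 * ε
  · -- close to the zeros
    obtain ⟨z0, hz0, hz⟩ := hcase
    have h1 := VV_near h hX hz0 hz (by linarith)
    have hz' : ‖z' - z0‖ ≤ 9 * ε := by
      calc ‖z' - z0‖ = ‖(z - z0) - (z - z')‖ := by congr 1; ring
        _ ≤ ‖z - z0‖ + ‖z - z'‖ := norm_sub_le _ _
        _ ≤ _ := by linarith
    have h2 := VV_near h hX hz0 hz' (by linarith)
    have h3 := HH_lip h (z := z) (w := z') (by linarith)
    have h4 := EE_le h.rho (z := z') (w := z) (by rw [norm_sub_rev]; linarith)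
    have h2' : |VV ρ f X z' - HH ρ f z'| ≤
        3000 * CB ρ B K0 * (9 * ε) * (Real.exp (2 * ρ) * EE ρ z) := h2.trans (by gcongr)
    calc |VV ρ f X z' - VV ρ f X z|
        = |(VV ρ f X z' - HH ρ f z') - (VV ρ f X z - HH ρ f z) - (HH ρ f z - HH ρ f z')| := by
          ring_nf
      _ ≤ |VV ρ f X z' - HH ρ f z'| + |VV ρ f X z - HH ρ f z| + |HH ρ f z - HH ρ f z'| := by
          refine (abs_sub _ _).trans ?_
          gcongr
          exact abs_sub _ _
      _ ≤ 3000 * CB ρ B K0 * (9 * ε) * (Real.exp (2 * ρ) * EE ρ z)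
          + 3000 * CB ρ B K0 * (8 * ε) * EE ρ z + KH ρ B K0 * EE ρ z * ε := by gcongr
      _ ≤ LipC ρ B K0 C1 * EE ρ z * ε := by
          unfold LipC
          have e1 : 0 ≤ 3000 * CB ρ B K0 * EE ρ z * ε := by positivity
          have e2 : 0 ≤ 8000 * C1 * EE ρ z * ε := by positivity
          nlinarith
  · push Not at hcase
    by_cases hcase2 : ∃ z0 ∈ ZZ f X, ‖z - z0‖ ≤ 1 / 5
    · obtain ⟨z0, hz0, hz0d⟩ := hcase2
      have hne : (ZZ f X).Nonempty := ⟨z0, hz0⟩
      obtain ⟨z1, hz1, hz1d⟩ := (ZZ_closed (f := f) X).exists_infDist_eq_dist hne z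
      set d := infDist z (ZZ f X) with hd
      have hdle : d ≤ 1 / 5 := by
        refine (infDist_le_dist_of_mem hz0).trans ?_
        rw [dist_eq_norm]; exact hz0d
      have hdε : 8 * ε < d := by
        rw [hz1d, dist_eq_norm]; exact hcase z1 hz1
      set s := d / 4 with hs
      have hs0 : 0 < s := by linarith
      have hzfree : ∀ z0 ∈ ZZ f X, 2 * s < ‖z - z0‖ := by
        intro w hw
        have h1 := infDist_le_dist_of_mem (x := z) hw
        rw [← hd, dist_eq_norm] at h1
        linarith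
      have hz : z ∉ ZZ f X := by
        intro hz
        have := hzfree z hz
        rw [sub_self, norm_zero] at this
        linarith
      have hz' : z' ∉ ZZ f X := by
        intro hz'
        have := hzfree z' hz'
        rw [← hε] at this
        linarith
      have hoff := off_ball hX hzfree
      have hlim := ((conv_off h hX hz').sub (conv_off h hX hz)).abs
      have key : ∀ η > 0, |VV ρ f X z' - VV ρ f X z| ≤ (24000 * CB ρ B K0 * EE ρ z * ε) * (1 + η) := by
        intro η hη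
        obtain ⟨R, hR⟩ := grad_near h hs0 (by linarith) (η := η * s) (by positivity)
        apply le_of_tendsto hlim
        filter_upwards [hoff, hz1 s hs0, hX.tX.eventually_ge_atTop (R - z.re)] with j hj hj1 hj2
        obtain ⟨w, hw, hw0⟩ := hj1
        have h1 := hR (z + (X j : ℂ)) (by simp; linarith) (w + (X j : ℂ)) hw0 (by
          rw [mem_ball, dist_eq_norm] at hw
          rw [show z + (X j : ℂ) - (w + (X j : ℂ)) = (z - z1) - (w - z1) by ring]
          calc ‖(z - z1) - (w - z1)‖ ≤ ‖z - z1‖ + ‖w - z1‖ := norm_sub_le _ _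
            _ ≤ 8 * s := by rw [← dist_eq_norm, ← hz1d]; linarith) (z' + (X j : ℂ)) (by
          rw [add_sub_add_right_eq_sub, ← hε]; linarith)
        rw [add_sub_add_right_eq_sub, EE_add] at h1
        rw [← AA_eq_UU h hs0 (z := z) (fun w hw => hj w (by
            rw [mem_ball] at hw; rw [mem_closedBall]; linarith)),
          ← AA_eq_UU h hs0 (z := z') (fun w hw => hj w (by
            rw [mem_ball] at hw; rw [mem_closedBall]
            have : dist w z ≤ dist w z' + dist z' z := dist_triangle _ _ _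
            rw [dist_comm z' z, dist_eq_norm z z'] at this
            linarith))]
        have e1 : AA ρ f s (X j) z' - AA ρ f s (X j) z = Real.exp (-(ρ * X j)) *
          (coneM s (LL f) (z' + (X j : ℂ)) / mass s - coneM s (LL f) (z + (X j : ℂ)) / mass s) := by
          unfold AA; ring
        rw [e1, abs_mul, abs_of_pos (Real.exp_pos _)]
        calc Real.exp (-(ρ * X j)) *
            |coneM s (LL f) (z' + (X j : ℂ)) / mass s - coneM s (LL f) (z + (X j : ℂ)) / mass s|
            ≤ Real.exp (-(ρ * X j)) * (24000 * CB ρ B K0 * (1 + η * s / s) *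
              (Real.exp (ρ * X j) * EE ρ z) * ‖z - z'‖) := by gcongr
          _ = Real.exp (-(ρ * X j)) * (Real.exp (ρ * X j) *
              ((24000 * CB ρ B K0 * EE ρ z * ε) * (1 + η * s / s))) := by rw [← hε]; ring
          _ = (24000 * CB ρ B K0 * EE ρ z * ε) * (1 + η * s / s) := exp_neg_mul_exp _ _ _
          _ = (24000 * CB ρ B K0 * EE ρ z * ε) * (1 + η) := by
              rw [mul_div_assoc, div_self hs0.ne', mul_one]
      have h3 := le_of_forall_eta (by positivity) key
      refine h3.trans ?_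
      unfold LipC
      have e1 : 0 ≤ CB ρ B K0 * EE ρ z * ε := by positivity
      have e2 : 0 ≤ 8000 * C1 * EE ρ z * ε := by positivity
      have e3 : 0 ≤ KH ρ B K0 * EE ρ z * ε := by positivity
      have e4 : 0 ≤ CB ρ B K0 * Real.exp (2 * ρ) * EE ρ z * ε := by positivity
      nlinarith
    · push Not at hcase2
      have hz : z ∉ ZZ f X := by
        intro hz
        have := hcase2 z hz
        rw [sub_self, norm_zero] at this
        linarith
      have hz' : z' ∉ ZZ f X := by
        intro hz'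
        have := hcase2 z' hz'
        rw [← hε] at this
        linarith
      have hoff := off_ball hX hcase2
      have hlim := ((conv_off h hX hz').sub (conv_off h hX hz)).abs
      have h3 : |VV ρ f X z' - VV ρ f X z| ≤ C1 / (1 / 20) ^ 3 * EE ρ z * ε := by
        apply le_of_tendsto hlim
        filter_upwards [hoff, hX.tX.eventually_ge_atTop (1 - z.re)] with j hj hj2
        rw [← AA_eq_UU h (s := 1 / 20) (by norm_num) (z := z) (fun w hw => hj w (by
            rw [mem_ball] at hw; rw [mem_closedBall]; linarith)),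
          ← AA_eq_UU h (s := 1 / 20) (by norm_num) (z := z') (fun w hw => hj w (by
            rw [mem_ball] at hw; rw [mem_closedBall]
            have : dist w z ≤ dist w z' + dist z' z := dist_triangle _ _ _
            rw [dist_comm z' z, dist_eq_norm z z'] at this
            linarith))]
        exact AA_diff h hb (by norm_num) (by norm_num) (by rw [← hε]; linarith) (by linarith)
      refine h3.trans ?_
      unfold LipC
      have e1 : 0 ≤ CB ρ B K0 * EE ρ z * ε := by positivity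
      have e3 : 0 ≤ KH ρ B K0 * EE ρ z * ε := by positivity
      have e4 : 0 ≤ CB ρ B K0 * Real.exp (2 * ρ) * EE ρ z * ε := by positivity
      rw [show C1 / (1 / 20) ^ 3 = 8000 * C1 by ring]
      nlinarith

end Pool.Agent.LS
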