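import Pool.Agent.Helper44.LS.Defs

/-! # Indicator: Phragmen-Lindelöf part -/

set_option autoImplicit false

open MeasureTheory Filter Topology Set Asymptotics

noncomputable section

namespace Pool.Agent.LS

/-- the set whose infimum is the indicator (for all real angles). -/
def indSet (ρ : ℝ) (f : ℂ → ℂ) (θ : ℝ) : Set ℝ :=
  {a : ℝ | ∀ᶠ r : ℝ in Filter.atTop,
    ‖f ((r : ℂ) * Complex.exp ((θ : ℂ) * Complex.I))‖ ≤ Real.exp (a * r ^ ρ)}

/-- the indicator -/
def ind (ρ : ℝ) (f : ℂ → ℂ) (θ : ℝ) : ℝ := sInf (indSet ρ f θ)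

/-- growth hypothesis -/
def Growth (ρ : ℝ) (f : ℂ → ℂ) (C : ℝ) : Prop := ∀ z : ℂ, ‖f z‖ ≤ Real.exp (C * (1 + ‖z‖ ^ ρ))

/-- sinusoid -/
def sn (ρ A B φ : ℝ) : ℝ := A * Real.cos (ρ * φ) + B * Real.sin (ρ * φ)

lemma exp_mul_rpow (ρ x : ℝ) : (Real.exp x) ^ ρ = Real.exp (ρ * x) := by
  rw [← Real.exp_mul]; ring_nf

lemma cexp_eq (z : ℂ) : Complex.exp z = (Real.exp z.re : ℂ) * Complex.exp ((z.im : ℂ) * Complex.I) := by
  conv_lhs => rw [← Complex.re_add_im z]
  rw [Complex.exp_add, Complex.ofReal_exp]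

lemma growth_log {ρ C : ℝ} {f : ℂ → ℂ} (hC : Growth ρ f C) (z : ℂ) :
    ‖f (Complex.exp z)‖ ≤ Real.exp (C * (1 + Real.exp (ρ * z.re))) := by
  have := hC (Complex.exp z)
  rwa [Complex.norm_exp, exp_mul_rpow] at this

lemma growth_nonneg {ρ C : ℝ} {f : ℂ → ℂ} (hC : Growth ρ f C) : Growth ρ f (max C 0) := by
  intro z
  refine (hC z).trans (Real.exp_le_exp.2 ?_)
  gcongr
  exact le_max_left _ _

/-- the exponential of the sinusoid -/
lemma norm_exp_sn (ρ A B : ℝ) (z : ℂ) :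
    ‖Complex.exp (-((A : ℂ) - B * Complex.I) * Complex.exp (ρ * z))‖
      = Real.exp (-(Real.exp (ρ * z.re) * sn ρ A B z.im)) := by
  rw [Complex.norm_exp]
  congr 1
  have h1 : (Complex.exp (ρ * z)).re = Real.exp (ρ * z.re) * Real.cos (ρ * z.im) := by
    rw [Complex.exp_re]; simp
  have h2 : (Complex.exp (ρ * z)).im = Real.exp (ρ * z.re) * Real.sin (ρ * z.im) := by
    rw [Complex.exp_im]; simp
  have h3 : (-((A : ℂ) - B * Complex.I) * Complex.exp (ρ * z)).re
      = -(A * (Complex.exp (ρ * z)).re + B * (Complex.exp (ρ * z)).im) := by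
    generalize Complex.exp (ρ * z) = w
    simp
    ring
  rw [h3, h1, h2]
  unfold sn
  ring

lemma pl_strip {ρ : ℝ} (hρ : 0 < ρ) {f : ℂ → ℂ} (hf : Differentiable ℂ f) {C : ℝ}
    (hC : Growth ρ f C) {α β : ℝ} (hαβ : α < β) (hβ : β - α < Real.pi / ρ) (A B : ℝ)
    (ha : sn ρ A B α ∈ indSet ρ f α) (hb : sn ρ A B β ∈ indSet ρ f β) :
    ∃ K : ℝ, 0 < K ∧ ∀ z : ℂ, α ≤ z.im → z.im ≤ β →
      ‖f (Complex.exp z)‖ ≤ K * Real.exp (Real.exp (ρ * z.re) * sn ρ A B z.im) := by
  set F : ℂ → ℂ := fun z => f (Complex.exp z) *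
    Complex.exp (-((A : ℂ) - B * Complex.I) * Complex.exp (ρ * z)) with hF
  have hFn : ∀ z, ‖F z‖ = ‖f (Complex.exp z)‖ *
      Real.exp (-(Real.exp (ρ * z.re) * sn ρ A B z.im)) := by
    intro z; rw [hF]; simp only [norm_mul, norm_exp_sn]
  have hC0 := growth_nonneg hC
  set C' := max C 0 with hC'
  have hC'0 : 0 ≤ C' := le_max_right _ _
  have hsn : ∀ φ, |sn ρ A B φ| ≤ |A| + |B| := by
    intro φ
    unfold sn
    calc |A * Real.cos (ρ * φ) + B * Real.sin (ρ * φ)|
        ≤ |A * Real.cos (ρ * φ)| + |B * Real.sin (ρ * φ)| := abs_add_le _ _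
      _ = |A| * |Real.cos (ρ * φ)| + |B| * |Real.sin (ρ * φ)| := by rw [abs_mul, abs_mul]
      _ ≤ |A| * 1 + |B| * 1 := by
          gcongr
          · exact Real.abs_cos_le_one _
          · exact Real.abs_sin_le_one _
      _ = |A| + |B| := by ring
  -- general bound
  have hgen : ∀ z, ‖F z‖ ≤ Real.exp ((C' + (|A| + |B|)) * (1 + Real.exp (ρ * z.re))) := by
    intro z
    rw [hFn]
    have h1 := growth_log hC0 z
    have h2 : -(Real.exp (ρ * z.re) * sn ρ A B z.im) ≤ (|A| + |B|) * (1 + Real.exp (ρ * z.re)) := by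
      have := hsn z.im
      have h3 := abs_le.1 this
      have h4 : 0 < Real.exp (ρ * z.re) := Real.exp_pos _
      nlinarith [abs_nonneg A, abs_nonneg B]
    calc ‖f (Complex.exp z)‖ * Real.exp (-(Real.exp (ρ * z.re) * sn ρ A B z.im))
        ≤ Real.exp (C' * (1 + Real.exp (ρ * z.re))) *
            Real.exp ((|A| + |B|) * (1 + Real.exp (ρ * z.re))) := by
          gcongr
      _ = _ := by rw [← Real.exp_add]; ring_nf
  -- bound on a side
  have hside : ∀ γ : ℝ, sn ρ A B γ ∈ indSet ρ f γ → ∃ K : ℝ, ∀ z : ℂ, z.im = γ → ‖F z‖ ≤ K := by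
    intro γ hγ
    have hγ' : ∀ᶠ r : ℝ in Filter.atTop,
      ‖f ((r : ℂ) * Complex.exp ((γ : ℂ) * Complex.I))‖ ≤ Real.exp (sn ρ A B γ * r ^ ρ) := hγ
    obtain ⟨R, hR⟩ := Filter.eventually_atTop.1 hγ'
    set R' := max R 1 with hR'
    refine ⟨max 1 (Real.exp ((C' + (|A| + |B|)) * (1 + Real.exp (ρ * Real.log R')))), ?_⟩
    intro z hz
    by_cases hzR : R' ≤ Real.exp z.re
    · apply le_max_of_le_left
      rw [hFn, hz, cexp_eq, hz]
      have := hR (Real.exp z.re) ((le_max_left _ _).trans hzR)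
      rw [exp_mul_rpow] at this
      calc ‖f ((Real.exp z.re : ℂ) * Complex.exp ((γ : ℂ) * Complex.I))‖ *
          Real.exp (-(Real.exp (ρ * z.re) * sn ρ A B γ))
          ≤ Real.exp (sn ρ A B γ * Real.exp (ρ * z.re)) *
            Real.exp (-(Real.exp (ρ * z.re) * sn ρ A B γ)) := by
            gcongr
        _ = 1 := by rw [← Real.exp_add]; ring_nf; exact Real.exp_zero
    · apply le_max_of_le_right
      refine (hgen z).trans (Real.exp_le_exp.2 ?_)
      push Not at hzR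
      have : z.re ≤ Real.log R' := by
        rw [Real.le_log_iff_exp_le (lt_of_lt_of_le one_pos (le_max_right _ _))]
        exact hzR.le
      gcongr
  obtain ⟨K₁, hK₁⟩ := hside α ha
  obtain ⟨K₂, hK₂⟩ := hside β hb
  refine ⟨max (max K₁ K₂) 1, lt_of_lt_of_le one_pos (le_max_right _ _), ?_⟩
  intro z hz1 hz2
  have key : ‖F z‖ ≤ max (max K₁ K₂) 1 := by
    apply PhragmenLindelof.horizontal_strip (a := α) (b := β) (f := F)
    · apply Differentiable.diffContOnCl
      rw [hF]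
      fun_prop
    · refine ⟨ρ, ?_, 2 * (C' + (|A| + |B|)), ?_⟩
      · rw [lt_div_iff₀ (by linarith)]
        rw [lt_div_iff₀ hρ] at hβ
        linarith
      · apply IsBigO.of_bound 1
        refine Filter.Eventually.of_forall (fun w => ?_)
        rw [one_mul, Real.norm_eq_abs, Real.abs_exp]
        refine (hgen w).trans (Real.exp_le_exp.2 ?_)
        have h1 : 1 ≤ Real.exp (ρ * |w.re|) := Real.one_le_exp (by positivity)
        have h2 : Real.exp (ρ * w.re) ≤ Real.exp (ρ * |w.re|) := by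
          apply Real.exp_le_exp.2; gcongr; exact le_abs_self _
        have h3 : 0 ≤ C' + (|A| + |B|) := by positivity
        nlinarith
    · intro w hw
      exact (hK₁ w hw).trans ((le_max_left _ _).trans (le_max_left _ _))
    · intro w hw
      exact (hK₂ w hw).trans ((le_max_right _ _).trans (le_max_left _ _))
    · exact hz1
    · exact hz2
  rw [hFn] at key
  have hpos : 0 < Real.exp (Real.exp (ρ * z.re) * sn ρ A B z.im) := Real.exp_pos _
  calc ‖f (Complex.exp z)‖ = ‖f (Complex.exp z)‖ *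
        Real.exp (-(Real.exp (ρ * z.re) * sn ρ A B z.im)) *
        Real.exp (Real.exp (ρ * z.re) * sn ρ A B z.im) := by
        rw [mul_assoc, ← Real.exp_add]; simp
    _ ≤ _ := by gcongr

end Pool.Agent.LS
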