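import Pool.Agent.Helper44.LS.Radial
import Pool.Agent.Helper44.LS.PL

/-! # Integrability of `log ‖f (exp z)‖` -/

set_option autoImplicit false

open MeasureTheory Filter Topology Set Metric Real

noncomputable section

namespace Pool.Agent.LS

/-- `L z = log ‖f (exp z)‖` -/
def LL (f : ℂ → ℂ) (z : ℂ) : ℝ := Real.log ‖f (Complex.exp z)‖

lemma LL_measurable {f : ℂ → ℂ} (hf : Differentiable ℂ f) : Measurable (LL f) := by
  unfold LL
  exact (Real.measurable_log).comp
    ((hf.continuous.comp Complex.continuous_exp).norm.measurable)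

lemma LL_per (f : ℂ → ℂ) (z : ℂ) : LL f (z + 2 * π * Complex.I) = LL f z := by
  unfold LL; rw [Complex.exp_add, Complex.exp_two_pi_mul_I, mul_one]

/-- real-coordinate version -/
def LR (f : ℂ → ℂ) (p : ℝ × ℝ) : ℝ := LL f ((p.1 : ℂ) + (p.2 : ℂ) * Complex.I)

lemma LR_measurable {f : ℂ → ℂ} (hf : Differentiable ℂ f) : Measurable (LR f) := by
  unfold LR
  exact (LL_measurable hf).comp (by fun_prop : Continuous fun p : ℝ × ℝ =>
    (p.1 : ℂ) + (p.2 : ℂ) * Complex.I).measurable

lemma LR_per (f : ℂ → ℂ) (x : ℝ) : Function.Periodic (fun t => LR f (x, t)) (2 * π) := by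
  intro t
  unfold LR
  simp only
  rw [← LL_per f ((x : ℂ) + (t : ℂ) * Complex.I)]
  congr 1
  push_cast
  ring

lemma LR_eq_circle (f : ℂ → ℂ) (x t : ℝ) :
    LR f (x, t) = Real.log ‖f (circleMap 0 (Real.exp x) t)‖ := by
  unfold LR LL
  simp only
  rw [Complex.exp_add, circleMap_zero, Complex.ofReal_exp]

lemma LR_intervalIntegrable {f : ℂ → ℂ} (hf : Differentiable ℂ f) (x a b : ℝ) :
    IntervalIntegrable (fun t => LR f (x, t)) volume a b := by
  have h1 : CircleIntegrable (fun z => Real.log ‖f z‖) 0 (Real.exp x) :=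
    MeromorphicOn.circleIntegrable_log_norm (fun z _ => (hf.analyticAt z).meromorphicAt)
  have h2 : IntervalIntegrable (fun t => LR f (x, t)) volume 0 (0 + 2 * π) := by
    rw [zero_add]
    have : (fun t => LR f (x, t)) = fun t => Real.log ‖f (circleMap 0 (Real.exp x) t)‖ := by
      funext t; exact LR_eq_circle f x t
    rw [this]
    exact h1
  exact (LR_per f x).intervalIntegrable (by positivity) h2 a b

/-- the column bound -/
def colB (C C0 ρ x : ℝ) : ℝ := 4 * π * (max C 0 * (1 + Real.exp (ρ * x))) + 2 * π * (C0 * (1 + |x|))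

lemma col_bound {ρ C C0 : ℝ} {f : ℂ → ℂ} (hf : Differentiable ℂ f) (hC : Growth ρ f C)
    (hC0 : ∀ r : ℝ, 0 < r →
      -(C0 * (1 + |Real.log r|)) ≤ circleAverage (fun z => Real.log ‖f z‖) 0 r) (x : ℝ) :
    ∫ t in (0 : ℝ)..(2 * π), |LR f (x, t)| ≤ colB C C0 ρ x := by
  set M := max C 0 * (1 + Real.exp (ρ * x)) with hM
  have hM0 : 0 ≤ M := by positivity
  have hle : ∀ t, LR f (x, t) ≤ M := by
    intro t
    unfold LR LL
    simp only
    by_cases h : f (Complex.exp ((x : ℂ) + (t : ℂ) * Complex.I)) = 0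
    · rw [h]; simpa using hM0
    · rw [Real.log_le_iff_le_exp (norm_pos_iff.2 h)]
      have := growth_log (growth_nonneg hC) ((x : ℂ) + (t : ℂ) * Complex.I)
      simpa [hM] using this
  have habs : ∀ t, |LR f (x, t)| ≤ 2 * M - LR f (x, t) := by
    intro t
    have := hle t
    rw [abs_le]
    constructor <;> linarith
  have hi := LR_intervalIntegrable hf x 0 (2 * π)
  have h1 : ∫ t in (0 : ℝ)..(2 * π), |LR f (x, t)| ≤
      ∫ t in (0 : ℝ)..(2 * π), (2 * M - LR f (x, t)) := by
    apply intervalIntegral.integral_mono_on (by positivity) hi.abs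
      ((intervalIntegrable_const).sub hi)
    intro t _
    exact habs t
  have h2 : ∫ t in (0 : ℝ)..(2 * π), LR f (x, t)
      = 2 * π * circleAverage (fun z => Real.log ‖f z‖) 0 (Real.exp x) := by
    unfold circleAverage
    rw [smul_eq_mul]
    have : ∀ t, LR f (x, t) = Real.log ‖f (circleMap 0 (Real.exp x) t)‖ := LR_eq_circle f x
    simp_rw [this]
    field_simp
  have h3 := hC0 (Real.exp x) (Real.exp_pos x)
  rw [Real.log_exp] at h3
  rw [intervalIntegral.integral_sub intervalIntegrable_const hi, h2,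
    intervalIntegral.integral_const, smul_eq_mul] at h1
  unfold colB
  rw [← hM]
  have hpi : 0 < π := pi_pos
  nlinarith

lemma col_bound_N {f : ℂ → ℂ} (hf : Differentiable ℂ f) (x c : ℝ) (N : ℕ) :
    ∫ t in Icc c (c + N * (2 * π)), |LR f (x, t)| = N * ∫ t in (0 : ℝ)..(2 * π), |LR f (x, t)| := by
  have hper : Function.Periodic (fun t => |LR f (x, t)|) (2 * π) := by
    intro t; simp only [LR_per f x t]
  have h0 : (0 : ℝ) ≤ N * (2 * π) := by positivity
  rw [integral_Icc_eq_integral_Ioc, ← intervalIntegral.integral_of_le (by linarith)]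
  have h1 := hper.intervalIntegral_add_zsmul_eq (N : ℤ) c
    (fun t₁ t₂ => (LR_intervalIntegrable hf x t₁ t₂).abs)
  simp only [natCast_zsmul, nsmul_eq_mul] at h1
  rw [h1]
  have h2 := hper.intervalIntegral_add_eq c 0
  rw [zero_add] at h2
  rw [h2]

lemma strip_integrable {ρ C C0 : ℝ} {f : ℂ → ℂ} (hf : Differentiable ℂ f) (hC : Growth ρ f C)
    (hC0 : ∀ r : ℝ, 0 < r →
      -(C0 * (1 + |Real.log r|)) ≤ circleAverage (fun z => Real.log ‖f z‖) 0 r)
    (a b c : ℝ) (N : ℕ) :
    IntegrableOn (LR f) (Icc a b ×ˢ Icc c (c + N * (2 * π))) := by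
  have hm : (volume : Measure (ℝ × ℝ)) = (volume : Measure ℝ).prod volume := rfl
  rw [IntegrableOn, hm, ← Measure.prod_restrict]
  rw [integrable_prod_iff (LR_measurable hf).aestronglyMeasurable]
  constructor
  · filter_upwards with x
    have := (LR_intervalIntegrable hf x c (c + N * (2 * π)))
    rwa [intervalIntegrable_iff_integrableOn_Icc_of_le
      (by have : (0 : ℝ) ≤ N * (2 * π) := by positivity
          linarith)] at this
  · have hcont : Continuous (fun x => (N : ℝ) * colB C C0 ρ x) := by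
      unfold colB; fun_prop
    have hdom : IntegrableOn (fun x => (N : ℝ) * colB C C0 ρ x) (Icc a b) :=
      hcont.integrableOn_Icc
    refine Integrable.mono' hdom ?_ ?_
    · exact ((LR_measurable hf).aestronglyMeasurable.norm).integral_prod_right'
    · filter_upwards with x
      rw [Real.norm_eq_abs, abs_of_nonneg (by positivity)]
      simp_rw [Real.norm_eq_abs]
      rw [col_bound_N hf]
      gcongr
      exact col_bound hf hC hC0 x

lemma strip_bound {ρ C C0 : ℝ} {f : ℂ → ℂ} (hf : Differentiable ℂ f) (hC : Growth ρ f C)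
    (hC0 : ∀ r : ℝ, 0 < r →
      -(C0 * (1 + |Real.log r|)) ≤ circleAverage (fun z => Real.log ‖f z‖) 0 r)
    (a b c : ℝ) (N : ℕ) {w : ℝ → ℝ} (hw : Continuous w) (hw0 : ∀ x, 0 ≤ w x) :
    ∫ p in Icc a b ×ˢ Icc c (c + N * (2 * π)), w p.1 * |LR f p| ≤
      ∫ x in Icc a b, w x * (N * colB C C0 ρ x) := by
  have hm : (volume : Measure (ℝ × ℝ)) = (volume : Measure ℝ).prod volume := rfl
  have hint := strip_integrable hf hC hC0 a b c N
  have hint2 : IntegrableOn (fun p : ℝ × ℝ => w p.1 * |LR f p|)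
      (Icc a b ×ˢ Icc c (c + N * (2 * π))) := by
    apply IntegrableOn.continuousOn_mul (K := Icc a b ×ˢ Icc c (c + N * (2 * π)))
      (g := fun p : ℝ × ℝ => w p.1) (by fun_prop) hint.abs
    exact isCompact_Icc.prod isCompact_Icc
  rw [hm] at hint2 ⊢
  rw [setIntegral_prod _ hint2]
  have hcont : Continuous (fun x => w x * ((N : ℝ) * colB C C0 ρ x)) := by
    unfold colB; fun_prop
  apply setIntegral_mono_on _ hcont.integrableOn_Icc measurableSet_Icc
  · intro x _
    simp only
    rw [integral_const_mul, col_bound_N hf]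
    have := hw0 x
    gcongr
    exact col_bound hf hC hC0 x
  · have h5 : Integrable (fun p : ℝ × ℝ => w p.1 * |LR f p|)
          ((volume.restrict (Icc a b)).prod (volume.restrict (Icc c (c + N * (2 * π))))) := by
        rw [Measure.prod_restrict]; exact hint2
    exact h5.integral_prod_left

end Pool.Agent.LS
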