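import Pool.Agent.Helper44.LS.Circle

/-! # Cone kernel and polar coordinates -/

set_option autoImplicit false

open MeasureTheory Filter Topology Set Metric Real

noncomputable section

namespace Pool.Agent.LS

/-- the cone kernel -/
def cone (δ : ℝ) (w : ℂ) : ℝ := max (δ - ‖w‖) 0

lemma cone_nonneg (δ : ℝ) (w : ℂ) : 0 ≤ cone δ w := le_max_right _ _

lemma cone_le {δ : ℝ} (hδ : 0 ≤ δ) (w : ℂ) : cone δ w ≤ δ :=
  max_le (by linarith [norm_nonneg w]) hδ

lemma cone_eq_zero {δ : ℝ} {w : ℂ} (h : δ ≤ ‖w‖) : cone δ w = 0 :=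
  max_eq_right (by linarith)

lemma cone_eq {δ : ℝ} {w : ℂ} (h : ‖w‖ ≤ δ) : cone δ w = δ - ‖w‖ :=
  max_eq_left (by linarith)

lemma le_cone (δ : ℝ) (w : ℂ) : δ - ‖w‖ ≤ cone δ w := le_max_left _ _

lemma cone_lip (δ : ℝ) (w w' : ℂ) : |cone δ w - cone δ w'| ≤ ‖w - w'‖ := by
  unfold cone
  calc |max (δ - ‖w‖) 0 - max (δ - ‖w'‖) 0| ≤ |(δ - ‖w‖) - (δ - ‖w'‖)| :=
        abs_max_sub_max_le_abs _ _ _
    _ = |‖w'‖ - ‖w‖| := by ring_nf
    _ ≤ ‖w' - w‖ := abs_norm_sub_norm_le _ _
    _ = ‖w - w'‖ := norm_sub_rev _ _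

@[fun_prop] lemma cone_continuous (δ : ℝ) : Continuous (cone δ) := by
  unfold cone; fun_prop

lemma cone_neg (δ : ℝ) (w : ℂ) : cone δ (-w) = cone δ w := by unfold cone; rw [norm_neg]

lemma cone_sub_comm (δ : ℝ) (w z : ℂ) : cone δ (w - z) = cone δ (z - w) := by
  rw [← neg_sub, cone_neg]

/-- the mass of the cone kernel -/
def mass (δ : ℝ) : ℝ := π * δ ^ 3 / 3

/-- unnormalised cone average -/
def coneM (δ : ℝ) (U : ℂ → ℝ) (z : ℂ) : ℝ := ∫ w, cone δ (w - z) * U w

lemma integral_Ioo_eq (G : ℂ → ℝ) (z : ℂ) (r : ℝ) :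
    ∫ θ in Ioo (-π) π, G (circleMap z r θ) = 2 * π * circleAverage G z r := by
  rw [← integral_Ioc_eq_integral_Ioo, ← intervalIntegral.integral_of_le (by linarith [pi_pos])]
  unfold circleAverage
  have h1 : Function.Periodic (fun θ => G (circleMap z r θ)) (2 * π) := by
    intro θ; simp only [periodic_circleMap z r θ]
  have h2 := h1.intervalIntegral_add_eq (-π) 0
  rw [show -π + 2 * π = π by ring, zero_add] at h2
  rw [h2, smul_eq_mul]
  field_simp

/-- the product integrability in polar coordinates -/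
lemma polar_integrable {F : ℂ → ℝ} (hF : Measurable F) (hint : Integrable F) :
    IntegrableOn (fun p : ℝ × ℝ => p.1 • F (Complex.polarCoord.symm p)) polarCoord.target := by
  constructor
  · refine AEStronglyMeasurable.smul (f := fun p : ℝ × ℝ => p.1)
      (g := fun p : ℝ × ℝ => F (Complex.polarCoord.symm p)) ?_ ?_
    · exact measurable_fst.aestronglyMeasurable
    · have h1 : Measurable (fun p : ℝ × ℝ => Complex.polarCoord.symm p) := by
        have : (fun p : ℝ × ℝ => Complex.polarCoord.symm p)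
            = fun p : ℝ × ℝ => (p.1 : ℂ) * (Real.cos p.2 + Real.sin p.2 * Complex.I) := by
          funext p; exact Complex.polarCoord_symm_apply p
        rw [this]
        exact (by fun_prop : Continuous fun p : ℝ × ℝ =>
          (p.1 : ℂ) * (Real.cos p.2 + Real.sin p.2 * Complex.I)).measurable
      exact (hF.comp h1).aestronglyMeasurable
  · have h1 := Complex.lintegral_comp_polarCoord_symm (fun w => ‖F w‖ₑ)
    have h2 : ∫⁻ p in polarCoord.target, ‖p.1 • F (Complex.polarCoord.symm p)‖ₑ
        = ∫⁻ p in polarCoord.target, ENNReal.ofReal p.1 • ‖F (Complex.polarCoord.symm p)‖ₑ := by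
      apply setLIntegral_congr_fun polarCoord.open_target.measurableSet
      intro p hp
      have hp1 : 0 < p.1 := by
        rw [polarCoord_target] at hp; exact hp.1
      simp only
      rw [enorm_smul, Real.enorm_eq_ofReal hp1.le, smul_eq_mul]
    show ∫⁻ p in polarCoord.target, ‖p.1 • F (Complex.polarCoord.symm p)‖ₑ < ⊤
    rw [h2, h1]
    exact hint.2

lemma integrableOn_Ioo_of_continuous {F : ℝ → ℝ} (h : Continuous F) (a b : ℝ) :
    IntegrableOn F (Ioo a b) := (h.integrableOn_Icc).mono_set Ioo_subset_Icc_self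

lemma polar_symm_eq (p : ℝ × ℝ) : Complex.polarCoord.symm p = circleMap 0 p.1 p.2 := by
  rw [Complex.polarCoord_symm_apply, circleMap_zero, Complex.exp_mul_I, Complex.ofReal_cos,
    Complex.ofReal_sin]

/-- polar formula with the radial weight `K` -/
lemma integral_polar {G : ℂ → ℝ} (hG : Measurable G) {K : ℝ → ℝ} (hK : Measurable K) {z : ℂ}
    (hint : Integrable (fun w => K ‖w‖ * G (z + w))) :
    IntegrableOn (fun r => r * K r * (2 * π * circleAverage G z r)) (Ioi 0) ∧
    ∫ w, K ‖w‖ * G (z + w) = ∫ r in Ioi 0, r * K r * (2 * π * circleAverage G z r) := by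
  set F : ℂ → ℝ := fun w => K ‖w‖ * G (z + w) with hFdef
  have hF : Measurable F := (hK.comp measurable_norm).mul (hG.comp (measurable_const_add z))
  have hpi := polar_integrable hF hint
  have h1 := Complex.integral_comp_polarCoord_symm F
  have hmeas : (volume : Measure (ℝ × ℝ)) = (volume : Measure ℝ).prod volume := rfl
  rw [polarCoord_target, hmeas] at hpi h1
  have hinner : ∀ r ∈ Ioi (0 : ℝ), ∫ θ in Ioo (-π) π, r • F (Complex.polarCoord.symm (r, θ))
      = r * K r * (2 * π * circleAverage G z r) := by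
    intro r hr
    have hr' : (0 : ℝ) < r := hr
    rw [← integral_Ioo_eq, ← integral_const_mul]
    apply setIntegral_congr_fun measurableSet_Ioo
    intro θ _
    simp only [hFdef, polar_symm_eq, smul_eq_mul]
    have h2 : ‖circleMap 0 r θ‖ = r := by
      rw [norm_circleMap_zero, abs_of_pos hr']
    have h3 : z + circleMap 0 r θ = circleMap z r θ := by simp [circleMap]
    rw [h2, h3]
    ring
  constructor
  · have h4 : Integrable (fun r => ∫ θ, r • F (Complex.polarCoord.symm (r, θ))
        ∂(volume.restrict (Ioo (-π) π))) (volume.restrict (Ioi 0)) := by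
      have h5 : Integrable (fun p : ℝ × ℝ => p.1 • F (Complex.polarCoord.symm p))
          ((volume.restrict (Ioi 0)).prod (volume.restrict (Ioo (-π) π))) := by
        rw [Measure.prod_restrict]; exact hpi
      exact h5.integral_prod_left
    apply h4.congr
    filter_upwards [ae_restrict_mem measurableSet_Ioi] with r hr
    exact hinner r hr
  · rw [← h1, setIntegral_prod _ hpi]
    exact setIntegral_congr_fun measurableSet_Ioi hinner

lemma cone_integrable {G : ℂ → ℝ} {z : ℂ} {δ : ℝ}
    (hint : IntegrableOn G (closedBall z δ)) :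
    Integrable (fun w => cone δ (w - z) * G w) := by
  have h1 : (fun w => cone δ (w - z) * G w)
      = (closedBall z δ).indicator (fun w => cone δ (w - z) * G w) := by
    funext w
    by_cases hw : w ∈ closedBall z δ
    · rw [indicator_of_mem hw]
    · rw [indicator_of_notMem hw]
      rw [mem_closedBall, dist_eq_norm, not_le] at hw
      rw [cone_eq_zero hw.le, zero_mul]
  rw [h1, integrable_indicator_iff measurableSet_closedBall]
  apply Integrable.bdd_mul (c := |δ|) hint
  · exact (by fun_prop : Continuous fun w => cone δ (w - z)).aestronglyMeasurable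
  · filter_upwards with w
    rw [Real.norm_eq_abs, abs_of_nonneg (cone_nonneg _ _)]
    unfold cone
    apply max_le _ (abs_nonneg _)
    linarith [norm_nonneg (w - z), le_abs_self δ]

lemma coneM_polar {G : ℂ → ℝ} (hG : Measurable G) {z : ℂ} {δ : ℝ} (hδ : 0 < δ)
    (hint : IntegrableOn G (closedBall z δ)) :
    IntegrableOn (fun r => r * (δ - r) * (2 * π * circleAverage G z r)) (Ioo 0 δ) ∧
    coneM δ G z = ∫ r in Ioo 0 δ, r * (δ - r) * (2 * π * circleAverage G z r) := by
  have h0 := cone_integrable hint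
  have h1 : Integrable (fun w => (fun r => max (δ - r) 0) ‖w‖ * G (z + w)) := by
    have := h0.comp_add_left z
    simpa [cone, add_sub_cancel_left] using this
  obtain ⟨hA, hB⟩ := integral_polar hG (K := fun r => max (δ - r) 0)
    (by fun_prop) h1
  have h2 : coneM δ G z = ∫ w, (fun r => max (δ - r) 0) ‖w‖ * G (z + w) := by
    unfold coneM
    rw [← integral_add_left_eq_self _ z]
    simp [cone, add_sub_cancel_left]
  have hsub : Ioo 0 δ ⊆ Ioi (0 : ℝ) := Ioo_subset_Ioi_self
  have heq : ∀ r ∈ Ioo 0 δ, r * max (δ - r) 0 * (2 * π * circleAverage G z r)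
      = r * (δ - r) * (2 * π * circleAverage G z r) := by
    intro r hr
    rw [max_eq_left (by linarith [hr.2])]
  constructor
  · exact (hA.mono_set hsub).congr_fun heq measurableSet_Ioo
  · rw [h2, hB, ← setIntegral_congr_fun measurableSet_Ioo heq]
    apply setIntegral_eq_of_subset_of_forall_sdiff_eq_zero measurableSet_Ioi hsub
    intro r hr
    have h3 : δ ≤ r := by
      by_contra hcon
      push Not at hcon
      exact hr.2 ⟨hr.1, hcon⟩
    rw [max_eq_right (by linarith)]
    ring

lemma integral_rdr {δ : ℝ} (hδ : 0 < δ) (a : ℝ) :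
    ∫ r in Ioo 0 δ, r * (δ - r) * (2 * π * a) = mass δ * a := by
  rw [← integral_Ioc_eq_integral_Ioo, ← intervalIntegral.integral_of_le hδ.le,
    intervalIntegral.integral_mul_const]
  have h1 : ∫ r in (0 : ℝ)..δ, r * (δ - r) = δ ^ 3 / 6 := by
    have : ∀ r : ℝ, r * (δ - r) = δ * r - r ^ 2 := fun r => by ring
    simp_rw [this]
    rw [intervalIntegral.integral_sub (Continuous.intervalIntegrable (by fun_prop) _ _)
        (Continuous.intervalIntegrable (by fun_prop) _ _),
      intervalIntegral.integral_const_mul, integral_id, integral_pow]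
    norm_num
    ring
  rw [h1]
  unfold mass
  ring

/-- `∫ cone = mass` -/
lemma integral_cone {δ : ℝ} (hδ : 0 < δ) (z : ℂ) : ∫ w, cone δ (w - z) = mass δ := by
  have h := (coneM_polar (G := fun _ => (1 : ℝ)) measurable_const (z := z) hδ
    (integrableOn_const (measure_closedBall_lt_top.ne))).2
  simp only [circleAverage_const] at h
  rw [integral_rdr hδ] at h
  unfold coneM at h
  simpa using h

lemma mass_pos {δ : ℝ} (hδ : 0 < δ) : 0 < mass δ := by
  unfold mass; positivity

/-- sub-mean inequality for cone averages -/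
lemma coneM_ge_of_circleAverage {G : ℂ → ℝ} (hG : Measurable G) {z : ℂ} {δ : ℝ} (hδ : 0 < δ)
    (hint : IntegrableOn G (closedBall z δ)) {a : ℝ}
    (ha : ∀ r ∈ Ioo 0 δ, a ≤ circleAverage G z r) : mass δ * a ≤ coneM δ G z := by
  obtain ⟨h1, h2⟩ := coneM_polar hG hδ hint
  rw [h2, ← integral_rdr hδ]
  apply setIntegral_mono_on _ h1 measurableSet_Ioo
  · intro r hr
    have h3 : 0 ≤ r * (δ - r) := mul_nonneg hr.1.le (by linarith [hr.2])
    have := ha r hr
    gcongr
  · apply integrableOn_Ioo_of_continuous; fun_prop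

lemma coneM_eq_of_circleAverage {G : ℂ → ℝ} (hG : Measurable G) {z : ℂ} {δ : ℝ} (hδ : 0 < δ)
    (hint : IntegrableOn G (closedBall z δ)) {a : ℝ}
    (ha : ∀ r ∈ Ioo 0 δ, circleAverage G z r = a) : coneM δ G z = mass δ * a := by
  obtain ⟨h1, h2⟩ := coneM_polar hG hδ hint
  rw [h2, ← integral_rdr hδ]
  apply setIntegral_congr_fun measurableSet_Ioo
  intro r hr
  simp only [ha r hr]

/-- logarithmic mass -/
def logmass (δ : ℝ) : ℝ := ∫ r in Ioo 0 δ, r * (δ - r) * (2 * π * Real.log r)

lemma coneM_ge_of_circleAverage_log {G : ℂ → ℝ} (hG : Measurable G) {z : ℂ} {δ : ℝ} (hδ : 0 < δ)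
    (hint : IntegrableOn G (closedBall z δ)) {a : ℝ}
    (ha : ∀ r ∈ Ioo 0 δ, a + Real.log r ≤ circleAverage G z r) :
    mass δ * a + logmass δ ≤ coneM δ G z := by
  obtain ⟨h1, h2⟩ := coneM_polar hG hδ hint
  have hi1 : IntegrableOn (fun r => r * (δ - r) * (2 * π * a)) (Ioo 0 δ) := by
    apply integrableOn_Ioo_of_continuous; fun_prop
  have hi2 : IntegrableOn (fun r => r * (δ - r) * (2 * π * Real.log r)) (Ioo 0 δ) := by
    have : (fun r => r * (δ - r) * (2 * π * Real.log r))
        = fun r => (δ - r) * (2 * π) * (r * Real.log r) := by funext r; ring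
    rw [this]
    apply integrableOn_Ioo_of_continuous
    exact (by fun_prop : Continuous fun r : ℝ => (δ - r) * (2 * π)).mul Real.continuous_mul_log
  rw [h2, ← integral_rdr hδ, logmass, ← integral_add hi1 hi2]
  apply setIntegral_mono_on (hi1.add hi2) h1 measurableSet_Ioo
  intro r hr
  have h3 : 0 ≤ r * (δ - r) := mul_nonneg hr.1.le (by linarith [hr.2])
  have := ha r hr
  calc r * (δ - r) * (2 * π * a) + r * (δ - r) * (2 * π * Real.log r)
      = r * (δ - r) * (2 * π * (a + Real.log r)) := by ring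
    _ ≤ _ := by gcongr

end Pool.Agent.LS
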