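import Pool.Agent.Helper31.LS.BlockH
import Pool.Agent.Helper44.LS.Class
import Pool.Agent.Helper46.FrG.BlockG

/-! MP_1fef1a_an, own theorem beside S04023: the structure of the limit functions (helper44; the proof of
`blockH_str` is the proof of helper31's `blockH` with more information in the conclusion). -/

set_option autoImplicit false

open MeasureTheory Filter Topology Set

namespace Pool.Agent.Helper44.LS2

open Pool.Agent.Helper42.Fr Pool.Agent.Helper31.LS

/-- **BLOCK H**: from the limit class back to the frozen statement. -/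
theorem blockH_str (ρ : ℝ) (hρ : 0 < ρ) (f : ℂ → ℂ) (C : ℝ) (h : ℝ → ℝ) (hT : Traj ρ C h (vhat ρ f))
    (hG : ∀ (X : ℕ → ℝ) (v : ℝ × ℝ → ℝ), Tendsto X atTop atTop → InC ρ C h v →
      ConvD (fun j => shift (X j) (vhat ρ f)) v → ∀ x t, v (x, t) = v (0, t)) :
    ∀ v : ℂ → ℝ, MeasureTheory.LocallyIntegrable v MeasureTheory.volume →
    ∀ t : ℕ → ℝ, Filter.Tendsto t Filter.atTop Filter.atTop →
    (∀ φ : ℂ → ℝ, ContDiff ℝ (⊤ : ℕ∞) φ → HasCompactSupport φ →
      Filter.Tendsto
        (fun j : ℕ => ∫ z : ℂ, (t j ^ ρ)⁻¹ * Real.log ‖f ((t j : ℂ) * z)‖ * φ z)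
        Filter.atTop (nhds (∫ z : ℂ, v z * φ z))) →
    ∃ g : ℝ → ℝ, InC ρ C h (fun z => g z.2) ∧
      ∀ᵐ z : ℂ ∂MeasureTheory.volume, v z = g (Complex.arg z) * ‖z‖ ^ ρ := by
  intro v hv t ht hconv
  -- the subsequence
  have hX : Tendsto (fun j => Real.log (t j)) atTop atTop := Real.tendsto_log_atTop.comp ht
  obtain ⟨ψ, hψ, v₀, hv₀, hc₀⟩ := hT.cpt (fun j => Real.log (t j)) hX
  have hXψ : Tendsto (fun j => Real.log (t (ψ j))) atTop atTop := hX.comp hψ.tendsto_atTop
  have hhom := hG (fun j => Real.log (t (ψ j))) v₀ hXψ hv₀ hc₀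
  set g : ℝ → ℝ := fun s => v₀ (0, s) with hg
  have hv₀g : v₀ = fun z => g z.2 := by
    funext ⟨x, s⟩
    exact hhom x s
  have hgc : Continuous g := hv₀.cont.comp (continuous_const.prodMk continuous_id)
  have hgp : ∀ s, g (s + 2 * Real.pi) = g s := fun s => hv₀.per 0 s
  refine ⟨g, by rw [← hv₀g]; exact hv₀, ?_⟩
  · -- the identity of the distributional limits off the origin
    set w : ℂ → ℝ := fun z => g (Complex.arg z) * ‖z‖ ^ ρ with hw
    have hwm : Measurable w := by
      exact (hgc.measurable.comp Complex.measurable_arg).mul (measurable_norm.pow_const ρ)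
    have hwl : LocallyIntegrable w := by
      rw [locallyIntegrable_iff]
      intro K hK
      have hb : IntegrableOn (fun z : ℂ => C * ‖z‖ ^ ρ) K := by
        refine ContinuousOn.integrableOn_compact hK ?_
        exact (continuous_const.mul (continuous_norm.rpow_const fun _ => Or.inr hρ.le)).continuousOn
      refine hb.mono' hwm.aestronglyMeasurable (Eventually.of_forall fun z => ?_)
      rw [hw]
      simp only
      rw [Real.norm_eq_abs, abs_mul, abs_of_nonneg (Real.rpow_nonneg (norm_nonneg _) _)]
      exact mul_le_mul_of_nonneg_right (hv₀.bdd _) (Real.rpow_nonneg (norm_nonneg _) _)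
    have hU : IsOpen ({0}ᶜ : Set ℂ) := isOpen_compl_singleton
    have hkey : ∀ φ : ℂ → ℝ, ContDiff ℝ (⊤ : ℕ∞) φ → HasCompactSupport φ → tsupport φ ⊆ ({0}ᶜ : Set ℂ) →
        ∫ z, v z * φ z = ∫ z, w z * φ z := by
      intro φ hφ hφc hφs
      have h0 : (0 : ℂ) ∉ tsupport φ := fun hmem => (hφs hmem) rfl
      have h1 := (hconv φ hφ hφc).comp hψ.tendsto_atTop
      have h2 := hc₀ (Psi ρ φ) (Psi_cont ρ hφ.continuous) (Psi_cpt ρ hφc h0)
      have h3 : (∫ z, v₀ z * Psi ρ φ z) = ∫ z, w z * φ z := by
        rw [hv₀g]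
        exact (int_hom hgc hgp hφ.continuous hφc h0).symm
      rw [h3] at h2
      refine tendsto_nhds_unique_of_eventuallyEq h1 h2 ?_
      filter_upwards [(ht.comp hψ.tendsto_atTop).eventually_gt_atTop 0] with j hj
      exact int_vhat hT.locInt hT.per hφ.continuous hφc h0 hj
    have hae := hU.ae_eq_zero_of_integral_contDiff_smul_eq_zero (f := fun z => v z - w z) (μ := volume)
      ((hv.sub hwl).locallyIntegrableOn _) (fun φ hφ hφc hφs => by
        have h1 := hkey φ hφ hφc hφs
        have i1 : Integrable (fun z => v z * φ z) := by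
          have := hv.integrable_smul_left_of_hasCompactSupport hφ.continuous hφc
          refine this.congr (Eventually.of_forall fun z => ?_)
          simp [mul_comm]
        have i2 : Integrable (fun z => w z * φ z) := by
          have := hwl.integrable_smul_left_of_hasCompactSupport hφ.continuous hφc
          refine this.congr (Eventually.of_forall fun z => ?_)
          simp [mul_comm]
        have : (fun z => φ z • (v z - w z)) = fun z => v z * φ z - w z * φ z := by
          funext z
          simp only [smul_eq_mul]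
          ring
        rw [this, integral_sub i1 i2, h1, sub_self])
    have hne : ∀ᵐ z : ℂ, z ∈ ({0}ᶜ : Set ℂ) := by
      rw [ae_iff]
      simp
    filter_upwards [hae, hne] with z hz1 hz2
    have := hz1 hz2
    linarith


end Pool.Agent.Helper44.LS2
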