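import Pool.Agent.Helper44.LS.LogInt
import Pool.Agent.Helper42.Fr.Calc
import Pool.Agent.Helper42.Fr.Moll

/-! # `log ‖G‖` is subharmonic in the sense of distributions -/

set_option autoImplicit false

open MeasureTheory Filter Topology Set Metric Real

noncomputable section

namespace Pool.Agent.LS

open Pool.Agent.Helper42.Fr (Sm dX dT Lst IsTest cpt_dX cpt_dT)

/-- complex coordinate -/
def cx (z : ℝ × ℝ) : ℂ := (z.1 : ℂ) + (z.2 : ℂ) * Complex.I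

lemma cx_continuous : Continuous cx := by unfold cx; fun_prop

lemma cx_contDiff : ContDiff ℝ (⊤ : ℕ∞) cx := by
  unfold cx
  have h1 : ContDiff ℝ (⊤ : ℕ∞) (fun z : ℝ × ℝ => (z.1 : ℂ)) :=
    Complex.ofRealCLM.contDiff.comp contDiff_fst
  have h2 : ContDiff ℝ (⊤ : ℕ∞) (fun z : ℝ × ℝ => (z.2 : ℂ)) :=
    Complex.ofRealCLM.contDiff.comp contDiff_snd
  exact h1.add (h2.mul contDiff_const)

def ra (G : ℂ → ℂ) (z : ℝ × ℝ) : ℝ := (G (cx z)).re
def rb (G : ℂ → ℂ) (z : ℝ × ℝ) : ℝ := (G (cx z)).im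

lemma G_contDiff {G : ℂ → ℂ} (hG : Differentiable ℂ G) :
    ContDiff ℝ (⊤ : ℕ∞) (fun z : ℝ × ℝ => G (cx z)) := by
  have h : ContDiff ℝ (⊤ : ℕ∞) G := (hG.contDiff).restrict_scalars ℝ
  exact h.comp cx_contDiff

lemma ra_sm {G : ℂ → ℂ} (hG : Differentiable ℂ G) : Sm (ra G) :=
  Complex.reCLM.contDiff.comp (G_contDiff hG)

lemma rb_sm {G : ℂ → ℂ} (hG : Differentiable ℂ G) : Sm (rb G) :=
  Complex.imCLM.contDiff.comp (G_contDiff hG)

lemma hasDerivAt_Gx {G : ℂ → ℂ} (hG : Differentiable ℂ G) (x t : ℝ) :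
    HasDerivAt (fun y : ℝ => G (cx (y, t))) (deriv G (cx (x, t))) x := by
  have h1 : HasDerivAt (fun w : ℂ => G (w + (t : ℂ) * Complex.I)) (deriv G (cx (x, t))) (x : ℂ) := by
    have := (hG (cx (x, t))).hasDerivAt
    unfold cx at this ⊢
    simpa using HasDerivAt.comp_add_const (x : ℂ) ((t : ℂ) * Complex.I) this
  exact h1.comp_ofReal

lemma hasDerivAt_Gt {G : ℂ → ℂ} (hG : Differentiable ℂ G) (x t : ℝ) :
    HasDerivAt (fun s : ℝ => G (cx (x, s))) (deriv G (cx (x, t)) * Complex.I) t := by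
  have h1 : HasDerivAt (fun w : ℂ => G ((x : ℂ) + w * Complex.I))
      (deriv G (cx (x, t)) * Complex.I) (t : ℂ) := by
    have h2 := (hG (cx (x, t))).hasDerivAt
    have h3 : HasDerivAt (fun w : ℂ => (x : ℂ) + w * Complex.I) Complex.I (t : ℂ) := by
      simpa using ((hasDerivAt_id (t : ℂ)).mul_const Complex.I).const_add (x : ℂ)
    exact HasDerivAt.comp (t : ℂ) h2 h3
  exact h1.comp_ofReal

lemma dX_ra {G : ℂ → ℂ} (hG : Differentiable ℂ G) (z : ℝ × ℝ) :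
    dX (ra G) z = (deriv G (cx z)).re := by
  obtain ⟨x, t⟩ := z
  exact Pool.Agent.Helper42.Fr.dX_eq_of_hasDerivAt ((ra_sm hG).diff _)
    (Complex.reCLM.hasFDerivAt.comp_hasDerivAt x (hasDerivAt_Gx hG x t))

lemma dX_rb {G : ℂ → ℂ} (hG : Differentiable ℂ G) (z : ℝ × ℝ) :
    dX (rb G) z = (deriv G (cx z)).im := by
  obtain ⟨x, t⟩ := z
  exact Pool.Agent.Helper42.Fr.dX_eq_of_hasDerivAt ((rb_sm hG).diff _)
    (Complex.imCLM.hasFDerivAt.comp_hasDerivAt x (hasDerivAt_Gx hG x t))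

lemma dT_ra {G : ℂ → ℂ} (hG : Differentiable ℂ G) (z : ℝ × ℝ) :
    dT (ra G) z = -(deriv G (cx z)).im := by
  obtain ⟨x, t⟩ := z
  have h := Pool.Agent.Helper42.Fr.dT_eq_of_hasDerivAt ((ra_sm hG).diff _)
    (Complex.reCLM.hasFDerivAt.comp_hasDerivAt t (hasDerivAt_Gt hG x t))
  rw [h]; simp

lemma dT_rb {G : ℂ → ℂ} (hG : Differentiable ℂ G) (z : ℝ × ℝ) :
    dT (rb G) z = (deriv G (cx z)).re := by
  obtain ⟨x, t⟩ := z
  have h := Pool.Agent.Helper42.Fr.dT_eq_of_hasDerivAt ((rb_sm hG).diff _)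
    (Complex.imCLM.hasFDerivAt.comp_hasDerivAt t (hasDerivAt_Gt hG x t))
  rw [h]; simp

/-- the regularised logarithm -/
def us (ε : ℝ) (G : ℂ → ℂ) (z : ℝ × ℝ) : ℝ := (ra G z) ^ 2 + (rb G z) ^ 2 + ε
def ue (ε : ℝ) (G : ℂ → ℂ) (z : ℝ × ℝ) : ℝ := 1 / 2 * Real.log (us ε G z)

lemma us_pos {ε : ℝ} (hε : 0 < ε) (G : ℂ → ℂ) (z : ℝ × ℝ) : 0 < us ε G z := by
  unfold us; positivity

lemma us_sm {ε : ℝ} {G : ℂ → ℂ} (hG : Differentiable ℂ G) : Sm (us ε G) :=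
  (((ra_sm hG).pow 2).add ((rb_sm hG).pow 2)).add contDiff_const

lemma ue_sm {ε : ℝ} (hε : 0 < ε) {G : ℂ → ℂ} (hG : Differentiable ℂ G) : Sm (ue ε G) := by
  unfold ue
  exact contDiff_const.mul ((us_sm hG).log (fun z => (us_pos hε G z).ne'))

def uA (G : ℂ → ℂ) (z : ℝ × ℝ) : ℝ := ra G z * dX (ra G) z + rb G z * dX (rb G) z
def uB (G : ℂ → ℂ) (z : ℝ × ℝ) : ℝ := ra G z * dT (ra G) z + rb G z * dT (rb G) z

lemma uA_sm {G : ℂ → ℂ} (hG : Differentiable ℂ G) : Sm (uA G) :=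
  ((ra_sm hG).mul (ra_sm hG).dX).add ((rb_sm hG).mul (rb_sm hG).dX)

lemma uB_sm {G : ℂ → ℂ} (hG : Differentiable ℂ G) : Sm (uB G) :=
  ((ra_sm hG).mul (ra_sm hG).dT).add ((rb_sm hG).mul (rb_sm hG).dT)

lemma hasDerivAt_us_x {ε : ℝ} {G : ℂ → ℂ} (hG : Differentiable ℂ G) (x t : ℝ) :
    HasDerivAt (fun y => us ε G (y, t)) (2 * uA G (x, t)) x := by
  have h := ((((ra_sm hG).hX x t).pow 2).add (((rb_sm hG).hX x t).pow 2)).add_const ε
  exact h.congr_deriv (by unfold uA; ring)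

lemma hasDerivAt_us_t {ε : ℝ} {G : ℂ → ℂ} (hG : Differentiable ℂ G) (x t : ℝ) :
    HasDerivAt (fun y => us ε G (x, y)) (2 * uB G (x, t)) t := by
  have h := ((((ra_sm hG).hT x t).pow 2).add (((rb_sm hG).hT x t).pow 2)).add_const ε
  exact h.congr_deriv (by unfold uB; ring)

lemma dX_ue {ε : ℝ} (hε : 0 < ε) {G : ℂ → ℂ} (hG : Differentiable ℂ G) :
    dX (ue ε G) = fun z => uA G z / us ε G z := by
  funext ⟨x, t⟩
  apply Pool.Agent.Helper42.Fr.dX_eq_of_hasDerivAt ((ue_sm hε hG).diff _)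
  have h := ((hasDerivAt_us_x (ε := ε) hG x t).log (us_pos hε G _).ne').const_mul (1 / 2)
  exact h.congr_deriv (by ring)

lemma dT_ue {ε : ℝ} (hε : 0 < ε) {G : ℂ → ℂ} (hG : Differentiable ℂ G) :
    dT (ue ε G) = fun z => uB G z / us ε G z := by
  funext ⟨x, t⟩
  apply Pool.Agent.Helper42.Fr.dT_eq_of_hasDerivAt ((ue_sm hε hG).diff _)
  have h := ((hasDerivAt_us_t (ε := ε) hG x t).log (us_pos hε G _).ne').const_mul (1 / 2)
  exact h.congr_deriv (by ring)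

/-- the Laplacian of the regularised logarithm -/
lemma lap_ue {ε : ℝ} (hε : 0 < ε) {G : ℂ → ℂ} (hG : Differentiable ℂ G) (z : ℝ × ℝ) :
    dX (dX (ue ε G)) z + dT (dT (ue ε G)) z
      = 2 * ε * ‖deriv G (cx z)‖ ^ 2 / (us ε G z) ^ 2 := by
  obtain ⟨x, t⟩ := z
  rw [dX_ue hε hG, dT_ue hε hG]
  have hpos := us_pos hε G (x, t)
  have hsm1 : Sm (fun z => uA G z / us ε G z) :=
    (uA_sm hG).div (us_sm hG) (fun z => (us_pos hε G z).ne')
  have hsm2 : Sm (fun z => uB G z / us ε G z) :=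
    (uB_sm hG).div (us_sm hG) (fun z => (us_pos hε G z).ne')
  have h1 := Pool.Agent.Helper42.Fr.dX_eq_of_hasDerivAt (hsm1.diff (x, t))
    (((uA_sm hG).hX x t).div (hasDerivAt_us_x (ε := ε) hG x t) hpos.ne')
  have h2 := Pool.Agent.Helper42.Fr.dT_eq_of_hasDerivAt (hsm2.diff (x, t))
    (((uB_sm hG).hT x t).div (hasDerivAt_us_t (ε := ε) hG x t) hpos.ne')
  rw [h1, h2]
  -- derivatives of A and B
  have hA : dX (uA G) (x, t) = (dX (ra G) (x, t)) ^ 2 + ra G (x, t) * dX (dX (ra G)) (x, t)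
      + ((dX (rb G) (x, t)) ^ 2 + rb G (x, t) * dX (dX (rb G)) (x, t)) := by
    apply Pool.Agent.Helper42.Fr.dX_eq_of_hasDerivAt ((uA_sm hG).diff _)
    have := (((ra_sm hG).hX x t).mul ((ra_sm hG).dX.hX x t)).add
      (((rb_sm hG).hX x t).mul ((rb_sm hG).dX.hX x t))
    exact this.congr_deriv (by ring)
  have hB : dT (uB G) (x, t) = (dT (ra G) (x, t)) ^ 2 + ra G (x, t) * dT (dT (ra G)) (x, t)
      + ((dT (rb G) (x, t)) ^ 2 + rb G (x, t) * dT (dT (rb G)) (x, t)) := by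
    apply Pool.Agent.Helper42.Fr.dT_eq_of_hasDerivAt ((uB_sm hG).diff _)
    have := (((ra_sm hG).hT x t).mul ((ra_sm hG).dT.hT x t)).add
      (((rb_sm hG).hT x t).mul ((rb_sm hG).dT.hT x t))
    exact this.congr_deriv (by ring)
  have hla : dX (dX (ra G)) (x, t) + dT (dT (ra G)) (x, t) = 0 := by
    have e1 : dX (ra G) = dT (rb G) := by funext z; rw [dX_ra hG, dT_rb hG]
    have e2 : dT (ra G) = fun z => -dX (rb G) z := by funext z; rw [dT_ra hG, dX_rb hG]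
    have e3 : dT (fun z => -dX (rb G) z) (x, t) = -dT (dX (rb G)) (x, t) :=
      Pool.Agent.Helper42.Fr.dT_eq_of_hasDerivAt ((rb_sm hG).dX.neg.diff _)
        ((rb_sm hG).dX.hT x t).neg
    rw [e2, e3, e1, ← Pool.Agent.Helper42.Fr.dT_dX_comm (rb_sm hG)]
    ring
  have hlb : dX (dX (rb G)) (x, t) + dT (dT (rb G)) (x, t) = 0 := by
    have e1 : dT (rb G) = dX (ra G) := by funext z; rw [dX_ra hG, dT_rb hG]
    have e2 : dX (rb G) = fun z => -dT (ra G) z := by funext z; rw [dT_ra hG, dX_rb hG]; ring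
    have e3 : dX (fun z => -dT (ra G) z) (x, t) = -dX (dT (ra G)) (x, t) :=
      Pool.Agent.Helper42.Fr.dX_eq_of_hasDerivAt ((ra_sm hG).dT.neg.diff _)
        ((ra_sm hG).dT.hX x t).neg
    rw [e1, Pool.Agent.Helper42.Fr.dT_dX_comm (ra_sm hG), e2, e3]
    ring
  have hn : ‖deriv G (cx (x, t))‖ ^ 2 = (deriv G (cx (x, t))).re ^ 2 + (deriv G (cx (x, t))).im ^ 2 := by
    rw [← Complex.normSq_eq_norm_sq, Complex.normSq_apply]; ring
  have hAA : uA G (x, t) = ra G (x, t) * (deriv G (cx (x, t))).re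
      + rb G (x, t) * (deriv G (cx (x, t))).im := by
    unfold uA; rw [dX_ra hG, dX_rb hG]
  have hBB : uB G (x, t) = -ra G (x, t) * (deriv G (cx (x, t))).im
      + rb G (x, t) * (deriv G (cx (x, t))).re := by
    unfold uB; rw [dT_ra hG, dT_rb hG]; ring
  have hs : us ε G (x, t) = (ra G (x, t)) ^ 2 + (rb G (x, t)) ^ 2 + ε := rfl
  rw [← add_div]
  congr 1
  rw [hA, hB, hAA, hBB, dX_ra hG, dX_rb hG, dT_ra hG, dT_rb hG, hn]
  have hla' : dX (dX (ra G)) (x, t) = - dT (dT (ra G)) (x, t) := by linarith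
  have hlb' : dX (dX (rb G)) (x, t) = - dT (dT (rb G)) (x, t) := by linarith
  rw [hla', hlb', hs]
  ring

/-- integration by parts -/
lemma ibp_dX {u χ : ℝ × ℝ → ℝ} (hu : Sm u) (hχ : IsTest χ) :
    ∫ z, u z * dX χ z = -∫ z, dX u z * χ z := by
  apply integral_mul_fderiv_eq_neg_fderiv_mul_of_integrable
  · exact (hu.dX.cont.mul hχ.smooth.continuous).integrable_of_hasCompactSupport
      hχ.cpt.mul_left
  · exact (hu.cont.mul (Sm.dX hχ.smooth).cont).integrable_of_hasCompactSupport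
      (cpt_dX hχ.cpt).mul_left
  · exact (hu.cont.mul hχ.smooth.continuous).integrable_of_hasCompactSupport
      hχ.cpt.mul_left
  · exact fun z _ => hu.diff z
  · exact fun z _ => (show Sm χ from hχ.smooth).diff z

lemma ibp_dT {u χ : ℝ × ℝ → ℝ} (hu : Sm u) (hχ : IsTest χ) :
    ∫ z, u z * dT χ z = -∫ z, dT u z * χ z := by
  apply integral_mul_fderiv_eq_neg_fderiv_mul_of_integrable
  · exact (hu.dT.cont.mul hχ.smooth.continuous).integrable_of_hasCompactSupport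
      hχ.cpt.mul_left
  · exact (hu.cont.mul (Sm.dT hχ.smooth).cont).integrable_of_hasCompactSupport
      (cpt_dT hχ.cpt).mul_left
  · exact (hu.cont.mul hχ.smooth.continuous).integrable_of_hasCompactSupport
      hχ.cpt.mul_left
  · exact fun z _ => hu.diff z
  · exact fun z _ => (show Sm χ from hχ.smooth).diff z

lemma test_dX {χ : ℝ × ℝ → ℝ} (hχ : IsTest χ) : IsTest (dX χ) :=
  ⟨Sm.dX hχ.smooth, cpt_dX hχ.cpt⟩

lemma test_dT {χ : ℝ × ℝ → ℝ} (hχ : IsTest χ) : IsTest (dT χ) :=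
  ⟨Sm.dT hχ.smooth, cpt_dT hχ.cpt⟩

/-- Laplacian -/
def lap (χ : ℝ × ℝ → ℝ) (z : ℝ × ℝ) : ℝ := dX (dX χ) z + dT (dT χ) z

lemma lap_cont {χ : ℝ × ℝ → ℝ} (hχ : IsTest χ) : Continuous (lap χ) :=
  (test_dX (test_dX hχ)).smooth.continuous.add (test_dT (test_dT hχ)).smooth.continuous

lemma lap_cpt {χ : ℝ × ℝ → ℝ} (hχ : IsTest χ) : HasCompactSupport (lap χ) :=
  HasCompactSupport.add (test_dX (test_dX hχ)).cpt (test_dT (test_dT hχ)).cpt

lemma ibp_lap {u χ : ℝ × ℝ → ℝ} (hu : Sm u) (hχ : IsTest χ) :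
    ∫ z, u z * lap χ z = ∫ z, lap u z * χ z := by
  unfold lap
  have i1 : Integrable (fun z => u z * dX (dX χ) z) :=
    (hu.cont.mul (test_dX (test_dX hχ)).smooth.continuous).integrable_of_hasCompactSupport
      (test_dX (test_dX hχ)).cpt.mul_left
  have i2 : Integrable (fun z => u z * dT (dT χ) z) :=
    (hu.cont.mul (test_dT (test_dT hχ)).smooth.continuous).integrable_of_hasCompactSupport
      (test_dT (test_dT hχ)).cpt.mul_left
  have i3 : Integrable (fun z => dX (dX u) z * χ z) :=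
    (hu.dX.dX.cont.mul hχ.smooth.continuous).integrable_of_hasCompactSupport hχ.cpt.mul_left
  have i4 : Integrable (fun z => dT (dT u) z * χ z) :=
    (hu.dT.dT.cont.mul hχ.smooth.continuous).integrable_of_hasCompactSupport hχ.cpt.mul_left
  simp_rw [mul_add, add_mul]
  rw [integral_add i1 i2, integral_add i3 i4, ibp_dX hu (test_dX hχ), ibp_dX hu.dX hχ,
    ibp_dT hu (test_dT hχ), ibp_dT hu.dT hχ]
  ring

end Pool.Agent.LS
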