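import Pool.Agent.Helper44.LS.Subharm

/-! # `log ‖G‖` is subharmonic in the sense of distributions, part 2 -/

set_option autoImplicit false

open MeasureTheory Filter Topology Set Metric Real

noncomputable section

namespace Pool.Agent.LS

open Pool.Agent.Helper42.Fr (Sm dX dT Lst IsTest cpt_dX cpt_dT)

lemma us_eq (ε : ℝ) (G : ℂ → ℂ) (z : ℝ × ℝ) : us ε G z = ‖G (cx z)‖ ^ 2 + ε := by
  unfold us ra rb
  rw [← Complex.normSq_eq_norm_sq, Complex.normSq_apply]; ring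

lemma log_norm_eq {G : ℂ → ℂ} {z : ℝ × ℝ} : Real.log ‖G (cx z)‖ = 1 / 2 * Real.log (‖G (cx z)‖ ^ 2) := by
  rw [Real.log_pow]; push_cast; ring

lemma ue_bound {ε : ℝ} (hε : 0 < ε) (hε1 : ε ≤ 1) {G : ℂ → ℂ} {z : ℝ × ℝ} (hz : G (cx z) ≠ 0) :
    |ue ε G z| ≤ |Real.log ‖G (cx z)‖| + |ue 1 G z| := by
  have hn : 0 < ‖G (cx z)‖ ^ 2 := by
    have := norm_pos_iff.2 hz; positivity
  have h1 : Real.log ‖G (cx z)‖ ≤ ue ε G z := by
    rw [log_norm_eq, ue, us_eq]
    have : Real.log (‖G (cx z)‖ ^ 2) ≤ Real.log (‖G (cx z)‖ ^ 2 + ε) :=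
      Real.log_le_log hn (by linarith)
    linarith
  have h2 : ue ε G z ≤ ue 1 G z := by
    rw [ue, us_eq, ue, us_eq]
    have : Real.log (‖G (cx z)‖ ^ 2 + ε) ≤ Real.log (‖G (cx z)‖ ^ 2 + 1) :=
      Real.log_le_log (by positivity) (by linarith)
    linarith
  rw [abs_le]
  constructor
  · linarith [neg_abs_le (Real.log ‖G (cx z)‖), abs_nonneg (ue 1 G z)]
  · linarith [le_abs_self (ue 1 G z), abs_nonneg (Real.log ‖G (cx z)‖)]

lemma ue_tendsto {G : ℂ → ℂ} {z : ℝ × ℝ} (hz : G (cx z) ≠ 0) :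
    Tendsto (fun n : ℕ => ue (1 / ((n : ℝ) + 1)) G z) atTop (𝓝 (Real.log ‖G (cx z)‖)) := by
  have hn : 0 < ‖G (cx z)‖ ^ 2 := by
    have := norm_pos_iff.2 hz; positivity
  rw [log_norm_eq]
  unfold ue
  apply Tendsto.const_mul
  have h1 : Tendsto (fun n : ℕ => us (1 / ((n : ℝ) + 1)) G z) atTop (𝓝 (‖G (cx z)‖ ^ 2)) := by
    simp_rw [us_eq]
    have := (tendsto_one_div_add_atTop_nhds_zero_nat (𝕜 := ℝ)).const_add (‖G (cx z)‖ ^ 2)
    simpa using this
  exact (Real.continuousAt_log hn.ne').tendsto.comp h1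

lemma locInt_abs {X : Type*} [MeasurableSpace X] [TopologicalSpace X] {μ : Measure X} {f : X → ℝ}
    (h : LocallyIntegrable f μ) : LocallyIntegrable (fun x => |f x|) μ := fun x => by
  obtain ⟨s, hs, h1⟩ := h x
  exact ⟨s, hs, h1.abs⟩

lemma ue_integral_tendsto {G : ℂ → ℂ} (hG : Differentiable ℂ G)
    (hint : LocallyIntegrable (fun z => Real.log ‖G (cx z)‖))
    (hae : ∀ᵐ z : ℝ × ℝ, G (cx z) ≠ 0) {F : ℝ × ℝ → ℝ} (hF : Continuous F)
    (hFc : HasCompactSupport F) :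
    Tendsto (fun n : ℕ => ∫ z, ue (1 / ((n : ℝ) + 1)) G z * F z) atTop
      (𝓝 (∫ z, Real.log ‖G (cx z)‖ * F z)) := by
  apply tendsto_integral_of_dominated_convergence
    (fun z => (|Real.log ‖G (cx z)‖| + |ue 1 G z|) * |F z|)
  · intro n
    have hpos : (0 : ℝ) < 1 / ((n : ℝ) + 1) := by positivity
    exact ((ue_sm hpos hG).cont.mul hF).aestronglyMeasurable
  · have h1 : LocallyIntegrable (fun z => |Real.log ‖G (cx z)‖| + |ue 1 G z|) :=
      (locInt_abs hint).add ((ue_sm one_pos hG).cont.abs).locallyIntegrable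
    exact h1.integrable_smul_right_of_hasCompactSupport hF.abs hFc.abs
  · intro n
    have hpos : (0 : ℝ) < 1 / ((n : ℝ) + 1) := by positivity
    have hle : 1 / ((n : ℝ) + 1) ≤ 1 := by
      rw [div_le_one (by positivity)]
      have : (0 : ℝ) ≤ n := by positivity
      linarith
    filter_upwards [hae] with z hz
    rw [norm_mul, Real.norm_eq_abs, Real.norm_eq_abs]
    gcongr
    exact ue_bound hpos hle hz
  · filter_upwards [hae] with z hz
    exact (ue_tendsto hz).mul_const _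

theorem sub_log {G : ℂ → ℂ} (hG : Differentiable ℂ G)
    (hint : LocallyIntegrable (fun z => Real.log ‖G (cx z)‖))
    (hae : ∀ᵐ z : ℝ × ℝ, G (cx z) ≠ 0) {χ : ℝ × ℝ → ℝ} (hχ : IsTest χ) (h0 : ∀ z, 0 ≤ χ z) :
    0 ≤ ∫ z, Real.log ‖G (cx z)‖ * lap χ z := by
  apply ge_of_tendsto (ue_integral_tendsto hG hint hae (lap_cont hχ) (lap_cpt hχ))
  filter_upwards with n
  have hpos : (0 : ℝ) < 1 / ((n : ℝ) + 1) := by positivity
  rw [ibp_lap (ue_sm hpos hG) hχ]
  apply integral_nonneg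
  intro z
  have h1 : 0 ≤ lap (ue (1 / ((n : ℝ) + 1)) G) z := by
    unfold lap
    rw [lap_ue hpos hG]
    positivity
  exact mul_nonneg h1 (h0 z)

theorem harm_log {G : ℂ → ℂ} (hG : Differentiable ℂ G)
    (hint : LocallyIntegrable (fun z => Real.log ‖G (cx z)‖))
    (hae : ∀ᵐ z : ℝ × ℝ, G (cx z) ≠ 0) {χ : ℝ × ℝ → ℝ} (hχ : IsTest χ)
    (h0 : ∀ z ∈ tsupport χ, G (cx z) ≠ 0) :
    ∫ z, Real.log ‖G (cx z)‖ * lap χ z = 0 := by
  have hlim := ue_integral_tendsto hG hint hae (lap_cont hχ) (lap_cpt hχ)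
  refine tendsto_nhds_unique hlim ?_
  -- bound on the compact support
  have hcont : ContinuousOn (fun z : ℝ × ℝ => 2 * ‖deriv G (cx z)‖ ^ 2 / (‖G (cx z)‖ ^ 2) ^ 2)
      (tsupport χ) := by
    apply ContinuousOn.div
    · have : Continuous (deriv G) := (hG.contDiff (n := 1)).continuous_deriv (le_refl _)
      exact (by have := this.comp cx_continuous; fun_prop : Continuous fun z : ℝ × ℝ => 2 * ‖deriv G (cx z)‖ ^ 2).continuousOn
    · have h7 := hG.continuous.comp cx_continuous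
      exact ((h7.norm.pow 2).pow 2).continuousOn
    · intro z hz
      have := norm_pos_iff.2 (h0 z hz)
      positivity
  obtain ⟨M, hM⟩ := hχ.cpt.isCompact.exists_bound_of_continuousOn hcont
  have hM' : ∀ z ∈ tsupport χ, 2 * ‖deriv G (cx z)‖ ^ 2 / (‖G (cx z)‖ ^ 2) ^ 2 ≤ M := by
    intro z hz
    exact (le_abs_self _).trans (hM z hz)
  have hsq : ∀ n : ℕ, |∫ z, ue (1 / ((n : ℝ) + 1)) G z * lap χ z|
      ≤ 1 / ((n : ℝ) + 1) * ∫ z, |M| * |χ z| := by
    intro n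
    have hpos : (0 : ℝ) < 1 / ((n : ℝ) + 1) := by positivity
    rw [ibp_lap (ue_sm hpos hG) hχ, ← integral_const_mul]
    rw [← Real.norm_eq_abs]
    apply norm_integral_le_of_norm_le
    · apply Integrable.const_mul
      apply Integrable.const_mul
      exact (hχ.smooth.continuous.integrable_of_hasCompactSupport hχ.cpt).abs
    · filter_upwards with z
      rw [norm_mul, Real.norm_eq_abs, Real.norm_eq_abs]
      by_cases hz : z ∈ tsupport χ
      · rw [← mul_assoc]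
        gcongr
        have hnz := norm_pos_iff.2 (h0 z hz)
        have h1 : lap (ue (1 / ((n : ℝ) + 1)) G) z
            = 2 * (1 / ((n : ℝ) + 1)) * ‖deriv G (cx z)‖ ^ 2 / (us (1 / ((n : ℝ) + 1)) G z) ^ 2 := by
          unfold lap
          rw [lap_ue hpos hG]
        rw [h1, us_eq, abs_of_nonneg (by positivity)]
        calc 2 * (1 / ((n : ℝ) + 1)) * ‖deriv G (cx z)‖ ^ 2 / (‖G (cx z)‖ ^ 2 + 1 / ((n : ℝ) + 1)) ^ 2
            ≤ 2 * (1 / ((n : ℝ) + 1)) * ‖deriv G (cx z)‖ ^ 2 / (‖G (cx z)‖ ^ 2) ^ 2 := by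
              gcongr
              linarith
          _ = (1 / ((n : ℝ) + 1)) * (2 * ‖deriv G (cx z)‖ ^ 2 / (‖G (cx z)‖ ^ 2) ^ 2) := by ring
          _ ≤ (1 / ((n : ℝ) + 1)) * |M| := by
              gcongr
              exact (hM' z hz).trans (le_abs_self M)
      · rw [image_eq_zero_of_notMem_tsupport hz]
        simp
  have h3 : Tendsto (fun n : ℕ => 1 / ((n : ℝ) + 1) * ∫ z, |M| * |χ z|) atTop (𝓝 0) := by
    have := (tendsto_one_div_add_atTop_nhds_zero_nat (𝕜 := ℝ)).mul_const (∫ z, |M| * |χ z|)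
    simpa using this
  exact squeeze_zero_norm (fun n => by rw [Real.norm_eq_abs]; exact hsq n) h3

end Pool.Agent.LS
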